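import Pool.Agent.Lib.MP_1a91b9_nuX.GL.Loc
import Pool.Agent.Lib.MP_1a91b9_nuT.S4.NormPsi

/-!
# The primitive Hecke character of a form of the curve over a field which contains `K`

`FDat F W m ps`: `ps` is the Hecke character of the curve `W` over `F`, a form of the curve of `CD`; the prime divisors of the
ideal `m` are exactly the places of bad reduction (the ideal `m` may be the unit ideal).
-/

set_option autoImplicit false

namespace Pool.Agent.Lib.MP_1a91b9_nuX.PG

open NumberField IsDedekindDomain WeierstrassCurve Pool.Agent.Lib.MP_1a91b9_nuT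
  Pool.Agent.Lib.MP_1a91b9_nt
open Pool.Agent.Lib.MP_1a91b9_nuT.S4 (nK)

variable [CD]

/-- `W` has good reduction at `w` -/
def Gd {F : Type*} [Field F] [NumberField F] (W : WeierstrassCurve F)
    (w : HeightOneSpectrum (𝓞 F)) : Prop :=
  ∃ C : VariableChange F, GM.GoodW (w.valuation F) (C • W)

/-- the Hecke character of the form `W` of the curve, `F` contains `K` -/
structure FDat (F : Type*) [Field F] [NumberField F] [Algebra K F] (W : WeierstrassCurve F)
    (m : Ideal (𝓞 F)) (ps : Ideal (𝓞 F) → 𝓞 K) : Prop where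
  ne : m ≠ ⊥
  /-- the prime divisors of `m` are the places of bad reduction -/
  bad : ∀ w : HeightOneSpectrum (𝓞 F), m ≤ w.asIdeal ↔ ¬ Gd W w
  one : ps 1 = 1
  mul : ∀ I J : Ideal (𝓞 F), ps (I * J) = ps I * ps J
  span : ∀ I : Ideal (𝓞 F), IsCoprime I m → Ideal.span {ps I} = Ideal.relNorm (𝓞 K) I
  zero : ∀ I : Ideal (𝓞 F), ¬ IsCoprime I m → ps I = 0
  ray : ∀ a : 𝓞 F, a - 1 ∈ m → ps (Ideal.span {a}) = nK a
  /-- the local factors -/
  loc : ∀ w : HeightOneSpectrum (𝓞 F), (locPoly W w).map (Int.castRingHom (𝓞 K)) =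
    (1 - Polynomial.C (ps w.asIdeal) * Polynomial.X) *
      (1 - Polynomial.C (cj (ps w.asIdeal)) * Polynomial.X)

/-- `ps` extends the character `psi F` (which is zero at all the places above `f`) -/
def Cmp [HC] {F : Type*} [Field F] [NumberField F] [Algebra K F] (ps : Ideal (𝓞 F) → 𝓞 K) :
    Prop :=
  ∀ w : HeightOneSpectrum (𝓞 F), HC.f ∉ (w.under (𝓞 K)).asIdeal → ps w.asIdeal = psi F w.asIdeal

/-- the local factors of the curve `W` over the field `N` in terms of the character `ps` over the field `F` -/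
def EulD {N F : Type*} [Field N] [NumberField N] [Field F] [NumberField F] [Algebra N F]
    (W : WeierstrassCurve N) (ps : Ideal (𝓞 F) → 𝓞 K) : Prop :=
  ∀ (v : HeightOneSpectrum (𝓞 N)) (s : Finset (HeightOneSpectrum (𝓞 F))),
    (∀ w : HeightOneSpectrum (𝓞 F), w ∈ s ↔ w.under (𝓞 N) = v) →
    (locPoly W v).map (Int.castRingHom (𝓞 K)) =
      ∏ w ∈ s, (1 - Polynomial.C (ps w.asIdeal) * Polynomial.X ^ w.asIdeal.inertiaDeg (𝓞 N))

/-- the complex value of the conjugate character -/
noncomputable def bC {F : Type*} [Field F] [NumberField F] (ps : Ideal (𝓞 F) → 𝓞 K)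
    (I : Ideal (𝓞 F)) : ℂ := (starRingEnd ℂ) (embK (ps I : K))

end Pool.Agent.Lib.MP_1a91b9_nuX.PG
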