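import Pool.Agent.Lib.MP_1a91b9_nuX.PG.Frw
import Pool.Agent.Lib.MP_1a91b9_nuX.GL.CntD
import Pool.Agent.Lib.MP_1a91b9_nuX.GL.CntC

/-!
# The local factor of a form of the curve

PROOFS. `P = w.under (𝓞 K)`.
* `psw_facts`: `rel_w` (PG/FrlA.lean): `span {ψ} = P.asIdeal ^ f`, `N w = N P ^ f` (`map_pow`), `f ≠ 0`: `ψ ∈ P.asIdeal ^ f ≤ P.asIdeal`.
* `cnt_wW`: copy the proof of `cnt_w` (GL/CntD.lean) with `psi F w.asIdeal` replaced by `ψ`, `C.map _` by `D`, `C • E F` by `W`: `hG = goodC_of hD hV hW : GoodC V.valuation D`; `card_two hV W hW.toIntW` (rewrite `← hD`); `σ` Frobenius (`exists_fr`), `φ` its transport (`trp_exists hD σ`), `hfr V hV σ hσ φ hφ : ∀ T, Ta T → φ T = sm ψ T`;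
  `Ph V D q φ` (structure in GL/CntE.lean: `ta`: `trp_ta`; `inj`: `trp_inj`; `x`, `y`: `hφ`, `hσ`, `ta_le`). The private lemmas `cntd_half`, `cntd_norm` of GL/CntD.lean have to be copied (with new names).
* `loc_goodW`: `C` with `GM.GoodW (w.valuation F) (C • W)`; `D' = C.map (algebraMap F Kb) * D`, `hD' = md_chg hD C`; `FrV D' w ψ` by `trp_chg`; `V` above `w` (`exists_abv`); `locPoly_good hV W hC` (GL/CntB.lean), `cnt_wW` for `C • W`, `D'`; the rest is the end of the proof of `loc_good'` (GL/CntD.lean).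
* `loc_badW`: `locPoly_bad v W (j_intW hD v) hg` (GL/CntC.lean, PG/TrpA.lean).
-/

set_option autoImplicit false

namespace Pool.Agent.Lib.MP_1a91b9_nuX.PG

open NumberField IsDedekindDomain WeierstrassCurve Pool.Agent.Lib.MP_1a91b9_nuT
  Pool.Agent.Lib.MP_1a91b9_nt
open Pool.Agent.Lib.MP_1a91b9_nuX.DB Pool.Agent.Lib.MP_1a91b9_nuX.GL

universe u

/-- an injective map from the nonzero points killed by `a` to a finite set -/
private theorem cntw_half [CD] [DecidableEq Kb] {a : 𝓞 K} (ha : a ≠ 0) {β : Type*} {S : Set β}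
    (hS : S.Finite)
    (r : Pt Kb → β) (hr : ∀ T, sm Kb a T = 0 → T ≠ 0 → r T ∈ S)
    (hi : ∀ T T', sm Kb a T = 0 → T ≠ 0 → sm Kb a T' = 0 → T' ≠ 0 → r T = r T' → T = T') :
    Ideal.absNorm (Ideal.span {a}) ≤ S.ncard + 1 ∧
    (S.ncard + 1 ≤ Ideal.absNorm (Ideal.span {a}) →
      ∀ z ∈ S, ∃ T, T ≠ 0 ∧ sm Kb a T = 0 ∧ r T = z) := by
  obtain ⟨hfin, hcard⟩ := tors_card ha
  obtain ⟨A, hA⟩ : ∃ A : Set (Pt Kb), A = {T : Pt Kb | sm Kb a T = 0} \ {0} := ⟨_, rfl⟩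
  have hA0 : ∀ T, T ∈ A ↔ sm Kb a T = 0 ∧ T ≠ 0 := fun T => by
    rw [hA]
    exact Iff.rfl
  have h1 : A.ncard + 1 = Ideal.absNorm (Ideal.span {a}) := by
    rw [hA, ← hcard]
    exact Set.ncard_diff_singleton_add_one (map_zero _) hfin
  have h2 : (r '' A).ncard = A.ncard := by
    refine Set.ncard_image_of_injOn fun T hT T' hT' h => ?_
    obtain ⟨h3, h4⟩ := (hA0 T).1 hT
    obtain ⟨h5, h6⟩ := (hA0 T').1 hT'
    exact hi T T' h3 h4 h5 h6 h
  have h3 : r '' A ⊆ S := by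
    rintro z ⟨T, hT, rfl⟩
    obtain ⟨h4, h5⟩ := (hA0 T).1 hT
    exact hr T h4 h5
  have h4 := Set.ncard_le_ncard h3 hS
  refine ⟨by omega, fun h5 z hz => ?_⟩
  have h6 : r '' A = S := Set.eq_of_subset_of_ncard_le h3 (by omega) hS
  rw [← h6] at hz
  obtain ⟨T, hT, h7⟩ := hz
  obtain ⟨h8, h9⟩ := (hA0 T).1 hT
  exact ⟨T, h9, h8, h7⟩

/-- the sum of the norms of `1 - x` and `1 + x` -/
private theorem cntw_norm [CD] (x : 𝓞 K) : Ideal.absNorm (Ideal.span {1 - x}) +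
    Ideal.absNorm (Ideal.span {1 + x}) = 2 + 2 * Ideal.absNorm (Ideal.span {x}) := by
  have h : ((Ideal.absNorm (Ideal.span {1 - x}) + Ideal.absNorm (Ideal.span {1 + x}) : ℕ) : 𝓞 K) =
      ((2 + 2 * Ideal.absNorm (Ideal.span {x}) : ℕ) : 𝓞 K) := by
    rw [Nat.cast_add, Nat.cast_add, Nat.cast_mul, ← mul_cj, ← mul_cj, ← mul_cj, map_sub, map_add,
      map_one]
    push_cast
    ring
  exact Nat.cast_injective h

/-- the transport of a Frobenius automorphism induces the power map on the reductions -/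
private theorem cntw_ph [CD] [DecidableEq Kb] {F : Type u} [Field F] [NumberField F] [Algebra K F]
    [Algebra F Kb] [IsScalarTower K F Kb] {W : WeierstrassCurve F} {D : VariableChange Kb}
    (hD : D • EF Kb = W.map (algebraMap F Kb)) {w : HeightOneSpectrum (𝓞 F)}
    {V : ValuationSubring Kb} (hV : Abv w V) (hG : GoodC V.valuation D) {q : ℕ}
    {σ : Kb ≃ₐ[F] Kb} (hσ : IsFr V q σ) {φ : Pt Kb →+ Pt Kb} (hφ : Trp D σ φ) :
    Ph V D q φ := by
  have hVP : Abv (w.under (𝓞 K)) V := abv_res hV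
  refine ⟨fun T hT => trp_ta hD hφ hT, fun T h => trp_inj hφ h, fun T hT h0 => ?_,
    fun T hT h0 => ?_⟩
  · rw [(hφ T h0).2.1]
    exact hσ _ (ta_le hVP hG hT h0).1
  · rw [(hφ T h0).2.2]
    exact hσ _ (ta_le hVP hG hT h0).2

variable [CD] [DecidableEq Kb]

section
variable {F : Type u} [Field F] [NumberField F] [Algebra K F] [Algebra F Kb]
  [IsScalarTower K F Kb] {W : WeierstrassCurve F} {D : VariableChange Kb}
  (hD : D • EF Kb = W.map (algebraMap F Kb)) {w : HeightOneSpectrum (𝓞 F)} {ψ : 𝓞 K}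
  (hψ : Ideal.span {ψ} = Ideal.relNorm (𝓞 K) w.asIdeal)
include hψ

theorem psw_facts : Ideal.absNorm (Ideal.span {ψ}) = Ideal.absNorm w.asIdeal ∧
    ψ ∈ (w.under (𝓞 K)).asIdeal := by
  obtain ⟨h1, h2, h3⟩ := rel_w w
  refine ⟨?_, ?_⟩
  · rw [hψ, h1, map_pow, h2]
  · have h4 := Ideal.mem_span_singleton_self ψ
    rw [hψ, h1] at h4
    exact Ideal.pow_le_self h3 h4

variable (hfr : FrV D w ψ)
include hD hfr

/-- the number of points over the residue field -/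
theorem cnt_wW {V : ValuationSubring Kb} (hV : Abv w V) (hW : GM.GoodW (w.valuation F) W) :
    (Sp (Ideal.absNorm w.asIdeal) (rdW V (D • EF Kb))).ncard + 1 =
      Ideal.absNorm (Ideal.span {1 - ψ}) ∧
    ∀ z ∈ Sp (Ideal.absNorm w.asIdeal) (rdW V (D • EF Kb)), ∃ T : Pt Kb,
      T ≠ 0 ∧ sm Kb (1 - ψ) T = 0 ∧ rdp V D T = z := by
  have hFK : Algebra.IsAlgebraic F Kb := Algebra.IsAlgebraic.tower_top (K := K) F
  have hG : GoodC V.valuation D := goodC_of hD hV hW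
  have hVP : Abv (w.under (𝓞 K)) V := abv_res hV
  obtain ⟨hp1, hp2⟩ := psw_facts hψ
  obtain ⟨hf1, hf2, hf3⟩ := card_two hV W hW.toIntW
  rw [← hD] at hf1 hf2 hf3
  obtain ⟨σ, hσ⟩ := exists_fr (Ω := Kb) hV
  obtain ⟨φ, hφ⟩ := trp_exists hD σ
  have hPh := cntw_ph hD hV hG hσ hφ
  have hfr' : ∀ T : Pt Kb, Ta V.valuation T → φ T = sm Kb ψ T := fun T hT =>
    hfr V hV σ hσ φ hφ T hT
  have hone : (1 : 𝓞 K) ∉ (w.under (𝓞 K)).asIdeal := fun h =>
    (w.under (𝓞 K)).isPrime.ne_top ((Ideal.eq_top_iff_one _).2 h)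
  have hm1 : (1 - ψ) ∉ (w.under (𝓞 K)).asIdeal := fun h => hone (by
    have h1 := Ideal.add_mem _ h hp2
    rwa [sub_add_cancel] at h1)
  have hm2 : (1 + ψ) ∉ (w.under (𝓞 K)).asIdeal := fun h => hone (by
    have h1 := Ideal.sub_mem _ h hp2
    rwa [add_sub_cancel_right] at h1)
  have hn1 : (1 - ψ) ≠ 0 := fun h => hm1 (by rw [h]; exact zero_mem _)
  have hn2 : (1 + ψ) ≠ 0 := fun h => hm2 (by rw [h]; exact zero_mem _)
  have hta1 : ∀ T : Pt Kb, sm Kb (1 - ψ) T = 0 → Ta V.valuation T := fun T hT =>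
    ⟨1 - ψ, (val_one_iff hVP _).2 hm1, hT⟩
  have hta2 : ∀ T : Pt Kb, sm Kb (1 + ψ) T = 0 → Ta V.valuation T := fun T hT =>
    ⟨1 + ψ, (val_one_iff hVP _).2 hm2, hT⟩
  obtain ⟨h1, h2⟩ := cntw_half hn1 hf1 (rdp V D)
    (fun T hT h0 => ph_sp hVP hG hPh (hta1 T hT) h0 (by
      rw [hfr' T (hta1 T hT)]
      rw [sm_sub, sm_one, sub_eq_zero] at hT
      exact hT.symm))
    (fun T T' hT h0 hT' h0' h => rdp_inj hVP hG (hta1 T hT) (hta1 T' hT') h0 h0' h)
  obtain ⟨h3, -⟩ := cntw_half hn2 hf2 (rdp V D)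
    (fun T hT h0 => ph_sm hVP hG hPh (hta2 T hT) h0 (by
      rw [hfr' T (hta2 T hT)]
      rw [sm_add, sm_one] at hT
      exact eq_neg_of_add_eq_zero_right hT))
    (fun T T' hT h0 hT' h0' h => rdp_inj hVP hG (hta2 T hT) (hta2 T' hT') h0 h0' h)
  have h4 := cntw_norm ψ
  rw [hp1] at h4
  exact ⟨by omega, h2 (by omega)⟩

/-- the local factor at a place of good reduction -/
theorem loc_goodW (hg : ∃ C : VariableChange F, GM.GoodW (w.valuation F) (C • W)) :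
    (locPoly W w).map (Int.castRingHom (𝓞 K)) =
      (1 - Polynomial.C ψ * Polynomial.X) * (1 - Polynomial.C (cj ψ) * Polynomial.X) := by
  have hFK : Algebra.IsAlgebraic F Kb := Algebra.IsAlgebraic.tower_top (K := K) F
  obtain ⟨C, hC⟩ := hg
  obtain ⟨D', hDe⟩ : ∃ D', D' = C.map (algebraMap F Kb) * D := ⟨_, rfl⟩
  have hD' : D' • EF Kb = (C • W).map (algebraMap F Kb) := by
    rw [hDe]
    exact md_chg hD C
  have hfr' : FrV D' w ψ := by
    intro V hV σ hσ φ hφ T hT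
    rw [hDe] at hφ
    exact hfr V hV σ hσ φ ((trp_chg C σ).2 hφ) T hT
  obtain ⟨V, hV⟩ := exists_abv (Ω := Kb) w
  obtain ⟨-, hl⟩ := locPoly_good hV W hC
  obtain ⟨hc, -⟩ := cnt_wW hD' hψ hfr' hV hC
  rw [← hD'] at hl
  obtain ⟨hp1, -⟩ := psw_facts hψ
  rw [hl]
  obtain ⟨n, hn⟩ : ∃ n, n = (Sp (Ideal.absNorm w.asIdeal)
    (rdW V (D' • EF Kb))).ncard := ⟨_, rfl⟩
  rw [← hn] at hc ⊢
  have h1 : ((n : ℕ) : 𝓞 K) + 1 = (1 - ψ) * (1 - cj ψ) := by
    have h2 := mul_cj (1 - ψ)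
    rw [← hc, map_sub, map_one] at h2
    rw [h2]
    push_cast
    ring
  have h2 : ((Ideal.absNorm w.asIdeal : ℕ) : 𝓞 K) = ψ * cj ψ := by
    rw [← hp1, mul_cj]
  have h3 : (Int.castRingHom (𝓞 K)) ((Ideal.absNorm w.asIdeal : ℤ) - (n : ℤ)) = ψ + cj ψ := by
    rw [eq_intCast]
    push_cast
    rw [h2]
    linear_combination -h1
  have h4 : (Int.castRingHom (𝓞 K)) (Ideal.absNorm w.asIdeal : ℤ) = ψ * cj ψ := by
    rw [eq_intCast]
    push_cast
    exact h2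
  rw [Polynomial.map_add, Polynomial.map_sub, Polynomial.map_mul, Polynomial.map_mul,
    Polynomial.map_C, Polynomial.map_C, Polynomial.map_X, Polynomial.map_pow, Polynomial.map_X,
    Polynomial.map_one, h3, h4, Polynomial.C_add, Polynomial.C_mul]
  ring

end

omit [DecidableEq Kb] in
/-- the local factor at a place of bad reduction -/
theorem loc_badW {N : Type u} [Field N] [NumberField N] [Algebra N Kb] {W : WeierstrassCurve N}
    {D : VariableChange Kb} (hD : D • EF Kb = W.map (algebraMap N Kb))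
    {v : HeightOneSpectrum (𝓞 N)}
    (hg : ¬ ∃ C : VariableChange N, GM.GoodW (v.valuation N) (C • W)) : locPoly W v = 1 :=
  locPoly_bad v W (j_intW hD v) hg

end Pool.Agent.Lib.MP_1a91b9_nuX.PG
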