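import Pool.Agent.Lib.MP_1a91b9_nuX.PG.Main

/-!
# The primitive Hecke character of a form of the curve
-/

set_option autoImplicit false

namespace Pool.Agent.Lib.MP_1a91b9_nuX.PG

open NumberField IsDedekindDomain WeierstrassCurve Pool.Agent.Lib.MP_1a91b9_nuT
  Pool.Agent.Lib.MP_1a91b9_nt
open Pool.Agent.Lib.MP_1a91b9_nuX.DB Pool.Agent.Lib.MP_1a91b9_nuX.GL
open Pool.Agent.Lib.MP_1a91b9_nuT.S4 (nK)

universe u

/-- a Weierstrass curve has good reduction at almost all places -/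
theorem bad_finite {F : Type*} [Field F] [NumberField F] (W : WeierstrassCurve F) (hΔ : W.Δ ≠ 0) :
    {w : HeightOneSpectrum (𝓞 F) | ¬ Gd W w}.Finite := by
  have hS : ∀ x : F, (HeightOneSpectrum.Support (𝓞 F) x).Finite := fun x =>
    HeightOneSpectrum.Support.finite (𝓞 F) x
  have h := (((((hS W.a₁).union (hS W.a₂)).union (hS W.a₃)).union (hS W.a₄)).union
    (hS W.a₆)).union ((hS W.Δ).union (hS W.Δ⁻¹))
  refine h.subset fun w hw => ?_
  by_contra hn
  apply hw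
  have key : ∀ x : F, w ∉ HeightOneSpectrum.Support (𝓞 F) x → w.valuation F x ≤ 1 :=
    fun x hx => not_lt.1 hx
  simp only [Set.mem_union, not_or] at hn
  obtain ⟨⟨⟨⟨⟨h1, h2⟩, h3⟩, h4⟩, h6⟩, h7, h8⟩ := hn
  refine ⟨1, ?_⟩
  rw [one_smul]
  refine ⟨⟨key _ h1, key _ h2, key _ h3, key _ h4, key _ h6⟩, ?_⟩
  have h9 := key _ h8
  rw [map_inv₀] at h9
  refine le_antisymm (key _ h7) ?_
  by_contra hlt
  have h10 : w.valuation F W.Δ < 1 := not_le.1 hlt
  have h11 : w.valuation F W.Δ ≠ 0 := (Valuation.ne_zero_iff _).2 hΔ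
  exact absurd ((one_lt_inv₀ (zero_lt_iff.2 h11)).2 h10) (not_lt.2 h9)

variable [CD]

/-- a nonzero element of `𝓞 K` in all the places of bad reduction -/
theorem exists_badK {F : Type*} [Field F] [NumberField F] [Algebra K F] (W : WeierstrassCurve F)
    (hΔ : W.Δ ≠ 0) : ∃ b : 𝓞 K, b ≠ 0 ∧ ∀ w : HeightOneSpectrum (𝓞 F),
      b ∉ (w.under (𝓞 K)).asIdeal → Gd W w := by
  classical
  have hfin := bad_finite W hΔ
  refine ⟨∏ w ∈ hfin.toFinset, ((Ideal.absNorm w.asIdeal : ℕ) : 𝓞 K), ?_, fun w hw => ?_⟩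
  · rw [Finset.prod_ne_zero_iff]
    intro w _
    rw [Ne, Nat.cast_eq_zero, Ideal.absNorm_eq_zero_iff]
    exact w.ne_bot
  · by_contra h
    apply hw
    have hmem : w ∈ hfin.toFinset := by
      rw [Set.Finite.mem_toFinset]
      exact h
    rw [← Finset.mul_prod_erase _ _ hmem]
    refine Ideal.mul_mem_right _ _ ?_
    change algebraMap (𝓞 K) (𝓞 F) ((Ideal.absNorm w.asIdeal : ℕ) : 𝓞 K) ∈ w.asIdeal
    rw [map_natCast]
    exact Ideal.absNorm_mem w.asIdeal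

theorem EF_disc_ne : (EF Kb).Δ ≠ 0 := by
  have e : (EF Kb).Δ = -16 * (4 * cA Kb ^ 3 + 27 * cB Kb ^ 2) := by
    simp [EF, E, WeierstrassCurve.Δ, WeierstrassCurve.b₂, WeierstrassCurve.b₄,
      WeierstrassCurve.b₆, WeierstrassCurve.b₈]
    ring
  have h2 : (2 : Kb) ≠ 0 := two_ne
  rw [e]
  refine mul_ne_zero ?_ (dsc_ne (F := Kb))
  have h16 : (-16 : Kb) = -(2 * 2 * 2 * 2) := by norm_num
  rw [h16]
  exact neg_ne_zero.2 (mul_ne_zero (mul_ne_zero (mul_ne_zero h2 h2) h2) h2)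

section
variable [HC] [DecidableEq Kb] {F : Type u} [Field F] [NumberField F] [Algebra K F] [Algebra F Kb]
  [IsScalarTower K F Kb] {W : WeierstrassCurve F} {D : VariableChange Kb}
  (hD : D • EF Kb = W.map (algebraMap F Kb)) (hE : GL.EllK) {g₀ : 𝓞 K} (hg0 : g₀ ≠ 0)
  (hA : AbD F D g₀)
include hD hE hg0 hA

/-- the primitive character of a form of the curve which is defined over a field of division points -/
theorem exists_fdatW : ∃ (m : Ideal (𝓞 F)) (ps : Ideal (𝓞 F) → 𝓞 K), FDat F W m ps ∧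
      (∀ w, Gd W w → Ideal.span {ps w.asIdeal} = Ideal.relNorm (𝓞 K) w.asIdeal ∧
        FrV D w (ps w.asIdeal)) ∧
      ∀ w : HeightOneSpectrum (𝓞 F), ¬ Gd W w → ps w.asIdeal = 0 := by
  obtain ⟨g, hg1, hg2⟩ := exists_vals hD hE
  have hΔ : W.Δ ≠ 0 := by
    intro h0
    have h1 := congrArg WeierstrassCurve.Δ hD
    rw [WeierstrassCurve.map_Δ, h0, map_zero, WeierstrassCurve.variableChange_Δ] at h1
    have h2 : ((D.u⁻¹ : Kbˣ) : Kb) ^ 12 ≠ 0 := pow_ne_zero 12 (Units.ne_zero _)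
    have h3 : (EF Kb).Δ ≠ 0 := EF_disc_ne
    exact (mul_ne_zero h2 h3) h1
  obtain ⟨b, hb0, hb⟩ := exists_badK W hΔ
  obtain ⟨c, hc⟩ : ∃ c : 𝓞 K, c = HC.f * g₀ * b := ⟨_, rfl⟩
  have hc0 : c ≠ 0 := by
    rw [hc]
    exact mul_ne_zero (mul_ne_zero HC.hd.ne hg0) hb0
  have hgood : ∀ w : HeightOneSpectrum (𝓞 F), c ∉ (w.under (𝓞 K)).asIdeal → Gd W w := by
    intro w hw
    refine hb w fun h => hw ?_
    rw [hc]
    exact Ideal.mul_mem_left _ _ h
  obtain ⟨m, hm⟩ := fdat_core hD hg1 hg2 (f := Ideal.span {algebraMap (𝓞 K) (𝓞 F) c}) (by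
      rw [Ne, Ideal.span_singleton_eq_bot]
      intro h
      exact hc0 ((FaithfulSMul.algebraMap_injective (𝓞 K) (𝓞 F)) (by rw [map_zero]; exact h)))
    (fun w hw => by
      rw [Ideal.span_singleton_le_iff_mem]
      by_contra h
      exact hw (hgood w h))
    (fun a ha => ini_ray hD (c := c) (g := g₀)
      (by rw [hc, mul_assoc]; exact dvd_mul_right _ _)
      (by rw [hc, mul_comm HC.f g₀, mul_assoc]; exact dvd_mul_right _ _)
      (fun w hw => (hg1 w (hgood w hw)).2) hA a ha)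
  refine ⟨m, psI g, hm, fun w hw => ?_, fun w hw => ?_⟩
  · rw [psI_prime]
    exact hg1 w hw
  · rw [psI_prime]
    exact hg2 w hw

end

section
variable [HC] [DecidableEq Kb] {N F : Type u} [Field N] [NumberField N] [Field F] [NumberField F]
  [Algebra K F] [Algebra N F] [Algebra F Kb] [Algebra N Kb] [IsScalarTower K F Kb]
  [IsScalarTower N F Kb] [Algebra.IsAlgebraic N Kb] {W : WeierstrassCurve N}
  {D : VariableChange Kb} (hD : D • EF Kb = W.map (algebraMap N Kb)) (hE : GL.EllK) {g₀ : 𝓞 K}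
  (hg0 : g₀ ≠ 0) (hA : AbD F D g₀) (h2 : Module.finrank N F = 2)
  (hn : ∀ x : N, algebraMap N F x ≠ algebraMap K F (ta : K))
include hD hE hg0 hA h2 hn

/-- the primitive character over `F = N K` of a form over `N` -/
theorem exists_fdatWN : ∃ (m : Ideal (𝓞 F)) (ps : Ideal (𝓞 F) → 𝓞 K),
      FDat F (W.map (algebraMap N F)) m ps ∧
      (∀ w, Gd (W.map (algebraMap N F)) w →
        Ideal.span {ps w.asIdeal} = Ideal.relNorm (𝓞 K) w.asIdeal ∧ FrV D w (ps w.asIdeal)) ∧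
      (∀ w : HeightOneSpectrum (𝓞 F), ¬ Gd (W.map (algebraMap N F)) w → ps w.asIdeal = 0) ∧
      EulD W ps := by
  obtain ⟨m, ps, h1, h3, h4⟩ := exists_fdatW (md_up hD) hE hg0 hA
  exact ⟨m, ps, h1, h3, h4, eulD_of hD h2 hn h3 h4⟩

end

end Pool.Agent.Lib.MP_1a91b9_nuX.PG
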