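import Pool.Agent.Lib.MP_1a91b9_nuX.PG.FrlB
import Pool.Agent.Lib.MP_1a91b9_nuX.GL.FrB
import Pool.Agent.Lib.MP_1a91b9_nuX.GL.ConjA

/-!
# The value of the Hecke character of a form of the curve at a place of good reduction

PROOFS.
* `exists_frv`: `C` with `GM.GoodW (w.valuation F) (C • W)`, `D' = C.map (algebraMap F Kb) * D`, `hD' : D' • EF Kb = (C • W).map _` (`md_chg`); for every `V` above `w`: `GoodC V.valuation D'` (`goodC_of hD' hV hC`); `Trp D σ φ ↔ Trp D' σ φ` (`trp_chg`).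
  `V₀` above `w` (`exists_abv (Ω := Kb) w`), `σ₀` Frobenius (`exists_fr`; `F ⊆ Kb` is algebraic: `Algebra.IsAlgebraic.tower_top (K := K) F`), `φ₀` (`trp_exists`), `ψ` from `frob_core`, on `Ta` by `frob_ta`.
  For another `V`, `σ`, `φ`: `ρ` from `abv_trans hV₀ hV : ∃ ρ : Kb ≃ₐ[F] Kb, ∀ x, V.valuation (ρ x) ≤ 1 ↔ V₀.valuation x ≤ 1`; `σ' = ρ⁻¹ * σ * ρ` satisfies `IsFr V₀ q σ'` (see `fr_unit'` in GL/FrA.lean). `R`, `R'` the transports of `ρ`, `ρ⁻¹` (`trp_exists`), `R (R' T) = T` (`trp_inv`).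
  `φ' = (R'.comp φ).comp R` is the transport of `σ'` (`trp_comp`; the functions agree by `rfl` or `AlgEquiv.mul_apply`). For `T` in `Ta V`: `T' = R' T` is in `Ta V₀` (killed by the same `a`: `trp_lin`; `V a = 1 ↔ V₀ a = 1`: both mean `a ∉ P`: `val_one_iff (abv_res hV)`), `φ' T' = φ₀ T' = sm ψ T'` (`trp_agree` for `D'`, `V₀`), so
  `R' (φ (R T')) = sm ψ T'`; apply `R`: `φ T = sm ψ T` (`trp_lin` for `R`).
* `frv_unique`: `V`, `σ`, `φ` as above, `eq_of_tr (abv_res hV)` (GL/ConjA.lean) with `tr_ta`.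
* `frv_psi`: `D = 1`: `cx 1 T = xc T`, `cy 1 T = yc T` (`simp [cx, cy]`, `1 : VariableChange` has `u = 1`, `r = s = t = 0`), so `Trp 1 σ φ` and `Trp 1 σ (ga σ)` (`xc_gk`, `yc_gk`, `gk_ne`), `φ = ga σ` (`trp_unique`). `fr_ta hf (abv_res hV) (w.asIdeal.inertiaDeg (𝓞 K))` for `σ.restrictScalars K` (GL/FrB.lean, see its use in `cnt_w`, GL/CntD.lean;
  `psi_pow F w : psi F w.asIdeal = ps (w.under (𝓞 K)).asIdeal ^ w.asIdeal.inertiaDeg (𝓞 K)`, `psi_facts hf` for the norm; `gk_res`).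
-/

set_option autoImplicit false

namespace Pool.Agent.Lib.MP_1a91b9_nuX.PG

open NumberField IsDedekindDomain WeierstrassCurve Pool.Agent.Lib.MP_1a91b9_nuT
open Pool.Agent.Lib.MP_1a91b9_nuX.DB Pool.Agent.Lib.MP_1a91b9_nuX.GL

universe u

variable [CD] [DecidableEq Kb]

section
variable {F : Type u} [Field F] [NumberField F] [Algebra K F] [Algebra F Kb]
  [IsScalarTower K F Kb] {W : WeierstrassCurve F} {D : VariableChange Kb}
  (hD : D • EF Kb = W.map (algebraMap F Kb)) {w : HeightOneSpectrum (𝓞 F)}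
include hD

/-- the value at a place of good reduction exists -/
theorem exists_frv (hE : EllK) (hg : ∃ C : VariableChange F, GM.GoodW (w.valuation F) (C • W)) :
    ∃ ψ : 𝓞 K, Ideal.span {ψ} = Ideal.relNorm (𝓞 K) w.asIdeal ∧ FrV D w ψ := by
  have hFK : Algebra.IsAlgebraic F Kb := Algebra.IsAlgebraic.tower_top (K := K) F
  obtain ⟨C, hC⟩ := hg
  obtain ⟨D', hDe⟩ : ∃ D', D' = C.map (algebraMap F Kb) * D := ⟨_, rfl⟩
  have hD' : D' • EF Kb = (C • W).map (algebraMap F Kb) := by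
    rw [hDe]
    exact md_chg hD C
  have hT' : ∀ (σ : Kb ≃ₐ[F] Kb) (φ : Pt Kb →+ Pt Kb), Trp D σ φ → Trp D' σ φ := by
    intro σ φ h
    rw [hDe]
    exact (trp_chg C σ).1 h
  obtain ⟨V₀, hV₀⟩ := exists_abv (Ω := Kb) w
  obtain ⟨σ₀, hσ₀⟩ := exists_fr hV₀
  obtain ⟨φ₀, hφ₀⟩ := trp_exists hD' σ₀
  have hG₀ : GoodC V₀.valuation D' := goodC_of hD' hV₀ hC
  obtain ⟨ψ, hψ, hψ'⟩ := frob_core hD' hV₀ hG₀ hE hσ₀ hφ₀
  refine ⟨ψ, hψ, fun V hV σ hσ φ hφ T hT => ?_⟩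
  have hφ' := hT' σ φ hφ
  have hVP₀ : Abv (w.under (𝓞 K)) V₀ := abv_res hV₀
  have hVP : Abv (w.under (𝓞 K)) V := abv_res hV
  obtain ⟨ρ, hρ⟩ := abv_trans hV₀ hV
  have hlt : ∀ x : Kb, V.valuation (ρ x) < 1 → V₀.valuation x < 1 := by
    intro x hx
    rcases eq_or_ne x 0 with h0 | h0
    · rw [h0, map_zero]
      exact zero_lt_one
    by_contra hc
    have h1 : V₀.valuation x⁻¹ ≤ 1 := by
      rw [map_inv₀]
      exact inv_le_one_of_one_le₀ (not_lt.1 hc)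
    have h2 := (hρ x⁻¹).2 h1
    rw [map_inv₀, map_inv₀] at h2
    have h3 : V.valuation (ρ x) ≠ 0 := by
      rw [Valuation.ne_zero_iff]
      intro h4
      exact h0 ((map_eq_zero_iff ρ ρ.injective).1 h4)
    have h5 : (V.valuation (ρ x)) * (V.valuation (ρ x))⁻¹ = 1 := mul_inv_cancel₀ h3
    have h6 : (V.valuation (ρ x)) * (V.valuation (ρ x))⁻¹ < 1 :=
      mul_lt_one_of_lt_of_le hx h2
    rw [h5] at h6
    exact lt_irrefl _ h6
  have hσ' : IsFr V₀ (Ideal.absNorm w.asIdeal) (ρ⁻¹ * σ * ρ) := by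
    intro x hx
    apply hlt
    have h1 : ρ ((ρ⁻¹ * σ * ρ) x) = σ (ρ x) := by
      show ρ (ρ.symm (σ (ρ x))) = σ (ρ x)
      exact ρ.apply_symm_apply _
    rw [map_sub, map_pow, h1]
    exact hσ _ ((hρ x).2 hx)
  obtain ⟨R, hR⟩ := trp_exists hD' ρ
  obtain ⟨R', hR'⟩ := trp_exists hD' ρ⁻¹
  have hRR : ∀ X : Pt Kb, R (R' X) = X := trp_inv hR hR' fun x => ρ.apply_symm_apply x
  have hc0 : Trp D' (fun x => ρ⁻¹ (σ x)) (R'.comp φ) := trp_comp hR' hφ'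
  have hc2 : Trp D' (fun x => ρ⁻¹ (σ (ρ x))) ((R'.comp φ).comp R) :=
    trp_comp (σ := fun x => ρ⁻¹ (σ x)) (τ := ρ) hc0 hR
  have hc1 : Trp D' (ρ⁻¹ * σ * ρ : Kb ≃ₐ[F] Kb) ((R'.comp φ).comp R) := hc2
  have hTa : Ta V₀.valuation (R' T) := by
    obtain ⟨a, ha, h0⟩ := hT
    refine ⟨a, (val_one_iff hVP₀ a).2 ((val_one_iff hVP a).1 ha), ?_⟩
    rw [← trp_lin hD' hR' a T, h0, map_zero]
  have h1 : R' (φ (R (R' T))) = φ₀ (R' T) := trp_agree hD' hV₀ hG₀ hσ' hσ₀ hc1 hφ₀ hTa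
  rw [hRR, frob_ta hD' hV₀ hG₀ hσ₀ hφ₀ hψ hψ' hTa] at h1
  have h2 := congrArg (fun X => R X) h1
  change R (R' (φ T)) = R (sm Kb ψ (R' T)) at h2
  rw [hRR, trp_lin hD' hR, hRR] at h2
  exact h2

/-- the value is unique -/
theorem frv_unique {ψ ψ' : 𝓞 K} (h : FrV D w ψ) (h' : FrV D w ψ') : ψ = ψ' := by
  have hFK : Algebra.IsAlgebraic F Kb := Algebra.IsAlgebraic.tower_top (K := K) F
  obtain ⟨V, hV⟩ := exists_abv (Ω := Kb) w
  obtain ⟨σ, hσ⟩ := exists_fr hV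
  obtain ⟨φ, hφ⟩ := trp_exists hD σ
  have hVP : Abv (w.under (𝓞 K)) V := abv_res hV
  refine eq_of_tr hVP fun T hT => ?_
  rw [← h V hV σ hσ φ hφ T (tr_ta hT), h' V hV σ hσ φ hφ T (tr_ta hT)]

end

/-- the value at a place which does not divide `f` -/
theorem frv_psi [HC] {F : Type u} [Field F] [NumberField F] [Algebra K F] [Algebra F Kb]
    [IsScalarTower K F Kb] {w : HeightOneSpectrum (𝓞 F)}
    (hf : HC.f ∉ (w.under (𝓞 K)).asIdeal) : FrV (1 : VariableChange Kb) w (psi F w.asIdeal) := by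
  intro V hV σ hσ φ hφ T hT
  have hVP : Abv (w.under (𝓞 K)) V := abv_res hV
  have hx : ∀ X : Pt Kb, cx (1 : VariableChange Kb) X = xc X := by
    intro X
    show (xc X - 0) / ((1 : Kbˣ) : Kb) ^ 2 = xc X
    rw [Units.val_one, one_pow, div_one, sub_zero]
  have hy : ∀ X : Pt Kb, cy (1 : VariableChange Kb) X = yc X := by
    intro X
    show (yc X - 0 * (xc X - 0) - 0) / ((1 : Kbˣ) : Kb) ^ 3 = yc X
    rw [Units.val_one, one_pow, div_one, sub_zero, zero_mul, sub_zero]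
  have h1 : Trp (1 : VariableChange Kb) σ (ga σ) := by
    intro X hX
    refine ⟨fun h => hX ((gk_ne σ).1 h), ?_, ?_⟩
    · rw [hx, hx, xc_gk]
    · rw [hy, hy, yc_gk]
  have h2 : φ = ga σ := trp_unique hφ h1
  obtain ⟨-, hn, -⟩ := rel_w w
  have h3 : IsFr V (Ideal.absNorm (w.under (𝓞 K)).asIdeal ^ w.asIdeal.inertiaDeg (𝓞 K))
      (σ.restrictScalars K) := by
    rw [← hn]
    exact hσ
  rw [h2, psi_pow]
  exact fr_ta hf hVP (w.asIdeal.inertiaDeg (𝓞 K)) h3 hT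

end Pool.Agent.Lib.MP_1a91b9_nuX.PG
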