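import Pool.Agent.Lib.MP_1a91b9_nuX.PG.TrpB

/-!
# The automorphisms of the curve are the multiplications by the units

PROOFS.
* `aut_unit`: `f : Kb →ₐ[K] ℂ` (`IsAlgClosed.lift`), `ρ' = f ρ ≠ 0`, `ρ' ^ 4 * cA ℂ = cA ℂ`, `ρ' ^ 6 * cB ℂ = cB ℂ` (as `hA'`, `hB'` in the proof of `aut_sm`, GL/SemA.lean). Copy the private theorems `semA_mem`, `semA_XY` of GL/SemA.lean (new names): `ρ' l`, `ρ'⁻¹ l` are in `PP.lattice` for `l` in `PP.lattice`; `S3.X (ρ'⁻¹ z) = ρ' ^ 2 * S3.X z`, `S3.Y (ρ'⁻¹ z) = ρ' ^ 3 * S3.Y z`.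
  `1 ∈ PP.lattice` (`S3.mem_PP_iff.2 ⟨1, _⟩`: `l ∈ PP.lattice ↔ ∃ a : 𝓞 K, l = embK a` up to the form), so `ρ' = embK b`, `ρ'⁻¹ = embK a` with `a, b : 𝓞 K` (`S3.mem_PP_iff.1`), `embK (a * b) = 1`, so `a * b = 1` (`embK` is injective on `K`, `𝓞 K → K` is injective): `ζ = ⟨a, b, _, _⟩ : (𝓞 K)ˣ`.
  For `T, T'`: `u` from `exists_uni` (nuX/DB/Uni.lean: `u : ℂ →+ Pt ℂ` surjective, `u z = 0 ↔ z ∈ PP.lattice`, `xc (u z) = X z`, `yc (u z) = Y z / 2` for `z ∉ PP.lattice`, `u (embK a * z) = sm ℂ a (u z)`): `pm f T = u z`, `z ∉ PP.lattice` (`pm_inj`, `T ≠ 0`), `ρ'⁻¹ z ∉ PP.lattice` (otherwise multiply by `ρ'`), `sm ℂ a (u z) = u (ρ'⁻¹ z)` has the coordinates `ρ' ^ 2 X z`, `ρ' ^ 3 Y z / 2`, these are the coordinates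
  of `pm f T'` (`xc_pm`, `yc_pm`), so `pm f T' = sm ℂ a (pm f T) = pm f (sm Kb a T)` (`pt_ext`: both points are not zero; `pm_sm`), `pm_inj`.
* `trp_unit`: `D' = D.map (σ : Kb →+* Kb)`, `D • EF Kb = D' • EF Kb` and `ρ` from `aut_short` exactly as in the proof of `trp_lin` (PG/TrpB.lean): `hR : ∀ S, S ≠ 0 → xc (φ S) = ρ ^ 2 * σ (xc S) ∧ yc (φ S) = ρ ^ 3 * σ (yc S)`. `aut_unit` for `T = ga σ S`, `T' = φ S` (`xc_gk`, `yc_gk`, `gk_ne`). For `S = 0`: `map_zero`.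
-/

set_option autoImplicit false

namespace Pool.Agent.Lib.MP_1a91b9_nuX.PG

open NumberField IsDedekindDomain WeierstrassCurve Pool.Agent.Lib.MP_1a91b9_nuT
open Pool.Agent.Lib.MP_1a91b9_nuX.DB Pool.Agent.Lib.MP_1a91b9_nuX.GL

universe u

variable [CD] [DecidableEq Kb]

omit [DecidableEq Kb] in
/-- units of the lattice from automorphisms of the curve -/
private theorem autu_mem {ρ : ℂ} (h0 : ρ ≠ 0) (hA : ρ ^ 4 * cA ℂ = cA ℂ)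
    (hB : ρ ^ 6 * cB ℂ = cB ℂ) :
    (∀ l ∈ PP.lattice, ρ * l ∈ PP.lattice) ∧ (∀ l ∈ PP.lattice, ρ⁻¹ * l ∈ PP.lattice) := by
  have h4 := pow_ne_zero 4 h0
  have h6 := pow_ne_zero 6 h0
  refine ⟨fun l hl => Per.stable_unit Per.CR.base h0 ?_ ?_ l hl,
    fun l hl => Per.stable_unit Per.CR.base (inv_ne_zero h0) ?_ ?_ l hl⟩
  · linear_combination (Om ^ 4) * hA
  · linear_combination (Om ^ 6) * hB
  · rw [inv_pow, ← div_eq_mul_inv, div_eq_iff h4]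
    linear_combination (-(Om ^ 4)) * hA
  · rw [inv_pow, ← div_eq_mul_inv, div_eq_iff h6]
    linear_combination (-(Om ^ 6)) * hB

omit [DecidableEq Kb] in
private theorem autu_XY {ρ : ℂ} (h0 : ρ ≠ 0) (hA : ρ ^ 4 * cA ℂ = cA ℂ)
    (hB : ρ ^ 6 * cB ℂ = cB ℂ) (z : ℂ) :
    S3.X (ρ⁻¹ * z) = ρ ^ 2 * S3.X z ∧ S3.Y (ρ⁻¹ * z) = ρ ^ 3 * S3.Y z := by
  obtain ⟨hm1, hm2⟩ := autu_mem h0 hA hB
  have hm3 : ∀ l ∈ PP.lattice, (ρ⁻¹)⁻¹ * l ∈ PP.lattice := by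
    intro l hl
    rw [inv_inv]
    exact hm1 l hl
  constructor
  · rw [S3.X, S3.X, Per.P_unit hm2 hm3 (inv_ne_zero h0), inv_pow, div_inv_eq_mul]
    ring
  · rw [S3.Y, S3.Y, Per.Q_unit hm2 hm3 (inv_ne_zero h0), inv_pow, div_inv_eq_mul]
    ring

omit [DecidableEq Kb] in
/-- the case of the complex numbers -/
private theorem autu_C [DecidableEq ℂ] {ρ : ℂ} (h0 : ρ ≠ 0) (hA : ρ ^ 4 * cA ℂ = cA ℂ)
    (hB : ρ ^ 6 * cB ℂ = cB ℂ) : ∃ ζ : (𝓞 K)ˣ, ∀ T T' : Pt ℂ, T ≠ 0 → T' ≠ 0 →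
      xc T' = ρ ^ 2 * xc T → yc T' = ρ ^ 3 * yc T → T' = sm ℂ (ζ : 𝓞 K) T := by
  obtain ⟨u, hu, hu0, huX, hus⟩ := exists_uni
  obtain ⟨hm1, hm2⟩ := autu_mem h0 hA hB
  have h1 := hm1 1 S3.one_mem
  have h2 := hm2 1 S3.one_mem
  rw [mul_one] at h1 h2
  obtain ⟨b, hb⟩ := S3.mem_PP_iff.1 h1
  obtain ⟨a, ha⟩ := S3.mem_PP_iff.1 h2
  have hab : a * b = 1 := by
    have h4 : ((a * b : 𝓞 K) : K) = (a : K) * (b : K) := map_mul (algebraMap (𝓞 K) K) a b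
    have h5 : ((1 : 𝓞 K) : K) = 1 := map_one (algebraMap (𝓞 K) K)
    have h3 : embK ((a * b : 𝓞 K) : K) = embK ((1 : 𝓞 K) : K) := by
      rw [h4, h5, map_mul, ha, hb, map_one, inv_mul_cancel₀ h0]
    exact RingOfIntegers.ext (embK.injective h3)
  have hba : b * a = 1 := by rw [mul_comm]; exact hab
  refine ⟨⟨a, b, hab, hba⟩, ?_⟩
  intro T T' hT hT' hx hy
  obtain ⟨z, rfl⟩ := hu T
  have hz : z ∉ PP.lattice := fun h => hT ((hu0 z).2 h)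
  have hz2 : ρ⁻¹ * z ∉ PP.lattice := by
    intro h
    have h3 := hm1 _ h
    rw [mul_inv_cancel_left₀ h0] at h3
    exact hz h3
  have e0 : sm ℂ (((⟨a, b, hab, hba⟩ : (𝓞 K)ˣ)) : 𝓞 K) (u z) = u (ρ⁻¹ * z) := by
    show sm ℂ a (u z) = u (ρ⁻¹ * z)
    rw [← hus, ha]
  rw [e0]
  obtain ⟨e1, e2⟩ := huX z hz
  obtain ⟨e3, e4⟩ := huX _ hz2
  obtain ⟨e5, e6⟩ := autu_XY h0 hA hB z
  refine pt_ext hT' (fun h => hz2 ((hu0 _).1 h)) ?_ ?_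
  · rw [hx, e1, e3, e5]
  · rw [hy, e2, e4, e6]
    ring

/-- an automorphism of the curve is the multiplication by a unit -/
theorem aut_unit {ρ : Kb} (h0 : ρ ≠ 0) (hA : ρ ^ 4 * cA Kb = cA Kb)
    (hB : ρ ^ 6 * cB Kb = cB Kb) : ∃ ζ : (𝓞 K)ˣ, ∀ T T' : Pt Kb, T ≠ 0 → T' ≠ 0 →
      xc T' = ρ ^ 2 * xc T → yc T' = ρ ^ 3 * yc T → T' = sm Kb (ζ : 𝓞 K) T := by
  classical
  let f : Kb →ₐ[K] ℂ := IsAlgClosed.lift
  have hfi : Function.Injective f := f.toRingHom.injective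
  have hA' : (f ρ) ^ 4 * cA ℂ = cA ℂ := by
    have h1 := congrArg f hA
    rwa [map_mul, map_pow, map_intCast] at h1
  have hB' : (f ρ) ^ 6 * cB ℂ = cB ℂ := by
    have h1 := congrArg f hB
    rwa [map_mul, map_pow, map_intCast] at h1
  have h0' : f ρ ≠ 0 := fun h => h0 (hfi (h.trans (map_zero f).symm))
  have hne : ∀ {P : Pt Kb}, P ≠ 0 → pm f P ≠ 0 := fun {P} hP h =>
    hP (pm_inj f (h.trans (map_zero _).symm))
  obtain ⟨ζ, hζ⟩ := autu_C h0' hA' hB'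
  refine ⟨ζ, fun T T' hT hT' hx hy => pm_inj f ?_⟩
  rw [pm_sm]
  exact hζ _ _ (hne hT) (hne hT') (by rw [xc_pm, xc_pm, hx, map_mul, map_pow])
    (by rw [yc_pm, yc_pm, hy, map_mul, map_pow])

omit [DecidableEq Kb] in
private theorem autu_EF : EF Kb = E Kb := by
  refine WeierstrassCurve.ext ?_ ?_ ?_ ?_ ?_
  · exact map_zero (algebraMap K Kb)
  · exact map_zero (algebraMap K Kb)
  · exact map_zero (algebraMap K Kb)
  · exact map_intCast (algebraMap K Kb) _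
  · exact map_intCast (algebraMap K Kb) _

omit [DecidableEq Kb] in
private theorem autu_map (f : Kb →+* Kb) : (EF Kb).map f = EF Kb := by
  rw [autu_EF]
  refine WeierstrassCurve.ext ?_ ?_ ?_ ?_ ?_
  · exact map_zero f
  · exact map_zero f
  · exact map_zero f
  · exact map_intCast f _
  · exact map_intCast f _

variable {F : Type u} [Field F] [NumberField F] [Algebra K F] [Algebra F Kb]
  [IsScalarTower K F Kb] {W : WeierstrassCurve F} {D : VariableChange Kb}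
  (hD : D • EF Kb = W.map (algebraMap F Kb))
include hD

/-- the transport of an automorphism differs from its action on the points of the curve by a unit -/
theorem trp_unit {σ : Kb ≃ₐ[F] Kb} {φ : Pt Kb →+ Pt Kb} (h : Trp D σ φ) :
    ∃ ζ : (𝓞 K)ˣ, ∀ T : Pt Kb, φ T = sm Kb (ζ : 𝓞 K) (ga σ T) := by
  obtain ⟨τ, hτ⟩ : ∃ τ : Kb ≃+* Kb, ∀ x, τ x = σ x := ⟨(σ : Kb ≃+* Kb), fun _ => rfl⟩
  obtain ⟨D', hD'⟩ : ∃ D' : VariableChange Kb, D' = D.map (τ : Kb →+* Kb) := ⟨_, rfl⟩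
  have h1 : D • EF Kb = D' • EF Kb := by
    have e1 : D' • EF Kb = (D • EF Kb).map (τ : Kb →+* Kb) := by
      rw [hD']
      conv_lhs => rw [← autu_map (τ : Kb →+* Kb)]
      exact WeierstrassCurve.map_variableChange _ _ _
    rw [e1, hD, WeierstrassCurve.map_map]
    congr 1
    refine RingHom.ext fun x => ?_
    show algebraMap F Kb x = τ (algebraMap F Kb x)
    rw [hτ, σ.commutes]
  obtain ⟨ρ, hρ, hA, hB, hρ2⟩ := aut_short h1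
  have hu : (D'.u : Kb) = σ (D.u : Kb) := by
    rw [hD', ← hτ]
    rfl
  have hr : D'.r = σ D.r := by
    rw [hD', ← hτ]
    rfl
  have hs : D'.s = σ D.s := by
    rw [hD', ← hτ]
    rfl
  have ht : D'.t = σ D.t := by
    rw [hD', ← hτ]
    rfl
  have hR : ∀ S : Pt Kb, S ≠ 0 → xc (φ S) = ρ ^ 2 * xc (ga σ S) ∧
      yc (φ S) = ρ ^ 3 * yc (ga σ S) := by
    intro S hS
    obtain ⟨-, g2, g3⟩ := h S hS
    exact hρ2 (ga σ S) (φ S) (by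
      rw [g2, cx, cx, xc_gk, hu, hr, map_div₀, map_sub, map_pow]) (by
      rw [g3, cy, cy, xc_gk, yc_gk, hu, hr, hs, ht, map_div₀, map_sub, map_sub, map_mul,
        map_sub, map_pow])
  obtain ⟨ζ, hζ⟩ := aut_unit hρ hA hB
  refine ⟨ζ, fun T => ?_⟩
  rcases eq_or_ne T 0 with hT | hT
  · rw [hT, map_zero, map_zero, map_zero]
  · obtain ⟨k1, k2⟩ := hR T hT
    exact hζ (ga σ T) (φ T) (fun h2 => hT ((gk_ne σ).1 h2)) (h T hT).1 k1 k2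

end Pool.Agent.Lib.MP_1a91b9_nuX.PG
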