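import Pool.Agent.Lib.MP_1a91b9_nuX.GL.LocA

/-!
# Automorphisms over a field which does not contain `K`

`F = N K` is quadratic over `N`.

PROOFS. (copy the corresponding parts of the private theorem `locc_main` of GL/LocC.lean: `hσ'`, `hσL`, `htw`, `htk`.)
* `semi_all`: `exists_coords a : a = m + n ta`, both sides computed with `map_add`, `map_mul`, `map_intCast` (see `hσ'` there).
* `semi_sq`: `gen_L h2 hn x : x = a + b ta`, `σ.commutes`, `semi_all`, `cj_cj` (see `hσL` there).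
* `semi_of`: `ta_or ((σ : Kb →ₐ[N] Kb) : Kb →+* Kb)`: in the first case (`σ ta = ta`) `σ` fixes the image of `F` (`gen_L`, see `hfix` there), so `σ₀ x = x` for all `x` (injectivity of `algebraMap F Kb`), `σ₀ = 1`: contradiction.
* `exists_tau`: `h2` makes `F / N` quadratic, Galois (`Algebra.IsQuadraticExtension N F := ⟨h2⟩`, `IsGalois N F` by `inferInstance`, see `ram_f'` in GL/LocA.lean). `Kb` is algebraic over `N` and normal (`Algebra.IsAlgebraic N Kb` is given; `Normal N Kb`: `IsAlgClosure`, see the beginning of `in_lift` in GL/AbsL.lean).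
  `τ = σ₀.liftNormal Kb` (`AlgEquiv.liftNormal`, `AlgEquiv.liftNormal_commutes`).
* `semi_map`: for `x : F`: `τ (algebraMap F Kb x)` is again in the image of `F`: `gen_L`, `semi_all`: `τ (a + b ta) = a + b (cj ta)`.
-/

set_option autoImplicit false

namespace Pool.Agent.Lib.MP_1a91b9_nuX.PG

open NumberField IsDedekindDomain WeierstrassCurve Pool.Agent.Lib.MP_1a91b9_nuT
open Pool.Agent.Lib.MP_1a91b9_nuX.DB Pool.Agent.Lib.MP_1a91b9_nuX.GL

universe u

variable [CD] {N F : Type u} [Field N] [NumberField N] [Field F] [NumberField F]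
  [Algebra K F] [Algebra N F] [Algebra F Kb] [Algebra N Kb] [IsScalarTower K F Kb]
  [IsScalarTower N F Kb]

omit [NumberField N] in
theorem semi_all {σ : Kb ≃ₐ[N] Kb}
    (h : σ (algebraMap K Kb (ta : K)) = algebraMap K Kb ((cj (ta : 𝓞 K) : 𝓞 K) : K)) (a : 𝓞 K) :
    σ (algebraMap K Kb (a : K)) = algebraMap K Kb ((cj a : 𝓞 K) : K) := by
  obtain ⟨m, n, rfl⟩ := exists_coords a
  have e1 : algebraMap K Kb (((m : 𝓞 K) + (n : 𝓞 K) * ta : 𝓞 K) : K) =
      (m : Kb) + (n : Kb) * algebraMap K Kb (ta : K) := by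
    change algebraMap K Kb (algebraMap (𝓞 K) K ((m : 𝓞 K) + (n : 𝓞 K) * ta)) = _
    rw [map_add, map_mul, map_intCast, map_intCast, map_add, map_mul, map_intCast, map_intCast]
  have e2 : algebraMap K Kb ((cj ((m : 𝓞 K) + (n : 𝓞 K) * ta) : 𝓞 K) : K) =
      (m : Kb) + (n : Kb) * algebraMap K Kb ((cj (ta : 𝓞 K) : 𝓞 K) : K) := by
    rw [map_add, map_mul, map_intCast, map_intCast]
    change algebraMap K Kb (algebraMap (𝓞 K) K ((m : 𝓞 K) + (n : 𝓞 K) * cj ta)) = _
    rw [map_add, map_mul, map_intCast, map_intCast, map_add, map_mul, map_intCast, map_intCast]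
  rw [e1, e2, map_add, map_mul, map_intCast, map_intCast, h]

section
variable (h2 : Module.finrank N F = 2) (hn : ∀ x : N, algebraMap N F x ≠ algebraMap K F (ta : K))
include h2 hn

private theorem semn_gen (x : F) : ∃ a b : N, x = algebraMap N F a + algebraMap N F b *
    algebraMap K F (ta : K) ∧ algebraMap F Kb x = algebraMap N Kb a + algebraMap N Kb b *
    algebraMap K Kb (ta : K) := by
  obtain ⟨a, b, h⟩ := gen_L h2 hn x
  refine ⟨a, b, h, ?_⟩
  have htw : ∀ x : N, algebraMap F Kb (algebraMap N F x) = algebraMap N Kb x := fun x =>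
    (IsScalarTower.algebraMap_apply N F Kb x).symm
  have htk : ∀ x : K, algebraMap F Kb (algebraMap K F x) = algebraMap K Kb x := fun x =>
    (IsScalarTower.algebraMap_apply K F Kb x).symm
  rw [h, map_add, map_mul, htw, htw, htk]

theorem semi_sq {σ : Kb ≃ₐ[N] Kb}
    (h : σ (algebraMap K Kb (ta : K)) = algebraMap K Kb ((cj (ta : 𝓞 K) : 𝓞 K) : K)) (x : F) :
    σ (σ (algebraMap F Kb x)) = algebraMap F Kb x := by
  obtain ⟨a, b, -, e⟩ := semn_gen h2 hn x
  rw [e, map_add, map_mul, σ.commutes, σ.commutes, semi_all h, map_add, map_mul, σ.commutes,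
    σ.commutes, semi_all h, cj_cj]

theorem semi_map {σ : Kb ≃ₐ[N] Kb}
    (h : σ (algebraMap K Kb (ta : K)) = algebraMap K Kb ((cj (ta : 𝓞 K) : 𝓞 K) : K)) (x : F) :
    ∃ y : F, σ (algebraMap F Kb x) = algebraMap F Kb y := by
  obtain ⟨a, b, -, e⟩ := semn_gen h2 hn x
  have htw : ∀ x : N, algebraMap F Kb (algebraMap N F x) = algebraMap N Kb x := fun x =>
    (IsScalarTower.algebraMap_apply N F Kb x).symm
  have htk : ∀ x : K, algebraMap F Kb (algebraMap K F x) = algebraMap K Kb x := fun x =>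
    (IsScalarTower.algebraMap_apply K F Kb x).symm
  refine ⟨algebraMap N F a + algebraMap N F b * algebraMap K F ((cj (ta : 𝓞 K) : 𝓞 K) : K), ?_⟩
  rw [e, map_add, map_mul, σ.commutes, σ.commutes, h, map_add, map_mul, htw, htw, htk]

theorem semi_of {σ₀ : Gal(F/N)} (h0 : σ₀ ≠ 1) {σ : Kb ≃ₐ[N] Kb}
    (hσ : ∀ x : F, σ (algebraMap F Kb x) = algebraMap F Kb (σ₀ x)) :
    σ (algebraMap K Kb (ta : K)) = algebraMap K Kb ((cj (ta : 𝓞 K) : 𝓞 K) : K) := by
  rcases ta_or ((σ : Kb →ₐ[N] Kb) : Kb →+* Kb) with h | h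
  · exfalso
    have h' : σ (algebraMap K Kb (ta : K)) = algebraMap K Kb (ta : K) := h
    apply h0
    refine AlgEquiv.ext fun x => ?_
    apply (algebraMap F Kb).injective
    rw [← hσ, AlgEquiv.one_apply]
    obtain ⟨a, b, -, e⟩ := semn_gen h2 hn x
    rw [e, map_add, map_mul, σ.commutes, σ.commutes, h']
  · exact h

end

theorem exists_tau [Algebra.IsAlgebraic N Kb] [IsGalois N F] (σ₀ : Gal(F/N)) :
    ∃ τ : Kb ≃ₐ[N] Kb, ∀ x : F, τ (algebraMap F Kb x) = algebraMap F Kb (σ₀ x) := by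
  have : IsAlgClosure N Kb := ⟨inferInstance, inferInstance⟩
  have : Normal N Kb := IsAlgClosure.normal N Kb
  exact ⟨σ₀.liftNormal Kb, fun x => σ₀.liftNormal_commutes Kb x⟩

end Pool.Agent.Lib.MP_1a91b9_nuX.PG
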