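import Pool.Agent.Lib.MP_1a91b9_nuX.PG.Frw
import Pool.Agent.Lib.MP_1a91b9_nuX.PG.SemN

/-!
# The values of the character at conjugate places

PROOF of `frv_conj`. `F / N` is quadratic, Galois (`Algebra.IsQuadraticExtension N F := ⟨h2⟩`, `IsGalois N F` by `inferInstance`). There is `σ₀ : Gal(F/N)` with `σ₀ • w.asIdeal = w'.asIdeal` (transitivity: `Ideal.exists_map_eq_of_isGalois`, `Ideal.exists_smul_eq_of_comap_eq`, or `exists_smul`-like lemma; `w`, `w'` lie over the same prime of `𝓞 N`; see `GM`/`nuT` for uses), i.e. `x ∈ w.asIdeal ↔ σ₀ • x ∈ w'.asIdeal`.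
`σ₀ ≠ 1` because `w ≠ w'`. `τ` from `exists_tau σ₀` (PG/SemN.lean); `hs : ∀ a, τ a = cj a` (`semi_of h2 hn`, `semi_all`). Also `τ⁻¹` is semilinear (`semi_of` for `σ₀⁻¹`, or: `τ (cj a) = a`).
Let `V'`, `hV' : Abv w' V'`, `σ'` with `IsFr V' q σ'`, `q = N w'`, `φ'` its transport, `T'` in `Ta V'`. `V = V'.comap (τ : Kb →+* Kb)` (`ValuationSubring.comap`) or `Vt τ⁻¹ V'` (GL/ConjA.lean: `vt_le`, `vt_lt`): `V.valuation x ≤ 1 ↔ V'.valuation (τ x) ≤ 1`. `Abv w V`: for `x : F`: `V.valuation (algebraMap F Kb x) ≤ 1 ↔ V'.valuation (algebraMap F Kb (σ₀ x)) ≤ 1 ↔ w'.valuation F (σ₀ x) ≤ 1 ↔ w.valuation F x ≤ 1`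
(the last step: `σ₀` maps `w` to `w'`: `GM.val_gal`-like; or write `x = a / b` with `a, b : 𝓞 F`, `b ∉ w.asIdeal` if `w.valuation F x ≤ 1` (`IsDedekindDomain.exists_...`, see `conja_le` in GL/ConjA.lean for the same argument)).
`σ = τ⁻¹ * σ' * τ` as an automorphism over `F`: `σ x = τ.symm (σ' (τ x))`; it fixes `F` because `τ (algebraMap F Kb x) = algebraMap F Kb (σ₀ x)` is fixed by `σ'`. `IsFr V q σ`: `V (σ x - x ^ q) < 1 ↔ V' (τ (σ x - x ^ q)) < 1` (`vt_lt`) and `τ (σ x - x ^ q) = σ' (τ x) - (τ x) ^ q`. `N w = N w'`: (`Ideal.absNorm` of conjugate ideals; or `Ideal.absNorm_pow_inertiaDeg` and the equality of the residue degrees in a Galois extension; or: `absNorm (σ₀ • I) = absNorm I` by the isomorphism of the quotients).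
`R`, `R'` the transports of `τ`, `τ.symm` (`trp_exists hD`), `R (R' T) = T`, `R' (R T) = T` (`trp_inv`). `(R'.comp φ').comp R` is the transport of `σ` (`trp_comp` twice). `T = R' T'` is in `Ta V`: if `sm a T' = 0`, `V' a = 1` then `sm (cj a) (R' T') = R' (sm a T') = 0` (`trp_semi`) and `V (cj a) = V' (τ (cj a)) = V' a = 1` (equality of values: `V x = 1` iff `V x ≤ 1` and not `V x < 1`: `vt_le`, `vt_lt`).
`h V _ σ _ _ _ T _ : R' (φ' (R T)) = sm Kb ψ T`, with `R T = R (R' T') = T'`: `R' (φ' T') = sm ψ (R' T')`; apply `R`: `φ' T' = R (sm ψ (R' T')) = sm (cj ψ) (R (R' T')) = sm (cj ψ) T'` (`trp_semi`).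
-/

set_option autoImplicit false

namespace Pool.Agent.Lib.MP_1a91b9_nuX.PG

open NumberField IsDedekindDomain WeierstrassCurve Pool.Agent.Lib.MP_1a91b9_nuT
open Pool.Agent.Lib.MP_1a91b9_nuX.DB Pool.Agent.Lib.MP_1a91b9_nuX.GL

universe u

/-- the Galois group acts transitively on the places above a place -/
private theorem conw_ex {N F : Type*} [Field N] [NumberField N] [Field F] [NumberField F]
    [Algebra N F] [IsGalois N F] {w w' : HeightOneSpectrum (𝓞 F)}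
    (hww : w.under (𝓞 N) = w'.under (𝓞 N)) :
    ∃ σ : Gal(F/N), ∀ x : 𝓞 F, σ • x ∈ w'.asIdeal ↔ x ∈ w.asIdeal := by
  have h1 : w.asIdeal.IsPrime := w.isPrime
  have h2 : w'.asIdeal.IsPrime := w'.isPrime
  have h3 : w.asIdeal.LiesOver (w.under (𝓞 N)).asIdeal := ⟨rfl⟩
  have h4 : w'.asIdeal.LiesOver (w.under (𝓞 N)).asIdeal := ⟨by rw [hww]; rfl⟩
  obtain ⟨σ, hσ⟩ := Ideal.exists_smul_eq_of_isGaloisGroup (w.under (𝓞 N)).asIdeal w.asIdeal
    w'.asIdeal Gal(F/N)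
  refine ⟨σ, fun x => ?_⟩
  rw [← hσ]
  exact Ideal.smul_mem_pointwise_smul_iff

private theorem conw_le {N F : Type*} [Field N] [NumberField N] [Field F] [NumberField F]
    [Algebra N F] {w w' : HeightOneSpectrum (𝓞 F)} {σ : Gal(F/N)}
    (h : ∀ x : 𝓞 F, σ • x ∈ w'.asIdeal ↔ x ∈ w.asIdeal) {x : F} (hx : w.valuation F x ≤ 1) :
    w'.valuation F (σ x) ≤ 1 := by
  obtain ⟨n, d, hnd⟩ := w.exists_primeCompl_mul_eq_of_integer x hx
  have e1 : ∀ y : 𝓞 F, σ ((y : 𝓞 F) : F) = ((σ • y : 𝓞 F) : F) := fun y => rfl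
  have h1 : σ x * (((σ • (d : 𝓞 F) : 𝓞 F)) : F) = ((σ • n : 𝓞 F) : F) := by
    rw [← e1, ← e1, ← map_mul]
    exact congrArg σ hnd
  have h2 : w'.valuation F (((σ • (d : 𝓞 F) : 𝓞 F)) : F) = 1 := by
    have h3 : (σ • (d : 𝓞 F) : 𝓞 F) ∉ w'.asIdeal := fun h4 => d.2 ((h _).1 h4)
    exact (HeightOneSpectrum.valuation_eq_one_iff_notMem (K := F) w').2 h3
  have h5 : w'.valuation F ((σ • n : 𝓞 F) : F) ≤ 1 := w'.valuation_le_one _
  rwa [← h1, map_mul, h2, mul_one] at h5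

private theorem conw_val {N F : Type*} [Field N] [NumberField N] [Field F] [NumberField F]
    [Algebra N F] {w w' : HeightOneSpectrum (𝓞 F)} {σ : Gal(F/N)}
    (h : ∀ x : 𝓞 F, σ • x ∈ w'.asIdeal ↔ x ∈ w.asIdeal) (x : F) :
    w'.valuation F (σ x) ≤ 1 ↔ w.valuation F x ≤ 1 := by
  refine ⟨fun hx => ?_, fun hx => conw_le h hx⟩
  have h' : ∀ y : 𝓞 F, σ⁻¹ • y ∈ w.asIdeal ↔ y ∈ w'.asIdeal := by
    intro y
    rw [← h, smul_inv_smul]
  have h1 := conw_le h' hx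
  have e : (σ⁻¹ : Gal(F/N)) (σ x) = x := by
    have : ((σ⁻¹ * σ : Gal(F/N))) x = x := by
      rw [inv_mul_cancel]
      rfl
    exact this
  rwa [e] at h1

private theorem conw_norm {N F : Type*} [Field N] [NumberField N] [Field F] [NumberField F]
    [Algebra N F] {w w' : HeightOneSpectrum (𝓞 F)} {σ : Gal(F/N)}
    (h : ∀ x : 𝓞 F, σ • x ∈ w'.asIdeal ↔ x ∈ w.asIdeal) :
    Ideal.absNorm w.asIdeal = Ideal.absNorm w'.asIdeal := by
  have e : w'.asIdeal = w.asIdeal.map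
      (MulSemiringAction.toRingEquiv Gal(F/N) (𝓞 F) σ : 𝓞 F →+* 𝓞 F) := by
    have h1 : w.asIdeal.map (MulSemiringAction.toRingEquiv Gal(F/N) (𝓞 F) σ : 𝓞 F →+* 𝓞 F) =
        w.asIdeal.map (MulSemiringAction.toRingEquiv Gal(F/N) (𝓞 F) σ) := rfl
    rw [h1, ← Ideal.comap_symm]
    ext z
    rw [Ideal.mem_comap]
    change z ∈ w'.asIdeal ↔ σ⁻¹ • z ∈ w.asIdeal
    rw [← h, smul_inv_smul]
  rw [Ideal.absNorm_apply, Ideal.absNorm_apply, Submodule.cardQuot_apply, Submodule.cardQuot_apply]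
  exact Nat.card_congr (Ideal.quotientEquiv w.asIdeal w'.asIdeal
    (MulSemiringAction.toRingEquiv Gal(F/N) (𝓞 F) σ) e).toEquiv

variable [CD] [DecidableEq Kb] {N F : Type u} [Field N] [NumberField N] [Field F] [NumberField F]
  [Algebra K F] [Algebra N F] [Algebra F Kb] [Algebra N Kb] [IsScalarTower K F Kb]
  [IsScalarTower N F Kb] [Algebra.IsAlgebraic N Kb] {W : WeierstrassCurve N}
  {D : VariableChange Kb} (hD : D • EF Kb = W.map (algebraMap N Kb))
include hD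

/-- the value at the conjugate place is the conjugate of the value -/
theorem frv_conj (h2 : Module.finrank N F = 2)
    (hn : ∀ x : N, algebraMap N F x ≠ algebraMap K F (ta : K))
    {w w' : HeightOneSpectrum (𝓞 F)} (hww : w.under (𝓞 N) = w'.under (𝓞 N)) (hne : w ≠ w')
    {ψ : 𝓞 K} (h : FrV D w ψ) : FrV D w' (cj ψ) := by
  have hquad : Algebra.IsQuadraticExtension N F := ⟨h2⟩
  have hgal : IsGalois N F := inferInstance
  obtain ⟨σ₀, hσ₀⟩ := conw_ex hww
  have hne1 : σ₀ ≠ 1 := by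
    rintro rfl
    refine hne (HeightOneSpectrum.ext (Ideal.ext fun x => ?_))
    rw [← hσ₀ x, one_smul]
  obtain ⟨τ, hτ⟩ := exists_tau (F := F) σ₀
  have hs0 := semi_of h2 hn hne1 hτ
  have hs : ∀ a : 𝓞 K, τ (algebraMap K Kb (a : K)) = algebraMap K Kb ((cj a : 𝓞 K) : K) :=
    semi_all hs0
  have hs' : ∀ a : 𝓞 K, τ.symm (algebraMap K Kb (a : K)) =
      algebraMap K Kb ((cj a : 𝓞 K) : K) := by
    intro a
    rw [AlgEquiv.symm_apply_eq, hs, cj_cj]
  intro V' hV' σ' hσ' φ' hφ' T' hT'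
  obtain ⟨e, he⟩ : ∃ e : Kb ≃+* Kb, e = τ.symm.toRingEquiv := ⟨_, rfl⟩
  have heτ : ∀ y : Kb, e (τ y) = y := by
    intro y
    rw [he]
    exact τ.symm_apply_apply y
  have hle : ∀ y : Kb, (Vt e V').valuation y ≤ 1 ↔ V'.valuation (τ y) ≤ 1 := by
    intro y
    have h1 := vt_le e V' (τ y)
    rwa [heτ] at h1
  have hlt : ∀ y : Kb, (Vt e V').valuation y < 1 ↔ V'.valuation (τ y) < 1 := by
    intro y
    have h1 := vt_lt e V' (τ y)
    rwa [heτ] at h1
  have hV : Abv w (Vt e V') := by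
    intro x
    rw [hle, hτ, hV', conw_val hσ₀]
  have hc : ∀ x : F, ((τ.toRingEquiv.trans σ'.toRingEquiv).trans τ.symm.toRingEquiv)
      (algebraMap F Kb x) = algebraMap F Kb x := by
    intro x
    show τ.symm (σ' (τ (algebraMap F Kb x))) = algebraMap F Kb x
    rw [AlgEquiv.symm_apply_eq, hτ, AlgEquiv.commutes]
  let σ : Kb ≃ₐ[F] Kb := AlgEquiv.ofRingEquiv
    (f := (τ.toRingEquiv.trans σ'.toRingEquiv).trans τ.symm.toRingEquiv) hc
  have hσx : ∀ x : Kb, σ x = τ.symm (σ' (τ x)) := fun x => rfl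
  have hfr : IsFr (Vt e V') (Ideal.absNorm w.asIdeal) σ := by
    intro x hx
    rw [hlt, map_sub, map_pow, hσx, AlgEquiv.apply_symm_apply, conw_norm hσ₀]
    exact hσ' (τ x) ((hle x).1 hx)
  obtain ⟨R, hR⟩ := trp_exists hD τ
  obtain ⟨R', hR'⟩ := trp_exists hD τ.symm
  have hRR : ∀ X : Pt Kb, R (R' X) = X := trp_inv hR hR' fun x => τ.apply_symm_apply x
  have hc0 : Trp D (fun x => τ.symm (σ' x)) (R'.comp φ') := trp_comp hR' hφ'
  have hc2 : Trp D (fun x => τ.symm (σ' (τ x))) ((R'.comp φ').comp R) :=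
    trp_comp (σ := fun x => τ.symm (σ' x)) (τ := τ) hc0 hR
  have hc1 : Trp D σ ((R'.comp φ').comp R) := hc2
  have hTa : Ta (Vt e V').valuation (R' T') := by
    obtain ⟨a, ha, h0⟩ := hT'
    refine ⟨cj a, ?_, ?_⟩
    · have e1 : τ (algebraMap K Kb ((cj a : 𝓞 K) : K)) = algebraMap K Kb (a : K) := by
        rw [hs, cj_cj]
      have h1 := hle (algebraMap K Kb ((cj a : 𝓞 K) : K))
      have h3 := hlt (algebraMap K Kb ((cj a : 𝓞 K) : K))
      rw [e1, ha] at h1 h3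
      exact le_antisymm (h1.2 le_rfl) (not_lt.1 fun h5 => (lt_irrefl _ (h3.1 h5)))
    · rw [← trp_semi hD hR' hs' a T', h0, map_zero]
  have h1 := h (Vt e V') hV σ hfr _ hc1 (R' T') hTa
  have h3 : R' (φ' (R (R' T'))) = sm Kb ψ (R' T') := h1
  rw [hRR] at h3
  have h4 := congrArg (fun X => R X) h3
  change R (R' (φ' T')) = R (sm Kb ψ (R' T')) at h4
  rw [hRR, trp_semi hD hR hs, hRR] at h4
  exact h4

/-- the isomorphic curve at the conjugate place -/
theorem good_conj (h2 : Module.finrank N F = 2)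
    {w w' : HeightOneSpectrum (𝓞 F)} (hww : w.under (𝓞 N) = w'.under (𝓞 N))
    (h : ∃ C : VariableChange F, GM.GoodW (w.valuation F) (C • W.map (algebraMap N F))) :
    ∃ C : VariableChange F, GM.GoodW (w'.valuation F) (C • W.map (algebraMap N F)) := by
  classical
  have hquad : Algebra.IsQuadraticExtension N F := ⟨h2⟩
  have hgal : IsGalois N F := inferInstance
  obtain ⟨σ₀, hσ₀⟩ := conw_ex hww
  obtain ⟨C, hC⟩ := h
  obtain ⟨f, hf⟩ : ∃ f : F →+* F, f = (σ₀ : F →+* F) := ⟨_, rfl⟩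
  have hfx : ∀ x : F, f x = σ₀ x := by
    intro x
    rw [hf]
    rfl
  have e1 : (W.map (algebraMap N F)).map f = W.map (algebraMap N F) := by
    rw [WeierstrassCurve.map_map]
    congr 1
    refine RingHom.ext fun x => ?_
    show f (algebraMap N F x) = algebraMap N F x
    rw [hfx, AlgEquiv.commutes]
  have e2 : (C • W.map (algebraMap N F)).map f = C.map f • W.map (algebraMap N F) := by
    have h1 : C.map f • (W.map (algebraMap N F)).map f = (C • W.map (algebraMap N F)).map f :=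
      WeierstrassCurve.map_variableChange _ _ _
    rw [e1] at h1
    exact h1.symm
  have hval : ∀ x : F, w'.valuation F (f x) ≤ 1 ↔ w.valuation F x ≤ 1 := by
    intro x
    rw [hfx]
    exact conw_val hσ₀ x
  refine ⟨C.map f, ?_⟩
  rw [← e2]
  refine ⟨⟨(hval _).2 hC.a1, (hval _).2 hC.a2, (hval _).2 hC.a3, (hval _).2 hC.a4,
    (hval _).2 hC.a6⟩, ?_⟩
  rw [WeierstrassCurve.map_Δ]
  have h3 := hC.disc
  have h4 : (C • W.map (algebraMap N F)).Δ ≠ 0 := by
    intro h0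
    rw [h0, map_zero] at h3
    exact zero_ne_one h3
  have h5 : w'.valuation F (f (C • W.map (algebraMap N F)).Δ) ≤ 1 := (hval _).2 h3.le
  have h6 : w'.valuation F (f ((C • W.map (algebraMap N F)).Δ)⁻¹) ≤ 1 := by
    refine (hval _).2 ?_
    rw [map_inv₀, h3, inv_one]
  rw [map_inv₀, map_inv₀] at h6
  have h7 : w'.valuation F (f (C • W.map (algebraMap N F)).Δ) ≠ 0 := by
    rw [Ne, Valuation.zero_iff, map_eq_zero]
    exact h4
  refine le_antisymm h5 ?_
  exact (inv_le_one₀ (zero_lt_iff.2 h7)).1 h6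

end Pool.Agent.Lib.MP_1a91b9_nuX.PG
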