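import Pool.Agent.Lib.MP_1a91b9_nuX.PG.InrW
import Pool.Agent.Lib.MP_1a91b9_nuX.PG.SemN
import Pool.Agent.Lib.MP_1a91b9_nuX.GL.LocC

/-!
# The local factor of a curve over a field which does not contain `K`

PROOFS.
* `loc_splitW`: copy the proof of `loc_split'` (GL/LocA.lean), `good_v hf h2 hn W hW` is replaced by `hgood`.
* `loc_inertW`: copy the proof of the private theorem `locc_main` (GL/LocC.lean; copy also the private lemma `locc_card`). `V` above `w`, `Cv` from `hgood`, `W' = Cv • W`, `D' = Cv.map (algebraMap N Kb) * D`, `hD' = md_chg hD Cv : D' • EF Kb = (Cv • W).map (algebraMap N Kb)`. `FrV D' w ψ`: by `trp_chg` over `F`: `Trp D σ φ ↔ Trp D' σ φ` for `σ : Kb ≃ₐ[F] Kb`, with the change `Cv.map (algebraMap N F)` over `F`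
  (`(Cv.map (algebraMap N F)).map (algebraMap F Kb) = Cv.map (algebraMap N Kb)`: `VariableChange.map_map`, `IsScalarTower.algebraMap_eq`). `σ`, `hta` (`σ ta = cj ta`) as there; `hσ' = semi_all hta`, `hσL = semi_sq h2 hn hta` (PG/SemN.lean). `inr_coreW hD' hV hq hq2 hσ hσ' hσL hψ hfr' hCv`; `locPoly_good hV' W hCv`.
  In the end `ring`-like simplification as in `loc_inert'`/`locc_main`.
-/

set_option autoImplicit false

namespace Pool.Agent.Lib.MP_1a91b9_nuX.PG

open NumberField IsDedekindDomain WeierstrassCurve Pool.Agent.Lib.MP_1a91b9_nuT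
  Pool.Agent.Lib.MP_1a91b9_nt
open Pool.Agent.Lib.MP_1a91b9_nuX.DB Pool.Agent.Lib.MP_1a91b9_nuX.GL

universe u

private theorem locn_card {L : Type*} [Field L] [NumberField L] (w : HeightOneSpectrum (𝓞 L))
    {q : ℕ} (hq : 1 < q) (h : ∀ x : 𝓞 L, x - x ^ q ∈ w.asIdeal) :
    Ideal.absNorm w.asIdeal ≤ q := by
  classical
  have hp : w.asIdeal.IsPrime := w.isPrime
  have hmax : w.asIdeal.IsMaximal := w.isMaximal
  let _ : Field (𝓞 L ⧸ w.asIdeal) := Ideal.Quotient.field w.asIdeal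
  have hfin : Finite (𝓞 L ⧸ w.asIdeal) := by
    rw [← Ideal.absNorm_ne_zero_iff]
    exact fun h0 => w.ne_bot (Ideal.absNorm_eq_zero_iff.1 h0)
  have := Fintype.ofFinite (𝓞 L ⧸ w.asIdeal)
  have hne : (Polynomial.X ^ q - Polynomial.X : Polynomial (𝓞 L ⧸ w.asIdeal)) ≠ 0 :=
    FiniteField.X_pow_card_sub_X_ne_zero _ hq
  have h1 : ∀ y : 𝓞 L ⧸ w.asIdeal, y ^ q = y := by
    intro y
    obtain ⟨x, rfl⟩ := Ideal.Quotient.mk_surjective y
    rw [← map_pow]
    exact ((Ideal.Quotient.eq).2 (h x)).symm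
  have h2 : (Finset.univ : Finset (𝓞 L ⧸ w.asIdeal)).card ≤
      (Polynomial.X ^ q - Polynomial.X : Polynomial (𝓞 L ⧸ w.asIdeal)).natDegree := by
    apply Polynomial.card_le_degree_of_subset_roots
    intro y _
    rw [Polynomial.mem_roots hne, Polynomial.IsRoot.def, Polynomial.eval_sub,
      Polynomial.eval_pow, Polynomial.eval_X, h1, sub_self]
  rw [FiniteField.X_pow_card_sub_X_natDegree_eq _ hq, Finset.card_univ,
    ← Nat.card_eq_fintype_card] at h2
  rw [Ideal.absNorm_apply, Submodule.cardQuot_apply]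
  exact h2

theorem loc_splitW {N F : Type u} [Field N] [NumberField N] [Field F] [NumberField F]
    [Algebra N F] {w : HeightOneSpectrum (𝓞 F)} (W : WeierstrassCurve N)
    (hgood : ∃ C : VariableChange N, GM.GoodW ((w.under (𝓞 N)).valuation N) (C • W))
    (hi : w.asIdeal.inertiaDeg (𝓞 N) = 1) :
    locPoly W (w.under (𝓞 N)) = locPoly (W.map (algebraMap N F)) w := by
  classical
  obtain ⟨C, hC⟩ := hgood
  obtain ⟨V, hV⟩ := exists_abv (Ω := AlgebraicClosure F) w
  have hv : Abv (w.under (𝓞 N)) V := abv_res hV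
  have hC' : GM.GoodW (w.valuation F) (C.map (algebraMap N F) • W.map (algebraMap N F)) := by
    rw [WeierstrassCurve.map_variableChange]
    exact GM.good_map (fun x => GM.val_under w x) hC
  have h1 := (locPoly_good hv W hC).2
  have h3 := (locPoly_good hV (W.map (algebraMap N F)) hC').2
  have hN : Ideal.absNorm (w.under (𝓞 N)).asIdeal = Ideal.absNorm w.asIdeal := by
    have hm : (w.under (𝓞 N)).asIdeal.IsMaximal := (w.under (𝓞 N)).isMaximal
    have hm' : w.asIdeal.IsMaximal := w.isMaximal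
    have hl : w.asIdeal.LiesOver (w.under (𝓞 N)).asIdeal := ⟨rfl⟩
    have hrel : Ideal.relNorm (𝓞 N) w.asIdeal =
        (w.under (𝓞 N)).asIdeal ^ w.asIdeal.inertiaDeg (𝓞 N) :=
      Ideal.relNorm_eq_pow_of_isMaximal w.asIdeal (w.under (𝓞 N)).asIdeal
    rw [← Ideal.absNorm_relNorm (𝓞 N) (𝓞 F) w.asIdeal, hrel, hi, pow_one]
  have e : (C.map (algebraMap N F) • W.map (algebraMap N F)).map
      (algebraMap F (AlgebraicClosure F)) =
      (C • W).map (algebraMap N (AlgebraicClosure F)) := by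
    rw [WeierstrassCurve.map_variableChange, WeierstrassCurve.map_map,
      ← IsScalarTower.algebraMap_eq]
  rw [h1, h3, e, hN]

variable [CD] [DecidableEq Kb] {N F : Type u} [Field N] [NumberField N] [Field F] [NumberField F]
  [Algebra K F] [Algebra N F] [Algebra F Kb] [Algebra N Kb] [IsScalarTower K F Kb]
  [IsScalarTower N F Kb] [Algebra.IsAlgebraic N Kb] {W : WeierstrassCurve N}
  {D : VariableChange Kb} (hD : D • EF Kb = W.map (algebraMap N Kb))
  {w : HeightOneSpectrum (𝓞 F)}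

include hD in
theorem loc_inertW (h2 : Module.finrank N F = 2)
    (hn : ∀ x : N, algebraMap N F x ≠ algebraMap K F (ta : K))
    (hgood : ∃ C : VariableChange N, GM.GoodW ((w.under (𝓞 N)).valuation N) (C • W))
    (hi : w.asIdeal.inertiaDeg (𝓞 N) = 2) {ψ : 𝓞 K}
    (hψ : Ideal.span {ψ} = Ideal.relNorm (𝓞 K) w.asIdeal) (hfr : FrV D w ψ) :
    locPoly W (w.under (𝓞 N)) = 1 + Polynomial.C (Ideal.absNorm (w.under (𝓞 N)).asIdeal : ℤ) *
        Polynomial.X ^ 2 ∧ ψ = -(Ideal.absNorm (w.under (𝓞 N)).asIdeal : 𝓞 K) := by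
  obtain ⟨V, hV⟩ := exists_abv (Ω := Kb) w
  have hV' : Abv (w.under (𝓞 N)) V := abv_res hV
  obtain ⟨Cv, hCv⟩ := hgood
  obtain ⟨D', hDe⟩ : ∃ D', D' = Cv.map (algebraMap N Kb) * D := ⟨_, rfl⟩
  have hD' : D' • EF Kb = (Cv • W).map (algebraMap N Kb) := by
    rw [hDe]
    exact md_chg hD Cv
  have hDF : D' = (Cv.map (algebraMap N F)).map (algebraMap F Kb) * D := by
    rw [hDe, VariableChange.map_map, ← IsScalarTower.algebraMap_eq]
  have hfr' : FrV D' w ψ := by
    intro V hV σ hσ φ hφ T hT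
    rw [hDF] at hφ
    exact hfr V hV σ hσ φ ((trp_chg (Cv.map (algebraMap N F)) σ).2 hφ) T hT
  obtain ⟨q, hq⟩ : ∃ q, Ideal.absNorm (w.under (𝓞 N)).asIdeal = q := ⟨_, rfl⟩
  have hq2 : Ideal.absNorm w.asIdeal = q ^ 2 := by
    have hp : w.asIdeal.IsPrime := w.isPrime
    have hl : w.asIdeal.LiesOver (w.under (𝓞 N)).asIdeal := ⟨rfl⟩
    rw [← hq, ← Ideal.absNorm_pow_inertiaDeg (w.under (𝓞 N)).asIdeal w.asIdeal, hi]
  have hq1 : 1 < q := by
    rw [← hq]
    have h0 : Ideal.absNorm (w.under (𝓞 N)).asIdeal ≠ 0 := fun h =>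
      (w.under (𝓞 N)).ne_bot (Ideal.absNorm_eq_zero_iff.1 h)
    have h1 : Ideal.absNorm (w.under (𝓞 N)).asIdeal ≠ 1 := fun h =>
      (w.under (𝓞 N)).isPrime.ne_top (Ideal.absNorm_eq_one_iff.1 h)
    omega
  obtain ⟨σ, hσ⟩ := exists_fr hV'
  rw [hq] at hσ
  have htw : ∀ x : N, algebraMap F Kb (algebraMap N F x) = algebraMap N Kb x := fun x =>
    (IsScalarTower.algebraMap_apply N F Kb x).symm
  have htk : ∀ x : K, algebraMap F Kb (algebraMap K F x) = algebraMap K Kb x := fun x =>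
    (IsScalarTower.algebraMap_apply K F Kb x).symm
  have hta : σ (algebraMap K Kb (ta : K)) = algebraMap K Kb ((cj (ta : 𝓞 K) : 𝓞 K) : K) := by
    rcases ta_or ((σ : Kb →ₐ[N] Kb) : Kb →+* Kb) with h | h
    · exfalso
      have h' : σ (algebraMap K Kb (ta : K)) = algebraMap K Kb (ta : K) := h
      have hfix : ∀ x : F, σ (algebraMap F Kb x) = algebraMap F Kb x := by
        intro x
        obtain ⟨a, b, rfl⟩ := gen_L h2 hn x
        rw [map_add, map_mul, htw, htw, htk, map_add, map_mul, σ.commutes, σ.commutes, h']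
      have hle := locn_card w hq1 fun x => by
        have h3 := hσ (algebraMap F Kb (x : F)) ((hV _).2 (w.valuation_le_one x))
        rw [hfix, ← map_pow, ← map_sub, abv_lt hV] at h3
        have e : (x : F) - (x : F) ^ q = ((x - x ^ q : 𝓞 F) : F) := by
          change _ = algebraMap (𝓞 F) F (x - x ^ q)
          rw [map_sub, map_pow]
        rw [e, GM.val_lt_mem] at h3
        exact h3
      rw [hq2] at hle
      nlinarith
    · exact h
  have hσ' : ∀ a : 𝓞 K, σ (algebraMap K Kb (a : K)) = algebraMap K Kb ((cj a : 𝓞 K) : K) :=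
    semi_all hta
  have hσL : ∀ x : F, σ (σ (algebraMap F Kb x)) = algebraMap F Kb x := semi_sq h2 hn hta
  obtain ⟨hc, hpsi⟩ := inr_coreW hD' hV hq hq2 hσ hσ' hσL hψ hfr' hCv
  obtain ⟨-, hloc⟩ := locPoly_good hV' W hCv
  rw [hq, hc] at hloc
  rw [hq]
  refine ⟨?_, hpsi⟩
  rw [hloc, sub_self, map_zero, zero_mul, sub_zero]

end Pool.Agent.Lib.MP_1a91b9_nuX.PG
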