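import Pool.Agent.Lib.MP_1a91b9_nuX.PG.RamN
import Pool.Agent.Lib.MP_1a91b9_nuX.PG.SemN
import Pool.Agent.Lib.MP_1a91b9_nuX.GL.AbsL

/-!
# The places of good reduction are unramified in `N K / N`

PROOFS.
* `ram_no`: `φ` from `trp_exists hD τ`, `semi : φ (sm Kb a T) = sm Kb (cj a) (φ T)` from `trp_semi hD hφ` (hypothesis `hs`). `l` prime, `5 ≤ l`, `V l = 1` (`exists_prime (abv_res hV : Abv (w.under (𝓞 K)) V) 5`). `R` with `Ord (l : 𝓞 K) R` (`exists_ord`, `(l : 𝓞 K) ≠ 0`): `l • R = 0` (`sm_nat`), so `R` is `Tr`, and `sm c R` too (`tr_hom`).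
  For `c : 𝓞 K`: `φ (sm c R) = sm (cj c) (φ R)` and (`ram_pm`) `φ (sm c R) = ± sm c R`, `φ R = ± R`, so `sm (cj c) R = sm c R` or `sm (cj c) R = sm (-c) R`, so `(l : 𝓞 K) ∣ cj c - c` or `(l : 𝓞 K) ∣ cj c + c` (`Ord.sm_eq_iff`, nuX/DB/Tor2.lean; `sm_neg`-like facts: `sm (-c) R = - sm c R` from `sm_sub` with `a = 0`, or use that `sm (cj c + c) R = 0` (`sm_add`) and the definition of `Ord`).
  `cj ta = tr - ta` (`cj_coords 0 1`, see `ram_f'` in GL/LocA.lean), so `cj (m + n ta) - (m + n ta) = n tr - 2 n ta` and `cj c + c = 2 m + n tr`. `(l : 𝓞 K)` divides `x + y ta` iff `l` divides `x` and `y` (`exists_coords` and the uniqueness of coordinates, see the proof of `exists_pt_prime` in GL/TrA.lean; look for the lemma on coordinates in nuT/Base.lean, nuT/Nrm.lean). `l` does not divide `2`.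
  `c = ta`: the first alternative is impossible, so `l ∣ tr`. `c = 1 + ta`: `l ∣ 2 + tr`, so `l ∣ 2`: contradiction.
* `ram_N`: copy the proof of `ram_f'` (GL/LocA.lean): it suffices that the inertia group of `w` in `Gal(F/N)` is trivial. If `σ₀ ≠ 1` is in the inertia group: `∀ x : 𝓞 F, σ₀ • x - x ∈ w.asIdeal` (definition of `Ideal.inertia`), `V` above `w` (`exists_abv (Ω := Kb) w`), `in_lift (k := N) hV : ∃ τ : Kb ≃ₐ[N] Kb, IsFr V 1 τ ∧ ∀ x : F, τ (algebraMap F Kb x) = algebraMap F Kb (σ₀ x)` (GL/AbsL.lean),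
  `semi_of h2 hn`, `semi_all`, `semi_sq` (PG/SemN.lean), `ram_no`.
-/

set_option autoImplicit false

namespace Pool.Agent.Lib.MP_1a91b9_nuX.PG

open NumberField IsDedekindDomain WeierstrassCurve Pool.Agent.Lib.MP_1a91b9_nuT
open Pool.Agent.Lib.MP_1a91b9_nuX.DB Pool.Agent.Lib.MP_1a91b9_nuX.GL

universe u

private theorem ramo_dvd [CD] {l : ℕ} {x y : ℤ}
    (h : (l : 𝓞 K) ∣ (x : 𝓞 K) + (y : 𝓞 K) * ta) : (l : ℤ) ∣ x ∧ (l : ℤ) ∣ y := by
  obtain ⟨d, hd⟩ := h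
  obtain ⟨m, n, rfl⟩ := exists_coords d
  have h1 : (x : 𝓞 K) + (y : 𝓞 K) * ta =
      (((l : ℤ) * m : ℤ) : 𝓞 K) + (((l : ℤ) * n : ℤ) : 𝓞 K) * ta := by
    push_cast
    linear_combination hd
  obtain ⟨h2, h3⟩ := coords_inj h1
  exact ⟨⟨m, h2⟩, ⟨n, h3⟩⟩

variable [CD] [DecidableEq Kb] {N F : Type u} [Field N] [NumberField N] [Field F] [NumberField F]
  [Algebra K F] [Algebra N F] [Algebra F Kb] [Algebra N Kb] [IsScalarTower K F Kb]
  [IsScalarTower N F Kb] {W : WeierstrassCurve N} {D : VariableChange Kb}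
  (hD : D • EF Kb = W.map (algebraMap N Kb)) {w : HeightOneSpectrum (𝓞 F)}
  (hg : ∃ C : VariableChange F, GM.GoodW (w.valuation F) (C • W.map (algebraMap N F)))
include hD hg

theorem ram_no {V : ValuationSubring Kb} (hV : Abv w V) {τ : Kb ≃ₐ[N] Kb} (hτ : IsFr V 1 τ)
    (hsq : ∀ x : F, τ (τ (algebraMap F Kb x)) = algebraMap F Kb x)
    (hs : ∀ a : 𝓞 K, τ (algebraMap K Kb (a : K)) = algebraMap K Kb ((cj a : 𝓞 K) : K)) :
    False := by
  obtain ⟨φ, hφ⟩ := trp_exists hD τ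
  have semi := trp_semi hD hφ hs
  obtain ⟨l, hl, h5, hv⟩ := exists_prime (abv_res (k := K) hV) 5
  have hl0 : (l : 𝓞 K) ≠ 0 := Nat.cast_ne_zero.2 hl.ne_zero
  obtain ⟨R, hR⟩ := exists_ord hl0
  have hlR : l • R = 0 := by
    rw [← sm_nat]
    exact (hR _).2 dvd_rfl
  have hTr : Tr V.valuation R := ⟨l, hv, hlR⟩
  have key : ∀ c : 𝓞 K, (l : 𝓞 K) ∣ cj c - c ∨ (l : 𝓞 K) ∣ cj c + c := by
    intro c
    have h1 := semi c R
    have h2 := ram_pm hD hV hg hτ hsq hφ hTr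
    have h3 := ram_pm hD hV hg hτ hsq hφ (tr_sm hTr c)
    rw [h1] at h3
    rcases h2 with h2 | h2 <;> rcases h3 with h3 | h3
    · rw [h2] at h3
      exact Or.inl ((hR.sm_eq_iff _ _).1 h3)
    · rw [h2] at h3
      refine Or.inr ((hR _).1 ?_)
      rw [sm_add, h3, neg_add_cancel]
    · rw [h2, map_neg] at h3
      refine Or.inr ((hR _).1 ?_)
      rw [sm_add, ← h3, add_neg_cancel]
    · rw [h2, map_neg] at h3
      exact Or.inl ((hR.sm_eq_iff _ _).1 (neg_inj.1 h3))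
  have hl2 : ¬ (l : ℤ) ∣ 2 := by
    intro h
    have h6 := Int.le_of_dvd (by norm_num) h
    omega
  have e1 := cj_coords 0 1
  have e2 := cj_coords 1 1
  have k1 : (l : ℤ) ∣ CD.tr := by
    rcases key (((0 : ℤ) : 𝓞 K) + ((1 : ℤ) : 𝓞 K) * ta) with h | h
    · exfalso
      have h6 : cj (((0 : ℤ) : 𝓞 K) + ((1 : ℤ) : 𝓞 K) * ta) -
          (((0 : ℤ) : 𝓞 K) + ((1 : ℤ) : 𝓞 K) * ta) =
          ((CD.tr : ℤ) : 𝓞 K) + ((-2 : ℤ) : 𝓞 K) * ta := by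
        rw [e1]
        push_cast
        ring
      rw [h6] at h
      exact hl2 ((dvd_neg.1 (ramo_dvd h).2))
    · have h6 : cj (((0 : ℤ) : 𝓞 K) + ((1 : ℤ) : 𝓞 K) * ta) +
          (((0 : ℤ) : 𝓞 K) + ((1 : ℤ) : 𝓞 K) * ta) =
          ((CD.tr : ℤ) : 𝓞 K) + ((0 : ℤ) : 𝓞 K) * ta := by
        rw [e1]
        push_cast
        ring
      rw [h6] at h
      exact (ramo_dvd h).1
  rcases key (((1 : ℤ) : 𝓞 K) + ((1 : ℤ) : 𝓞 K) * ta) with h | h
  · have h6 : cj (((1 : ℤ) : 𝓞 K) + ((1 : ℤ) : 𝓞 K) * ta) -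
        (((1 : ℤ) : 𝓞 K) + ((1 : ℤ) : 𝓞 K) * ta) =
        ((CD.tr : ℤ) : 𝓞 K) + ((-2 : ℤ) : 𝓞 K) * ta := by
      rw [e2]
      push_cast
      ring
    rw [h6] at h
    exact hl2 ((dvd_neg.1 (ramo_dvd h).2))
  · have h6 : cj (((1 : ℤ) : 𝓞 K) + ((1 : ℤ) : 𝓞 K) * ta) +
        (((1 : ℤ) : 𝓞 K) + ((1 : ℤ) : 𝓞 K) * ta) =
        ((2 + CD.tr : ℤ) : 𝓞 K) + ((0 : ℤ) : 𝓞 K) * ta := by
      rw [e2]
      push_cast
      ring
    rw [h6] at h
    exact hl2 ((dvd_add_left k1).1 (ramo_dvd h).1)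

theorem ram_N (h2 : Module.finrank N F = 2)
    (hn : ∀ x : N, algebraMap N F x ≠ algebraMap K F (ta : K)) :
    w.asIdeal.ramificationIdx (𝓞 N) = 1 := by
  have hquad : Algebra.IsQuadraticExtension N F := ⟨h2⟩
  have hgal : IsGalois N F := inferInstance
  have hp : w.asIdeal.IsPrime := w.isPrime
  have hfin1 : Finite (𝓞 N ⧸ w.asIdeal.under (𝓞 N)) :=
    Ideal.finiteQuotientOfFreeOfNeBot _ (w.under (𝓞 N)).ne_bot
  have hA1 : Algebra.IsAlgebraic F Kb := Algebra.IsAlgebraic.tower_top (K := K) F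
  have hA2 : Algebra.IsAlgebraic N Kb := Algebra.IsAlgebraic.trans N F Kb
  have h1 := Ideal.card_inertia_eq_ramificationIdxIn (G := Gal(F/N)) (w.asIdeal.under (𝓞 N))
    w.asIdeal
  rw [Ideal.ramificationIdxIn_eq_ramificationIdx _ w.asIdeal Gal(F/N)] at h1
  have h3 : w.asIdeal.inertia Gal(F/N) = ⊥ := by
    rw [eq_bot_iff]
    intro σ hσ
    rw [Subgroup.mem_bot]
    by_contra hne
    obtain ⟨V, hV⟩ := exists_abv (Ω := Kb) w
    obtain ⟨τ, hτ, hτx⟩ := in_lift (k := N) hV (σ := σ) hσ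
    have h4 := semi_of h2 hn hne hτx
    exact ram_no hD hg hV hτ (semi_sq h2 hn h4) (semi_all h4)
  rw [← h1, h3]
  exact Subgroup.card_bot

end Pool.Agent.Lib.MP_1a91b9_nuX.PG
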