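import Pool.Agent.Lib.MP_1a91b9_nuX.PG.Defs
import Pool.Agent.Lib.MP_1a91b9_nuX.PG.RamO
import Pool.Agent.Lib.MP_1a91b9_nuX.PG.ConW
import Pool.Agent.Lib.MP_1a91b9_nuX.PG.LocN
import Pool.Agent.Lib.MP_1a91b9_nuX.LF.EulN

/-!
# The Euler factors over a field which does not contain `K`

There is a place `w₀` of `F` above `v`. If `W` has bad reduction at `w₀`, then it has bad reduction at all the places above `v` (they are conjugate) and at `v`, and both sides are equal to `1`. If `W` has good reduction at `w₀`, then `F / N` is unramified at `w₀`, so `W` has good reduction at `v`, and either there are two places above `v` of residue degree one (and the values of the character at these places are conjugate), or one place of residue degree two.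
-/

set_option autoImplicit false

namespace Pool.Agent.Lib.MP_1a91b9_nuX.PG

open NumberField IsDedekindDomain WeierstrassCurve Pool.Agent.Lib.MP_1a91b9_nuT
  Pool.Agent.Lib.MP_1a91b9_nt
open Pool.Agent.Lib.MP_1a91b9_nuX.DB Pool.Agent.Lib.MP_1a91b9_nuX.GL

universe u

/-- the unramified places in a quadratic extension -/
private theorem eulw_case {N F : Type u} [Field N] [NumberField N] [Field F] [NumberField F]
    [Algebra N F] [DecidableEq (HeightOneSpectrum (𝓞 F))] (h2 : Module.finrank N F = 2)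
    {v : HeightOneSpectrum (𝓞 N)} {w₀ : HeightOneSpectrum (𝓞 F)} (hw₀ : w₀.under (𝓞 N) = v)
    (he : w₀.asIdeal.ramificationIdx (𝓞 N) = 1) {s : Finset (HeightOneSpectrum (𝓞 F))}
    (hs : ∀ w : HeightOneSpectrum (𝓞 F), w ∈ s ↔ w.under (𝓞 N) = v) :
    (s = {w₀} ∧ w₀.asIdeal.inertiaDeg (𝓞 N) = 2) ∨
      ∃ w₁ : HeightOneSpectrum (𝓞 F), w₀ ≠ w₁ ∧ s = {w₀, w₁} ∧
        w₀.asIdeal.inertiaDeg (𝓞 N) = 1 ∧ w₁.asIdeal.inertiaDeg (𝓞 N) = 1 := by
  classical
  have hquad : Algebra.IsQuadraticExtension N F := ⟨h2⟩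
  have hgal : IsGalois N F := { }
  have hcard : Nat.card Gal(F/N) = 2 := by
    rw [IsGalois.card_aut_eq_finrank, h2]
  have hvp : v.asIdeal.IsPrime := v.isPrime
  have hvm : v.asIdeal.IsMaximal := v.isMaximal
  have hun : ∀ w : HeightOneSpectrum (𝓞 F), w ∈ s → w.asIdeal.LiesOver v.asIdeal := by
    intro w hw
    have h := (hs w).1 hw
    exact ⟨by rw [← h]; rfl⟩
  have hmem : w₀ ∈ s := (hs w₀).2 hw₀
  have i0p : w₀.asIdeal.IsPrime := w₀.isPrime
  have i0 : w₀.asIdeal.LiesOver v.asIdeal := hun w₀ hmem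
  have hfund := Ideal.ncard_primesOver_mul_ramificationIdxIn_mul_inertiaDegIn v.asIdeal (𝓞 F)
    Gal(F/N)
  have hsc : (v.asIdeal.primesOver (𝓞 F)).ncard = s.card := by
    have h1 : v.asIdeal.primesOver (𝓞 F) =
        ((s.image fun w : HeightOneSpectrum (𝓞 F) => w.asIdeal : Finset (Ideal (𝓞 F))) :
          Set (Ideal (𝓞 F))) := by
      ext P
      constructor
      · rintro ⟨hP1, hP2⟩
        have hb : P ≠ ⊥ := by
          intro hb
          apply v.ne_bot
          rw [hP2.over, hb]
          exact Ideal.comap_bot_of_injective _ (FaithfulSMul.algebraMap_injective (𝓞 N) (𝓞 F))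
        rw [Finset.mem_coe, Finset.mem_image]
        refine ⟨⟨P, hP1, hb⟩, (hs _).2 ?_, rfl⟩
        apply HeightOneSpectrum.ext
        exact hP2.over.symm
      · intro h
        rw [Finset.mem_coe, Finset.mem_image] at h
        obtain ⟨w, hw, rfl⟩ := h
        exact ⟨w.isPrime, hun w hw⟩
    rw [h1, Set.ncard_coe_finset, Finset.card_image_of_injective]
    intro a b hab
    exact HeightOneSpectrum.ext hab
  rw [hcard, Ideal.ramificationIdxIn_eq_ramificationIdx v.asIdeal w₀.asIdeal Gal(F/N), he,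
    one_mul, hsc] at hfund
  have hdeg : ∀ w ∈ s, w.asIdeal.inertiaDeg (𝓞 N) = v.asIdeal.inertiaDegIn (𝓞 F) := by
    intro w hw
    have i1 : w.asIdeal.IsPrime := w.isPrime
    have i2 : w.asIdeal.LiesOver v.asIdeal := hun w hw
    exact (Ideal.inertiaDegIn_eq_inertiaDeg v.asIdeal w.asIdeal Gal(F/N)).symm
  have h1 : s.card ∣ 2 := ⟨_, hfund.symm⟩
  rcases (Nat.dvd_prime Nat.prime_two).1 h1 with h3 | h3
  · left
    rw [h3, one_mul] at hfund
    refine ⟨?_, ?_⟩
    · obtain ⟨a, ha⟩ := Finset.card_eq_one.1 h3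
      rw [ha, Finset.mem_singleton] at hmem
      rw [ha, hmem]
    · rw [hdeg w₀ hmem, hfund]
  · right
    rw [h3] at hfund
    have h4 : v.asIdeal.inertiaDegIn (𝓞 F) = 1 := by omega
    obtain ⟨a, b, hab, ha⟩ := Finset.card_eq_two.1 h3
    have hd : ∀ w ∈ s, w.asIdeal.inertiaDeg (𝓞 N) = 1 := fun w hw => by rw [hdeg w hw, h4]
    have hma : a ∈ s := by
      rw [ha]
      exact Finset.mem_insert_self _ _
    have hmb : b ∈ s := by
      rw [ha]
      exact Finset.mem_insert_of_mem (Finset.mem_singleton_self _)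
    have hm0 := hmem
    rw [ha, Finset.mem_insert, Finset.mem_singleton] at hm0
    rcases hm0 with h | h
    · exact ⟨b, by rw [h]; exact hab, by rw [ha, h], hd w₀ hmem, hd b hmb⟩
    · exact ⟨a, by rw [h]; exact hab.symm, by rw [ha, h, Finset.pair_comm], hd w₀ hmem, hd a hma⟩

variable [CD] [DecidableEq Kb] {N F : Type u} [Field N] [NumberField N] [Field F] [NumberField F]
  [Algebra K F] [Algebra N F] [Algebra F Kb] [Algebra N Kb] [IsScalarTower K F Kb]
  [IsScalarTower N F Kb] [Algebra.IsAlgebraic N Kb] {W : WeierstrassCurve N}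
  {D : VariableChange Kb} (hD : D • EF Kb = W.map (algebraMap N Kb))
include hD

/-- the Euler factors of `W` over `N` in terms of the character over `F = N K` -/
theorem eulD_of (h2 : Module.finrank N F = 2)
    (hn : ∀ x : N, algebraMap N F x ≠ algebraMap K F (ta : K)) {ps : Ideal (𝓞 F) → 𝓞 K}
    (hgd : ∀ w : HeightOneSpectrum (𝓞 F), Gd (W.map (algebraMap N F)) w →
      Ideal.span {ps w.asIdeal} = Ideal.relNorm (𝓞 K) w.asIdeal ∧ FrV D w (ps w.asIdeal))
    (hbad : ∀ w : HeightOneSpectrum (𝓞 F), ¬ Gd (W.map (algebraMap N F)) w →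
      ps w.asIdeal = 0) : EulD W ps := by
  classical
  intro v s hs
  have hquad : Algebra.IsQuadraticExtension N F := ⟨h2⟩
  have hgal : IsGalois N F := { }
  obtain ⟨w₀, hw₀⟩ := CF.exists_over (k := N) (N := F) v
  by_cases hg : Gd (W.map (algebraMap N F)) w₀
  · have he : w₀.asIdeal.ramificationIdx (𝓞 N) = 1 := ram_N hD hg h2 hn
    have hgood := desc_unr h2 he hg
    obtain ⟨hψ, hfr⟩ := hgd w₀ hg
    rcases eulw_case h2 hw₀ he hs with ⟨h1, h3⟩ | ⟨w₁, h1, h3, h4, h5⟩
    · -- inert
      obtain ⟨h6, h7⟩ := loc_inertW hD h2 hn hgood h3 hψ hfr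
      rw [h1, Finset.prod_singleton, ← hw₀, h6, h7, h3, Polynomial.map_add, Polynomial.map_one,
        Polynomial.map_mul, Polynomial.map_pow, Polynomial.map_C, Polynomial.map_X, eq_intCast,
        Int.cast_natCast, Polynomial.C_neg]
      ring
    · -- split
      have hw₁ : w₁.under (𝓞 N) = v := by
        rw [← hs w₁, h3]
        exact Finset.mem_insert_of_mem (Finset.mem_singleton_self _)
      have hww : w₀.under (𝓞 N) = w₁.under (𝓞 N) := by rw [hw₀, hw₁]
      have hg₁ : Gd (W.map (algebraMap N F)) w₁ := good_conj hD h2 hww hg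
      have hc := frv_conj hD h2 hn hww h1 hfr
      have h6 : cj (ps w₀.asIdeal) = ps w₁.asIdeal := frv_unique (md_up hD) hc (hgd w₁ hg₁).2
      rw [h3, Finset.prod_pair h1, h4, h5, pow_one, ← h6, ← hw₀, loc_splitW W hgood h4]
      exact loc_goodW (md_up hD) hψ hfr hg
  · have h1 : ¬ ∃ C : VariableChange N, GM.GoodW (v.valuation N) (C • W) := by
      intro h
      apply hg
      have h3 := LF.good_up (k := N) (M := F) W w₀ (by rw [hw₀]; exact h)
      exact h3
    rw [loc_badW hD h1, Polynomial.map_one]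
    symm
    refine Finset.prod_eq_one fun w hw => ?_
    have h3 : ¬ Gd (W.map (algebraMap N F)) w := by
      intro h
      apply hg
      exact good_conj hD h2 (by rw [(hs w).1 hw, hw₀]) h
    rw [hbad w h3, Polynomial.C_0, zero_mul, sub_zero]

end Pool.Agent.Lib.MP_1a91b9_nuX.PG
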