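import Pool.Agent.Lib.MP_1a91b9_nuX.GL.InrB

/-!
# The fixed points of a semilinear endomorphism (general version)

PROOFS.
* `smG_surj'`: `⟨T, b, hb, hT⟩` a point of `taG V`, `sm b T = 0`, `V b = 1`. Let `π` be a generator of `P` (`exists_gen`, see GL/PiD.lean or GL/ResA.lean; `P.asIdeal = span {π}`, `π` prime), `a = π ^ k * r` with `r ∉ P.asIdeal` (`a ≠ 0`: finite multiplicity of the prime `π`), `b' = r * b ∉ P.asIdeal` (`val_one_iff hP`: `V x = 1 ↔ x ∉ P.asIdeal`). `IsCoprime (π ^ k) b'` (`P.asIdeal` is maximal, `b'` is not in it; `IsCoprime.pow_left`): `x * π ^ k + y * b' = 1`.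
  `ext_div` (nuX/DB/Ext.lean, with `f = IsAlgClosed.lift`, see the proof of `smG_surj` in GL/TorC.lean): `T'` with `sm a T' = T`, `sm (b * a) T' = 0`. `T'' = sm (x * π ^ k) T'`: `sm b' T'' = sm x (sm (π ^ k * b') T') = 0` because `π ^ k * b' = b * a`; so `T''` is `Ta` (`V b' = 1`). `sm a T'' = sm (x * π ^ k) T = T - sm (y * b') T = T` because `b ∣ b'` and `sm b T = 0` (`sm_sub`, `sm_mul`, `sm_one`).
* `smG_fin`: the kernel maps injectively into the finite set of the points killed by `a` (`tors_card`), it is nonempty: `Nat.card ≠ 0` (`Nat.card_ne_zero`: nonempty and finite).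
* `fix_card'`: the proof of `fix_card` (GL/InrB.lean); `smG_surj hs` is replaced by `smG_surj' hP` (with `UF.rt ≠ 0`: `UF.rt = 2 ta - tr`, coordinates; look in nuX/UF/Ell.lean), and the computation with `smG_ker hs`, `InrB_norm hs` by `smG_fin`: from `c2 : Nat.card (B₁.comp (smG rt)).ker = Nat.card B₁.ker * Nat.card (smG rt).ker` and
  `c3 : Nat.card ((smG rt).comp A₁).ker = Nat.card (smG rt).ker * Nat.card A₁.ker` one gets `Nat.card B₁.ker = Nat.card A₁.ker` (cancel `Nat.card (smG rt).ker ≠ 0`).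
-/

set_option autoImplicit false

namespace Pool.Agent.Lib.MP_1a91b9_nuX.PG

open NumberField IsDedekindDomain WeierstrassCurve Pool.Agent.Lib.MP_1a91b9_nuT
open Pool.Agent.Lib.MP_1a91b9_nuX.DB Pool.Agent.Lib.MP_1a91b9_nuX.GL

variable [CD] [DecidableEq Kb] {P : HeightOneSpectrum (𝓞 K)} {V : ValuationSubring Kb}

omit [DecidableEq Kb] in
private theorem fixc_norm {V : ValuationSubring Kb} {a : 𝓞 K}
    (ha : V.valuation (algebraMap K Kb (a : K)) = 1) : Ideal.absNorm (Ideal.span {a}) ≠ 0 := by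
  intro h
  rw [Ideal.absNorm_eq_zero_iff, Ideal.span_singleton_eq_bot] at h
  rw [h] at ha
  have h1 : (((0 : 𝓞 K)) : K) = 0 := rfl
  rw [h1, map_zero, map_zero] at ha
  exact zero_ne_one ha

private theorem fixc_ncard {V : ValuationSubring Kb} (f : taG V →+ taG V) (S : Set (Pt Kb))
    (h1 : ∀ T ∈ S, Ta V.valuation T) (h2 : ∀ T : taG V, f T = 0 ↔ (T : Pt Kb) ∈ S) :
    Nat.card f.ker = S.ncard := by
  rw [← Nat.card_coe_set_eq]
  exact Nat.card_congr
    { toFun := fun T => ⟨T.1.1, (h2 T.1).1 T.2⟩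
      invFun := fun T => ⟨⟨T.1, h1 T.1 T.2⟩, (h2 ⟨T.1, h1 T.1 T.2⟩).2 T.2⟩
      left_inv := fun T => rfl
      right_inv := fun T => rfl }

omit [DecidableEq Kb] in
private theorem fixc_rt : (UF.rt : 𝓞 K) ≠ 0 := by
  intro h
  have h1 := UF.rt_eq
  rw [h] at h1
  have h2 : ((0 : ℤ) : 𝓞 K) + ((0 : ℤ) : 𝓞 K) * ta = 0 := by
    push_cast
    ring
  rw [← h2] at h1
  have h3 := (coords_inj h1).2
  norm_num at h3

theorem smG_surj' (hP : Abv P V) {a : 𝓞 K} (ha : a ≠ 0) : Function.Surjective (smG V a) := by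
  rintro ⟨T, b, hb, hT⟩
  obtain ⟨π, hπp, hπ⟩ := exists_gen P
  obtain ⟨k, r, hr, hak⟩ : ∃ (k : ℕ) (r : 𝓞 K), ¬ π ∣ r ∧ a = π ^ k * r := by
    obtain ⟨r, hr1, hr2⟩ :=
      (FiniteMultiplicity.of_not_isUnit hπp.not_unit ha).exists_eq_pow_mul_and_not_dvd
    exact ⟨_, r, hr2, hr1⟩
  have hmem : ∀ c : 𝓞 K, c ∈ P.asIdeal ↔ π ∣ c := fun c => by
    rw [← hπ, Ideal.mem_span_singleton]
  have hbP : b ∉ P.asIdeal := (val_one_iff hP b).1 hb
  have hrP : r ∉ P.asIdeal := fun h => hr ((hmem r).1 h)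
  have hb'P : r * b ∉ P.asIdeal := fun h => (P.isPrime.mem_or_mem h).elim hrP hbP
  have hcop : IsCoprime (π ^ k) (r * b) := by
    refine IsCoprime.pow_left ?_
    rw [hπp.irreducible.coprime_iff_not_dvd]
    exact fun h => hb'P ((hmem _).2 h)
  obtain ⟨x, y, hxy⟩ := hcop
  have hb0 : b ≠ 0 := by
    rintro rfl
    exact hbP P.asIdeal.zero_mem
  obtain ⟨T', hT'1, hT'2⟩ := ext_div (IsAlgClosed.lift : Kb →ₐ[K] ℂ) hb0 ha hT
  refine ⟨⟨sm Kb (x * π ^ k) T', r * b, (val_one_iff hP _).2 hb'P, ?_⟩, Subtype.ext ?_⟩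
  · rw [← sm_mul]
    have h1 : r * b * (x * π ^ k) = x * (b * a) := by
      rw [hak]
      ring
    rw [h1, sm_mul, hT'2, map_zero]
  · change sm Kb a (sm Kb (x * π ^ k) T') = T
    rw [← sm_mul, mul_comm, sm_mul, hT'1]
    have h1 : x * π ^ k = 1 - y * r * b := by
      linear_combination hxy
    rw [h1, sm_sub, sm_one, sm_mul, hT, map_zero, sub_zero]

theorem smG_fin {a : 𝓞 K} (ha : a ≠ 0) : Nat.card (smG V a).ker ≠ 0 := by
  rw [Nat.card_ne_zero]
  refine ⟨⟨0⟩, ?_⟩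
  have hm : ∀ x : (smG V a).ker, ((x : taG V) : Pt Kb) ∈ {T : Pt Kb | sm Kb a T = 0} := by
    intro x
    have h4 : smG V a (x : taG V) = 0 := x.2
    exact congrArg Subtype.val h4
  haveI : Finite {T : Pt Kb | sm Kb a T = 0} := (tors_card ha).1.to_subtype
  refine Finite.of_injective
    (fun x : (smG V a).ker => (⟨_, hm x⟩ : {T : Pt Kb | sm Kb a T = 0})) ?_
  intro x y hxy
  have h5 : ((x : taG V) : Pt Kb) = ((y : taG V) : Pt Kb) :=
    congrArg (fun z : {T : Pt Kb | sm Kb a T = 0} => (z : Pt Kb)) hxy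
  exact Subtype.ext (Subtype.ext h5)

theorem fix_card' (hP : Abv P V) {φ : Pt Kb →+ Pt Kb}
    (hta : ∀ T : Pt Kb, Ta V.valuation T → Ta V.valuation (φ T))
    (hsemi : ∀ (a : 𝓞 K) (T : Pt Kb), φ (sm Kb a T) = sm Kb (cj a) (φ T)) {Ψ : 𝓞 K}
    (hsq : ∀ T : Pt Kb, Ta V.valuation T → φ (φ T) = sm Kb Ψ T)
    (hΨ : V.valuation (algebraMap K Kb ((1 - Ψ : 𝓞 K) : K)) = 1) :
    {T : Pt Kb | Ta V.valuation T ∧ φ T = T}.Finite ∧
    {T : Pt Kb | Ta V.valuation T ∧ φ T = -T}.Finite ∧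
    {T : Pt Kb | Ta V.valuation T ∧ φ T = T}.ncard = {T : Pt Kb | Ta V.valuation T ∧ φ T = -T}.ncard ∧
    {T : Pt Kb | Ta V.valuation T ∧ φ T = T}.ncard ^ 2 = Ideal.absNorm (Ideal.span {1 - Ψ}) := by
  obtain ⟨φM, hφM⟩ : ∃ φM : taG V →+ taG V, ∀ T : taG V, ((φM T : taG V) : Pt Kb) = φ T :=
    ⟨{ toFun := fun T => ⟨φ T.1, hta _ T.2⟩
       map_zero' := Subtype.ext (map_zero φ)
       map_add' := fun T T' => Subtype.ext (map_add φ T.1 T'.1) }, fun T => rfl⟩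
  obtain ⟨A₁, hA₁⟩ : ∃ A₁ : taG V →+ taG V, ∀ T : taG V, A₁ T = T - φM T :=
    ⟨AddMonoidHom.id _ - φM, fun T => rfl⟩
  obtain ⟨B₁, hB₁⟩ : ∃ B₁ : taG V →+ taG V, ∀ T : taG V, B₁ T = T + φM T :=
    ⟨AddMonoidHom.id _ + φM, fun T => rfl⟩
  have hsq' : ∀ T : taG V, φM (φM T) = smG V Ψ T := by
    intro T
    apply Subtype.ext
    rw [hφM, hφM]
    exact hsq T.1 T.2
  have hsub : ∀ T : taG V, T - smG V Ψ T = smG V (1 - Ψ) T := by
    intro T
    apply Subtype.ext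
    change (T : Pt Kb) - sm Kb Ψ T = sm Kb (1 - Ψ) T
    rw [sm_sub, sm_one]
  have e1 : B₁.comp (smG V UF.rt) = (smG V UF.rt).comp A₁ := by
    ext T
    rw [AddMonoidHom.comp_apply, AddMonoidHom.comp_apply, hB₁, hA₁]
    have h1 : φM (smG V UF.rt T) = -smG V UF.rt (φM T) := by
      apply Subtype.ext
      rw [hφM]
      change φ (sm Kb UF.rt T) = -sm Kb UF.rt (φM T)
      rw [hsemi, UF.cj_rt, hφM, map_neg]
      rfl
    rw [h1, map_sub, sub_eq_add_neg]
  have e2 : A₁.comp B₁ = smG V (1 - Ψ) := by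
    ext T
    rw [AddMonoidHom.comp_apply, hB₁, hA₁, map_add, hsq', ← hsub]
    congr 1
    abel
  have e3 : B₁.comp A₁ = smG V (1 - Ψ) := by
    ext T
    rw [AddMonoidHom.comp_apply, hB₁, hA₁, map_sub, hsq', ← hsub]
    congr 1
    abel
  have hΨs := smG_surj hΨ
  have hss := smG_surj' hP fixc_rt
  have hAs : Function.Surjective A₁ := by
    rw [← e2] at hΨs
    exact Function.Surjective.of_comp hΨs
  have hBs : Function.Surjective B₁ := by
    have hΨs := smG_surj hΨ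
    rw [← e3] at hΨs
    exact Function.Surjective.of_comp hΨs
  have c1 := card_comp A₁ B₁ hBs
  have c2 := card_comp B₁ (smG V UF.rt) hss
  have c3 := card_comp (smG V UF.rt) A₁ hAs
  rw [e2, smG_ker hΨ] at c1
  rw [e1, c3, mul_comm] at c2
  have c4 := Nat.eq_of_mul_eq_mul_right (Nat.pos_of_ne_zero (smG_fin fixc_rt)) c2
  have n1 : Nat.card A₁.ker = {T : Pt Kb | Ta V.valuation T ∧ φ T = T}.ncard := by
    refine fixc_ncard A₁ _ (fun T hT => hT.1) fun T => ?_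
    rw [hA₁, sub_eq_zero]
    constructor
    · intro h
      refine ⟨T.2, ?_⟩
      rw [← hφM, ← h]
    · intro h
      apply Subtype.ext
      rw [hφM]
      exact h.2.symm
  have n2 : Nat.card B₁.ker = {T : Pt Kb | Ta V.valuation T ∧ φ T = -T}.ncard := by
    refine fixc_ncard B₁ _ (fun T hT => hT.1) fun T => ?_
    rw [hB₁, add_comm, add_eq_zero_iff_eq_neg]
    constructor
    · intro h
      refine ⟨T.2, ?_⟩
      rw [← hφM, h]
      rfl
    · intro h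
      apply Subtype.ext
      rw [hφM, h.2]
      rfl
  have hN := fixc_norm hΨ
  rw [← n1, ← n2, ← c4]
  rw [← c4] at c1
  refine ⟨Set.finite_of_ncard_ne_zero ?_, Set.finite_of_ncard_ne_zero ?_, rfl, ?_⟩
  · rw [← n1]
    intro h0
    rw [h0, mul_zero] at c1
    exact hN c1
  · rw [← n2, ← c4]
    intro h0
    rw [h0, mul_zero] at c1
    exact hN c1
  · rw [c1, sq]

end Pool.Agent.Lib.MP_1a91b9_nuX.PG
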