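import Pool.Agent.Lib.MP_1a91b9_nuX.PG.TrpB
import Pool.Agent.Lib.MP_1a91b9_nuX.GL.PiD
import Pool.Agent.Lib.MP_1a91b9_nuX.GL.LuB

/-!
# The Frobenius automorphisms at a place of good reduction of a form of the curve

PROOFS. `P = w.under (𝓞 K)`, `N P = Ideal.absNorm P.asIdeal`.
* `rel_w`: see `psi_facts` in GL/CntD.lean (`Ideal.relNorm_eq_pow_of_isMaximal`, `Ideal.absNorm_relNorm`, `Ideal.inertiaDeg_pos`).
* `lift_pow`: induction on `n ≥ 1`. `n = 1`: `frob_lift hV hG hψ` (GL/PiD.lean). Step: `P.asIdeal = span {π}` (`exists_gen`); `span {ψ} = span {π ^ (n + 1)}`, so `ψ = ψ' * π` with `span {ψ'} = P.asIdeal ^ n` (`Ideal.span_singleton_eq_span_singleton`: `ψ` and `π ^ (n + 1)` are associated; `ψ' = u * π ^ n`).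
  For `X ∉ KrC`: `Y = sm π X ∉ KrC`, `cx Y ≡ κ₁ (cx X) ^ q + e₁` with `q = N P`; `cx (sm ψ' Y) ≡ κ₂ (cx Y) ^ (q ^ n) + e₂`. The map `x ↦ x ^ (q ^ n)` is additive modulo the maximal ideal on the integral elements
  (`pid_frob`: `(a - b) ^ q ≡ a ^ q - b ^ q`; iterate `n` times; for a sum write `a + b = a - (0 - b)`), and congruent integral elements have congruent powers. So `cx (sm ψ X) ≡ κ₂ κ₁ ^ (q ^ n) (cx X) ^ (q ^ (n + 1)) + (κ₂ e₁ ^ (q ^ n) + e₂)`.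
  (`sm_mul`: `sm ψ X = sm ψ' (sm π X)`; `q * q ^ n = q ^ (n + 1)`.)
* `frob_core`: as `fr_exists` in GL/FrA.lean. `f = w.asIdeal.inertiaDeg (𝓞 K) ≠ 0`, `π` generator of `P`, `a = π ^ f`, `span {a} = P.asIdeal ^ f = relNorm`, `q = N w = N P ^ f` (`rel_w`). `hVP = abv_res hV : Abv P V`. `κ, e` from `lift_pow hVP hG` for `a`.
  `φ'` with `Trp D σ⁻¹ φ'` (`trp_exists hD σ⁻¹`); `φ (φ' T) = T` and `φ' (φ T) = T` (`trp_inv`). `τ = (sm Kb a).comp φ'` is `Af V D τ` (GL/Af.lean): `sm`: `trp_lin` for `φ'`, commutativity (`sm_mul`); `inj`: if `Tr T` and `sm a (φ' T) = 0` then `φ' T` is `Tr` (`tr_hom`);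
  `sm a` is injective on the `Tr` points: if `φ' T ≠ 0` then it is not in `KrC` (`tr_not_kr hG`) so `sm a (φ' T) ∉ KrC` by `lift_pow`, but `0 ∈ KrC`. So `φ' T = 0`, `T = 0` (`trp_inj`). `af`: for `T ≠ 0` `Tr`: `T' = φ' T ≠ 0`, `Tr`, not `KrC`: `cx (sm a T') ≡ κ (cx T') ^ q + e`
  and `(cx T') ^ q ≡ σ (cx T') = cx (φ T') = cx T` (`hσ`, `hφ`). `af_lem hE hVP hG`: unit `u` with `sm a (φ' T) = sm u T`; with `T` replaced by `φ T`: `sm a T = sm u (φ T)`. `ψ = u⁻¹ * a`.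
-/

set_option autoImplicit false

namespace Pool.Agent.Lib.MP_1a91b9_nuX.PG

open NumberField IsDedekindDomain WeierstrassCurve Pool.Agent.Lib.MP_1a91b9_nuT
open Pool.Agent.Lib.MP_1a91b9_nuX.DB Pool.Agent.Lib.MP_1a91b9_nuX.GL

universe u

variable [CD]

/-- the relative norm of a place -/
theorem rel_w {F : Type u} [Field F] [NumberField F] [Algebra K F] (w : HeightOneSpectrum (𝓞 F)) :
    Ideal.relNorm (𝓞 K) w.asIdeal = (w.under (𝓞 K)).asIdeal ^ w.asIdeal.inertiaDeg (𝓞 K) ∧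
    Ideal.absNorm w.asIdeal =
      Ideal.absNorm (w.under (𝓞 K)).asIdeal ^ w.asIdeal.inertiaDeg (𝓞 K) ∧
    w.asIdeal.inertiaDeg (𝓞 K) ≠ 0 := by
  have h0 : (w.under (𝓞 K)).asIdeal.IsMaximal := (w.under (𝓞 K)).isMaximal
  have h1 : w.asIdeal.LiesOver (w.under (𝓞 K)).asIdeal := ⟨rfl⟩
  have hm : w.asIdeal.IsMaximal := w.isMaximal
  have hp : w.asIdeal.IsPrime := w.isPrime
  have hrel : Ideal.relNorm (𝓞 K) w.asIdeal =
      (w.under (𝓞 K)).asIdeal ^ w.asIdeal.inertiaDeg (𝓞 K) :=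
    Ideal.relNorm_eq_pow_of_isMaximal w.asIdeal (w.under (𝓞 K)).asIdeal
  refine ⟨hrel, ?_, (Ideal.inertiaDeg_pos w.asIdeal (𝓞 K)).ne'⟩
  rw [← Ideal.absNorm_relNorm (𝓞 K), hrel, map_pow]


private theorem frla_congr {V : ValuationSubring Kb} {a b : Kb} (ha : V.valuation a ≤ 1)
    (hb : V.valuation b ≤ 1) (h : V.valuation (a - b) < 1) (m : ℕ) :
    V.valuation (a ^ m - b ^ m) < 1 := by
  induction m with
  | zero =>
    rw [pow_zero, pow_zero, sub_self, map_zero]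
    exact zero_lt_one
  | succ m ih =>
    have e : a ^ (m + 1) - b ^ (m + 1) = (a ^ m - b ^ m) * a + (a - b) * b ^ m := by ring
    rw [e]
    refine Valuation.map_add_lt _ ?_ ?_
    · rw [map_mul]
      exact mul_lt_one_of_lt_of_le ih ha
    · rw [map_mul, map_pow]
      exact mul_lt_one_of_lt_of_le h (pow_le_one' hb m)

section
variable {P : HeightOneSpectrum (𝓞 K)} {V : ValuationSubring Kb} (hV : Abv P V)
include hV

private theorem frla_add {a b : Kb} (ha : V.valuation a ≤ 1) (hb : V.valuation b ≤ 1) (n : ℕ) :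
    V.valuation ((a + b) ^ (Ideal.absNorm P.asIdeal ^ n) -
      (a ^ (Ideal.absNorm P.asIdeal ^ n) + b ^ (Ideal.absNorm P.asIdeal ^ n))) < 1 := by
  obtain ⟨p, hp, hpv, hpn⟩ := res_char hV
  obtain ⟨k, hk, hk2⟩ := norm_pow hV hp hpv
  have hchar : CharP (RF V) p := rd_char hp hpv
  have hfact : Fact p.Prime := ⟨hp⟩
  rw [hk2, ← pow_mul]
  have hle : ∀ {x : Kb} (n : ℕ), V.valuation x ≤ 1 → V.valuation (x ^ n) ≤ 1 := fun n hx => by
    rw [map_pow]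
    exact pow_le_one' hx n
  have hab : V.valuation (a + b) ≤ 1 := Valuation.map_add_le _ ha hb
  have h1 : V.valuation ((a + b) ^ p ^ (k * n)) ≤ 1 := hle _ hab
  have h2 : V.valuation (a ^ p ^ (k * n) + b ^ p ^ (k * n)) ≤ 1 :=
    Valuation.map_add_le _ (hle _ ha) (hle _ hb)
  rw [← rd_eq h1 h2, rd_pow hab, rd_add ha hb, rd_add (hle _ ha) (hle _ hb), rd_pow ha, rd_pow hb]
  exact add_pow_char_pow (rd V a) (rd V b) p (k * n)

end

variable [DecidableEq Kb]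

section
variable {P : HeightOneSpectrum (𝓞 K)} {V : ValuationSubring Kb} (hV : Abv P V)
  {D : VariableChange Kb} (hG : GoodC V.valuation D)
include hV hG

/-- multiplication by a generator of a power of `P` on the abscissas -/
theorem lift_pow {n : ℕ} (hn : n ≠ 0) {ψ : 𝓞 K} (hψ : Ideal.span {ψ} = P.asIdeal ^ n) :
    ∃ κ e : Kb, V.valuation κ = 1 ∧ V.valuation e ≤ 1 ∧
      ∀ X : Pt Kb, ¬ KrC V.valuation D X → ¬ KrC V.valuation D (sm Kb ψ X) ∧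
        V.valuation (cx D (sm Kb ψ X) -
          (κ * cx D X ^ (Ideal.absNorm P.asIdeal ^ n) + e)) < 1 := by
  obtain ⟨m, rfl⟩ := Nat.exists_eq_succ_of_ne_zero hn
  clear hn
  induction m generalizing ψ with
  | zero =>
    have h1 : Ideal.span {ψ} = P.asIdeal := by rw [hψ, Nat.succ_eq_add_one, zero_add, pow_one]
    have h2 : Ideal.absNorm P.asIdeal ^ Nat.succ 0 = Ideal.absNorm P.asIdeal := pow_one _
    rw [h2]
    exact frob_lift hV hG h1
  | succ m ih =>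
    obtain ⟨π, -, hπ⟩ := exists_gen P
    have h1 : Ideal.span {ψ} = Ideal.span {π ^ (m + 1 + 1)} := by
      rw [hψ, ← hπ, Ideal.span_singleton_pow]
    obtain ⟨u, hu⟩ := Ideal.span_singleton_eq_span_singleton.1 h1
    obtain ⟨ψ', hψ'e⟩ : ∃ ψ' : 𝓞 K, ψ' = ((u⁻¹ : (𝓞 K)ˣ) : 𝓞 K) * π ^ (m + 1) := ⟨_, rfl⟩
    have hψ' : Ideal.span {ψ'} = P.asIdeal ^ Nat.succ m := by
      rw [hψ'e, Ideal.span_singleton_mul_left_unit (Units.isUnit _), ← Ideal.span_singleton_pow, hπ]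
    have hmul : ψ = ψ' * π := by
      rw [hψ'e, mul_assoc, ← pow_succ, ← hu, mul_comm ψ, ← mul_assoc, Units.inv_mul, one_mul]
    obtain ⟨κ₁, e₁, hκ₁, he₁, h₁⟩ := frob_lift hV hG hπ
    obtain ⟨κ₂, e₂, hκ₂, he₂, h₂⟩ := ih hψ'
    obtain ⟨N, hN⟩ : ∃ N, N = Ideal.absNorm P.asIdeal ^ (m + 1) := ⟨_, rfl⟩
    obtain ⟨q, hq⟩ : ∃ q, q = Ideal.absNorm P.asIdeal := ⟨_, rfl⟩
    have hqN : Ideal.absNorm P.asIdeal ^ Nat.succ (m + 1) = q * N := by
      rw [hN, hq, Nat.succ_eq_add_one, pow_succ, mul_comm]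
    have hNs : Ideal.absNorm P.asIdeal ^ Nat.succ m = N := hN.symm
    rw [hqN]
    rw [hNs] at h₂
    rw [← hq] at h₁
    refine ⟨κ₂ * κ₁ ^ N, κ₂ * e₁ ^ N + e₂, ?_, ?_, fun X hX => ?_⟩
    · rw [map_mul, map_pow, hκ₁, hκ₂, one_pow, one_mul]
    · refine Valuation.map_add_le _ ?_ he₂
      rw [map_mul, map_pow, hκ₂, one_mul]
      exact pow_le_one' he₁ N
    · obtain ⟨hY, h3⟩ := h₁ X hX
      obtain ⟨hZ, h4⟩ := h₂ _ hY
      have hsm : sm Kb ψ X = sm Kb ψ' (sm Kb π X) := by rw [hmul, sm_mul]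
      rw [hsm]
      refine ⟨hZ, ?_⟩
      have hx := (not_krc hX).2
      have hy := (not_krc hY).2
      generalize cx D (sm Kb ψ' (sm Kb π X)) = z at h4 ⊢
      generalize cx D (sm Kb π X) = y at h3 h4 hy ⊢
      generalize cx D X = x at h3 hx ⊢
      have h5 : V.valuation (κ₁ * x ^ q) ≤ 1 := by
        rw [map_mul, hκ₁, one_mul, map_pow]
        exact pow_le_one' hx q
      have h6 : V.valuation (κ₁ * x ^ q + e₁) ≤ 1 := Valuation.map_add_le _ h5 he₁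
      have h7 := frla_congr hy h6 h3 N
      have h8 := frla_add hV h5 he₁ (m + 1)
      rw [← hN] at h8
      have e : z - (κ₂ * κ₁ ^ N * x ^ (q * N) + (κ₂ * e₁ ^ N + e₂)) =
          (z - (κ₂ * y ^ N + e₂)) + κ₂ * ((y ^ N - (κ₁ * x ^ q + e₁) ^ N) +
            ((κ₁ * x ^ q + e₁) ^ N - ((κ₁ * x ^ q) ^ N + e₁ ^ N))) := by
        rw [mul_pow, ← pow_mul]
        ring
      rw [e]
      refine Valuation.map_add_lt _ h4 ?_
      rw [map_mul, hκ₂, one_mul]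
      exact Valuation.map_add_lt _ h7 h8

end

section
variable {F : Type u} [Field F] [NumberField F] [Algebra K F] [Algebra F Kb]
  [IsScalarTower K F Kb] {W : WeierstrassCurve F} {D : VariableChange Kb}
  (hD : D • EF Kb = W.map (algebraMap F Kb)) {w : HeightOneSpectrum (𝓞 F)}
  {V : ValuationSubring Kb} (hV : Abv w V) (hG : GoodC V.valuation D)
include hD hV hG

/-- the Frobenius automorphisms are multiplications on the torsion of order prime to the residue characteristic -/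
theorem frob_core (hE : EllK) {σ : Kb ≃ₐ[F] Kb} (hσ : IsFr V (Ideal.absNorm w.asIdeal) σ)
    {φ : Pt Kb →+ Pt Kb} (hφ : Trp D σ φ) :
    ∃ ψ : 𝓞 K, Ideal.span {ψ} = Ideal.relNorm (𝓞 K) w.asIdeal ∧
      ∀ T : Pt Kb, Tr V.valuation T → φ T = sm Kb ψ T := by
  obtain ⟨hrel, hnorm, hf⟩ := rel_w (F := F) w
  obtain ⟨f, hfe⟩ : ∃ f, f = w.asIdeal.inertiaDeg (𝓞 K) := ⟨_, rfl⟩
  rw [← hfe] at hrel hnorm hf
  have hVP : Abv (w.under (𝓞 K)) V := abv_res hV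
  obtain ⟨π, -, hπ⟩ := exists_gen (w.under (𝓞 K))
  obtain ⟨a, hae⟩ : ∃ a : 𝓞 K, a = π ^ f := ⟨_, rfl⟩
  have ha : Ideal.span {a} = (w.under (𝓞 K)).asIdeal ^ f := by
    rw [hae, ← Ideal.span_singleton_pow, hπ]
  obtain ⟨κ, e, hκ, he, hfr⟩ := lift_pow hVP hG hf ha
  rw [← hnorm] at hfr
  obtain ⟨φ', hφ'⟩ := trp_exists hD σ⁻¹
  have h12 : ∀ x, σ ((σ⁻¹ : Kb ≃ₐ[F] Kb) x) = x := fun x => σ.apply_symm_apply x
  have h21 : ∀ x, (σ⁻¹ : Kb ≃ₐ[F] Kb) (σ x) = x := fun x => σ.symm_apply_apply x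
  have hinv : ∀ X : Pt Kb, φ (φ' X) = X := trp_inv hφ hφ' h12
  have hinv' : ∀ X : Pt Kb, φ' (φ X) = X := trp_inv hφ' hφ h21
  have hker : ∀ T : Pt Kb, Tr V.valuation T → T ≠ 0 → ¬ KrC V.valuation D (φ' T) :=
    fun T hT h0 => tr_not_kr hG (tr_hom hT φ') fun h1 => h0 (trp_inj hφ' h1)
  have hAf : Af V D ((sm Kb a).comp φ') := by
    refine ⟨fun b T => ?_, fun T hT h0 => ?_, κ, e, hκ, he, fun T hT h0 => ?_⟩
    · show sm Kb a (φ' (sm Kb b T)) = sm Kb b (sm Kb a (φ' T))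
      rw [trp_lin hD hφ', ← sm_mul, ← sm_mul, mul_comm]
    · have h1 : sm Kb a (φ' T) = 0 := h0
      by_contra hT0
      have h2 := (hfr _ (hker T hT hT0)).1
      rw [h1] at h2
      exact h2 (Or.inl rfl)
    · obtain ⟨_, h3⟩ := hfr _ (hker T hT h0)
      have h4 := hσ _ (not_krc (hker T hT h0)).2
      have h1 : φ' T ≠ 0 := fun h1 => h0 (trp_inj hφ' h1)
      have h5 : σ (cx D (φ' T)) = cx D T := by
        rw [← (hφ (φ' T) h1).2.1, hinv]
      rw [h5] at h4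
      obtain ⟨c, hc⟩ : ∃ c, c = cx D (φ' T) := ⟨_, rfl⟩
      rw [← hc] at h3 h4
      show V.valuation (cx D (sm Kb a (φ' T)) - (κ * cx D T + e)) < 1
      have h6 : cx D (sm Kb a (φ' T)) - (κ * cx D T + e) =
          (cx D (sm Kb a (φ' T)) - (κ * c ^ Ideal.absNorm w.asIdeal + e)) -
          κ * (cx D T - c ^ Ideal.absNorm w.asIdeal) := by ring
      rw [h6]
      refine (V.valuation.map_sub _ _).trans_lt (max_lt h3 ?_)
      rw [map_mul, hκ, one_mul]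
      exact h4
  obtain ⟨u, hu⟩ := af_lem hE hVP hG hAf
  refine ⟨((u⁻¹ : (𝓞 K)ˣ) : 𝓞 K) * a, ?_, fun T hT => ?_⟩
  · rw [Ideal.span_singleton_mul_left_unit (Units.isUnit _), ha, hrel]
  · have h1 : sm Kb a (φ' (φ T)) = sm Kb (u : 𝓞 K) (φ T) := hu _ (tr_hom hT φ)
    rw [hinv'] at h1
    rw [sm_mul, h1, ← sm_mul, ← Units.val_mul, inv_mul_cancel, Units.val_one, sm_one]

end

end Pool.Agent.Lib.MP_1a91b9_nuX.PG
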