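import Pool.Agent.Lib.MP_1a91b9_nuX.PG.FrlA
import Pool.Agent.Lib.MP_1a91b9_nuX.GL.PiC

/-!
# The Frobenius automorphisms on the torsion prime to `V`

PROOFS. `P = w.under (𝓞 K)`, `hVP = abv_res hV : Abv P V`, `q = Ideal.absNorm w.asIdeal = N P ^ f`, `relNorm = P ^ f`, `f ≠ 0` (`rel_w`).
* `frob_all`: copy `frb_lift` of GL/FrB.lean: `lift_pow hVP hG` for `ψ` gives `κ, e` with `cx (sm ψ X) ≡ κ (cx X) ^ q + e` for all `X ∉ KrC`. For a `Tr` point `Y ≠ 0`: `cx (sm ψ Y) = cx (φ Y) = σ (cx Y) ≡ (cx Y) ^ q` (`hψ'`, `hφ`, `hσ`), so `(κ - 1) (cx Y) ^ q + e ≡ 0`.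
  Two points `A`, `B` of prime orders `l ≠ l'` at least `5` (`exists_prime`, `exists_pt_prime`): `V (cx A - cx B) = 1` (`krc_unit`), so `V ((cx A) ^ q - (cx B) ^ q) = 1` (use additivity of the `q`-th power modulo the maximal ideal: `pid_frob` iterated `f` times; or: the residue field is a field of characteristic `p`, `q = p ^ n`: `rd_char`, `res_char`, `norm_pow`), hence `κ ≡ 1`, `e ≡ 0`.
* `frob_ta`: copy `fr_ta` of GL/FrB.lean with `ga σ` replaced by `φ` (`trp_ta hD hφ`, `trp_lin hD hφ`, `trp_inj`): `hpm`: for `X` in `Ta`, `X ≠ 0`: `X, φ X` not in `KrC` (`ta_kr hVP hG`), `sm ψ X ∉ KrC` and `cx (φ X) = σ (cx X) ≡ (cx X) ^ q ≡ cx (sm ψ X)`, so `krc_of_x`: `φ X = ± sm ψ X`. Then the sign, with the help of a point `A` of prime order `l ≥ 5` (`φ A = sm ψ A` by `hψ'`).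
-/

set_option autoImplicit false

namespace Pool.Agent.Lib.MP_1a91b9_nuX.PG

open NumberField IsDedekindDomain WeierstrassCurve Pool.Agent.Lib.MP_1a91b9_nuT
open Pool.Agent.Lib.MP_1a91b9_nuX.DB Pool.Agent.Lib.MP_1a91b9_nuX.GL

universe u

private theorem frlb_cop {G : Type*} [AddCommGroup G] {m n : ℕ} (h : Nat.Coprime m n) {x : G}
    (hm : m • x = 0) (hn : n • x = 0) : x = 0 := by
  have h1 := addOrderOf_dvd_of_nsmul_eq_zero hm
  have h2 := addOrderOf_dvd_of_nsmul_eq_zero hn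
  have h3 := Nat.dvd_gcd h1 h2
  rw [Nat.Coprime.gcd_eq_one h, Nat.dvd_one, AddMonoid.addOrderOf_eq_one_iff] at h3
  exact h3

private theorem frlb_frob [CD] {P : HeightOneSpectrum (𝓞 K)} {V : ValuationSubring Kb}
    (hV : Abv P V) (n : ℕ) {a b : Kb} (ha : V.valuation a ≤ 1) (hb : V.valuation b ≤ 1) :
    V.valuation ((a - b) ^ Ideal.absNorm P.asIdeal ^ n -
      (a ^ Ideal.absNorm P.asIdeal ^ n - b ^ Ideal.absNorm P.asIdeal ^ n)) < 1 := by
  obtain ⟨p, hp, hpv, hpn⟩ := res_char hV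
  obtain ⟨k, hk, hk2⟩ := norm_pow hV hp hpv
  have hchar : CharP (RF V) p := rd_char hp hpv
  have hfact : Fact p.Prime := ⟨hp⟩
  rw [hk2, ← pow_mul]
  have hle : ∀ {x : Kb} (n : ℕ), V.valuation x ≤ 1 → V.valuation (x ^ n) ≤ 1 := fun n hx => by
    rw [map_pow]
    exact pow_le_one' hx n
  have hneg : ∀ {x : Kb}, V.valuation x ≤ 1 → V.valuation (-x) ≤ 1 := fun hx => by
    rw [Valuation.map_neg]
    exact hx
  have hsub : ∀ {x y : Kb}, V.valuation x ≤ 1 → V.valuation y ≤ 1 →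
      rd V (x - y) = rd V x - rd V y := fun hx hy => by
    rw [sub_eq_add_neg, rd_add hx (hneg hy), rd_neg hy, sub_eq_add_neg]
  have hab : V.valuation (a - b) ≤ 1 := Valuation.map_sub_le _ ha hb
  have h1 : V.valuation ((a - b) ^ p ^ (k * n)) ≤ 1 := hle _ hab
  have h2 : V.valuation (a ^ p ^ (k * n) - b ^ p ^ (k * n)) ≤ 1 :=
    Valuation.map_sub_le _ (hle _ ha) (hle _ hb)
  rw [← rd_eq h1 h2, rd_pow hab, hsub ha hb, hsub (hle _ ha) (hle _ hb), rd_pow ha, rd_pow hb]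
  exact sub_pow_char_pow (rd V a) (rd V b) (k * n)

variable [CD] [DecidableEq Kb]
  {F : Type u} [Field F] [NumberField F] [Algebra K F] [Algebra F Kb]
  [IsScalarTower K F Kb] {W : WeierstrassCurve F} {D : VariableChange Kb}
  (hD : D • EF Kb = W.map (algebraMap F Kb)) {w : HeightOneSpectrum (𝓞 F)}
  {V : ValuationSubring Kb} (hV : Abv w V) (hG : GoodC V.valuation D)
  {σ : Kb ≃ₐ[F] Kb} (hσ : IsFr V (Ideal.absNorm w.asIdeal) σ)
  {φ : Pt Kb →+ Pt Kb} (hφ : Trp D σ φ) {ψ : 𝓞 K}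
  (hψ : Ideal.span {ψ} = Ideal.relNorm (𝓞 K) w.asIdeal)
  (hψ' : ∀ T : Pt Kb, Tr V.valuation T → φ T = sm Kb ψ T)
include hV hG hσ hφ hψ hψ'

/-- the multiplication by `ψ` lifts the Frobenius map on the abscissas -/
theorem frob_all {X : Pt Kb} (hX : ¬ KrC V.valuation D X) :
    ¬ KrC V.valuation D (sm Kb ψ X) ∧
      V.valuation (cx D (sm Kb ψ X) - cx D X ^ Ideal.absNorm w.asIdeal) < 1 := by
  have hVP : Abv (w.under (𝓞 K)) V := abv_res hV
  obtain ⟨hrel, hnw, hf0⟩ := rel_w w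
  rw [hrel] at hψ
  obtain ⟨κ, e, hκ, he, hfr⟩ := lift_pow hVP hG hf0 hψ
  rw [← hnw] at hfr
  have hpow : ∀ Y : Pt Kb, ¬ KrC V.valuation D Y →
      V.valuation (cx D Y ^ Ideal.absNorm w.asIdeal) ≤ 1 := by
    intro Y hY
    rw [map_pow]
    exact pow_le_one' (not_krc hY).2 _
  have hA : ∀ Y : Pt Kb, Tr V.valuation Y → Y ≠ 0 →
      V.valuation ((κ - 1) * cx D Y ^ Ideal.absNorm w.asIdeal + e) < 1 := by
    intro Y hY hY0
    have hk := tr_not_kr hG hY hY0
    have h1 := (hfr Y hk).2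
    have h2 := hσ _ (not_krc hk).2
    rw [← (hφ Y hY0).2.1, hψ' Y hY] at h2
    obtain ⟨c, hc⟩ : ∃ c, c = cx D Y ^ Ideal.absNorm w.asIdeal := ⟨_, rfl⟩
    rw [← hc] at h1 h2 ⊢
    have e1 : (κ - 1) * c + e = (cx D (sm Kb ψ Y) - c) -
        (cx D (sm Kb ψ Y) - (κ * c + e)) := by ring
    rw [e1]
    exact (V.valuation.map_sub _ _).trans_lt (max_lt h2 h1)
  obtain ⟨l, hl, h5, hlv⟩ := exists_prime hVP 5
  obtain ⟨l', hl', hll, hlv'⟩ := exists_prime hVP (l + 1)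
  obtain ⟨A, hA0, hAl⟩ := exists_pt_prime hl
  obtain ⟨B, hB0, hBl⟩ := exists_pt_prime hl'
  have hcop : Nat.Coprime l l' := (Nat.coprime_primes hl hl').2 (by omega)
  have hTA : Tr V.valuation A := ⟨l, hlv, hAl⟩
  have hTB : Tr V.valuation B := ⟨l', hlv', hBl⟩
  have hm : A - B ≠ 0 := by
    intro h0
    rw [sub_eq_zero] at h0
    rw [← h0] at hBl
    exact hA0 (frlb_cop hcop hAl hBl)
  have hp : A + B ≠ 0 := by
    intro h0
    have h1 : A = -B := eq_neg_of_add_eq_zero_left h0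
    have h2 : l' • A = 0 := by rw [h1, smul_neg, hBl, neg_zero]
    exact hA0 (frlb_cop hcop hAl h2)
  have hkA := tr_not_kr hG hTA hA0
  have hkB := tr_not_kr hG hTB hB0
  have hAB : V.valuation (cx D A - cx D B) = 1 := by
    rw [krc_unit hG hkA hB0 (tr_not_kr hG (tr_sub hTA hTB) hm) (tr_not_kr hG (tr_add hTA hTB) hp),
      max_eq_left (not_krc hkB).2]
  have hAq : V.valuation (cx D A ^ Ideal.absNorm w.asIdeal -
      cx D B ^ Ideal.absNorm w.asIdeal) = 1 := by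
    have h1 := frlb_frob hVP (w.asIdeal.inertiaDeg (𝓞 K)) (not_krc hkA).2 (not_krc hkB).2
    rw [← hnw] at h1
    have h2 : V.valuation ((cx D A - cx D B) ^ Ideal.absNorm w.asIdeal) = 1 := by
      rw [map_pow, hAB, one_pow]
    rw [Valuation.map_sub_swap] at h1
    rw [← h2] at h1
    rw [Valuation.map_eq_of_sub_lt _ h1, h2]
  have hκ1 : V.valuation (κ - 1) < 1 := by
    have h1 := hA A hTA hA0
    have h2 := hA B hTB hB0
    have h3 : V.valuation ((κ - 1) * (cx D A ^ Ideal.absNorm w.asIdeal -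
        cx D B ^ Ideal.absNorm w.asIdeal)) < 1 := by
      have e1 : (κ - 1) * (cx D A ^ Ideal.absNorm w.asIdeal -
          cx D B ^ Ideal.absNorm w.asIdeal) =
          ((κ - 1) * cx D A ^ Ideal.absNorm w.asIdeal + e) -
          ((κ - 1) * cx D B ^ Ideal.absNorm w.asIdeal + e) := by ring
      rw [e1]
      exact (V.valuation.map_sub _ _).trans_lt (max_lt h1 h2)
    rw [map_mul, hAq, mul_one] at h3
    exact h3
  have he1 : V.valuation e < 1 := by
    have h1 := hA A hTA hA0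
    have e1 : e = ((κ - 1) * cx D A ^ Ideal.absNorm w.asIdeal + e) -
        (κ - 1) * cx D A ^ Ideal.absNorm w.asIdeal := by ring
    rw [e1]
    refine (V.valuation.map_sub _ _).trans_lt (max_lt h1 ?_)
    rw [map_mul]
    exact mul_lt_one_of_lt_of_le hκ1 (hpow A hkA)
  refine ⟨(hfr X hX).1, ?_⟩
  have h1 := (hfr X hX).2
  have h2 := hpow X hX
  obtain ⟨c, hc⟩ : ∃ c, c = cx D X ^ Ideal.absNorm w.asIdeal := ⟨_, rfl⟩
  rw [← hc] at h1 h2 ⊢
  have e1 : cx D (sm Kb ψ X) - c =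
      (cx D (sm Kb ψ X) - (κ * c + e)) + ((κ - 1) * c + e) := by ring
  rw [e1]
  refine (V.valuation.map_add _ _).trans_lt (max_lt h1 ?_)
  refine (V.valuation.map_add _ _).trans_lt (max_lt ?_ he1)
  rw [map_mul]
  exact mul_lt_one_of_lt_of_le hκ1 h2

include hD

/-- the Frobenius automorphism is the multiplication by `ψ` on all the torsion prime to `V` -/
theorem frob_ta {T : Pt Kb} (hT : Ta V.valuation T) : φ T = sm Kb ψ T := by
  have hVP : Abv (w.under (𝓞 K)) V := abv_res hV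
  have hpm : ∀ X : Pt Kb, Ta V.valuation X → φ X = sm Kb ψ X ∨ φ X = -sm Kb ψ X := by
    intro X hX
    rcases eq_or_ne X 0 with h0 | h0
    · left
      rw [h0, map_zero, map_zero]
    have hk : ¬ KrC V.valuation D X := fun h1 => h0 (ta_kr hVP hG hX h1)
    have hXσ : Ta V.valuation (φ X) := trp_ta hD hφ hX
    have hkσ : ¬ KrC V.valuation D (φ X) :=
      fun h1 => (hφ X h0).1 (ta_kr hVP hG hXσ h1)
    obtain ⟨h1, h2⟩ := frob_all hV hG hσ hφ hψ hψ' hk
    have h3 : V.valuation (cx D (φ X) - cx D (sm Kb ψ X)) < 1 := by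
      have h4 := hσ _ (not_krc hk).2
      rw [← (hφ X h0).2.1] at h4
      have e2 : ∀ a b c : Kb, a - b = (a - c) - (b - c) := fun a b c => by ring
      rw [e2 _ _ (cx D X ^ Ideal.absNorm w.asIdeal)]
      exact (V.valuation.map_sub _ _).trans_lt (max_lt h4 h2)
    rcases krc_of_x hG hkσ h1 h3 with h4 | h4
    · left
      exact sub_eq_zero.1 (ta_kr hVP hG (ta_sub hXσ (ta_sm hX _)) h4)
    · right
      exact eq_neg_of_add_eq_zero_left (ta_kr hVP hG (ta_add hXσ (ta_sm hX _)) h4)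
  rcases hpm T hT with h1 | h1
  · exact h1
  obtain ⟨l, hl, h5, hlv⟩ := exists_prime hVP 5
  obtain ⟨A, hA0, hAl⟩ := exists_pt_prime hl
  have hTA : Tr V.valuation A := ⟨l, hlv, hAl⟩
  have h2 := hψ' A hTA
  rcases hpm (A + T) (ta_add (tr_ta hTA) hT) with h3 | h3
  · rw [map_add, map_add, h2] at h3
    exact add_left_cancel h3
  · exfalso
    rw [map_add, map_add, h2, h1, neg_add] at h3
    have h4 := add_right_cancel h3
    have h6 : 2 • sm Kb ψ A = 0 := by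
      rw [two_nsmul]
      nth_rewrite 1 [h4]
      exact neg_add_cancel _
    have h7 : l • sm Kb ψ A = 0 := by
      rw [← map_nsmul, hAl, map_zero]
    have h8 := frlb_cop ((Nat.coprime_primes Nat.prime_two hl).2 (by omega)) h6 h7
    rw [h8] at h2
    exact hA0 (trp_inj hφ h2)

end Pool.Agent.Lib.MP_1a91b9_nuX.PG
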