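import Mathlib

/-!
# Unramified prime ideals in Galois extensions of number fields

PROOFS. `G = Gal(M/F)` acts on `𝓞 M` with `Algebra.IsInvariant (𝓞 F) (𝓞 M) G` and `IsGaloisGroup G (𝓞 F) (𝓞 M)` (instances in Mathlib; see the use in nuX/GL/DescU.lean). `p = Q.asIdeal.under (𝓞 F) = (Q.under (𝓞 F)).asIdeal` (by `rfl`). `Q.asIdeal.IsPrime`, `IsMaximal` (`Q.isMaximal`); `Finite (𝓞 M ⧸ Q.asIdeal)` (`Ideal.finiteQuotientOfFreeOfNeBot _ Q.ne_bot`).
* `exists_frob`: `IsArithFrobAt.exists_of_isInvariant (𝓞 F) G Q.asIdeal` (Mathlib/RingTheory/Frobenius.lean); `IsArithFrobAt (𝓞 F) τ Q.asIdeal` unfolds to `∀ x, τ • x - x ^ Nat.card (𝓞 F ⧸ Q.asIdeal.under (𝓞 F)) ∈ Q.asIdeal`, `Ideal.absNorm_apply`, `Submodule.cardQuot_apply`.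
* `norm_Q`: `Ideal.absNorm_pow_inertiaDeg` (see its use in nuX/LF/EulN.lean).
* `ram_one`: `Ideal.card_inertia_eq_ramificationIdxIn` and `Ideal.ramificationIdxIn_eq_ramificationIdx` as in nuX/GL/DescU.lean; the inertia group is trivial by `hin`, so its cardinality is `1`.
* `mem_pow_of_unr`: `intValuation_liesOver` (Mathlib/NumberTheory/RamificationInertia/Valuation.lean): the valuation of `x` at `Q` is the `e`-th power of the valuation at `p` with `e = 1`; membership in `Q.asIdeal ^ n` is `Q.intValuation x ≤ exp (-n)` (`IsDedekindDomain.HeightOneSpectrum.intValuation_le_pow_iff_mem`).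
  Alternative: if `x ∉ p ^ n`, `x ≠ 0`: `span {x} = p ^ k * J` with `k < n`, `¬ J ≤ p`; `p.map = Q * R` with `¬ R ≤ Q` (`e = 1`), so `(span {x}).map = Q ^ k * (R ^ k * J.map)` with the second factor not in `Q`, so `x ∉ Q ^ n`.
* `frob_pow`: `q = N p`, `f = inertiaDeg`: `τ ^ k • x - x ^ (q ^ k) ∈ Q` for all `k` (induction; `τ • Q = Q`, in the form: `x ∈ Q → τ • x ∈ Q`, which follows from `hτ` with `q ≠ 0`); for `k = f`: `x ^ (q ^ f) - x ∈ Q` because `𝓞 M ⧸ Q` is a finite field with `N Q = q ^ f` elements (`norm_Q`; `FiniteField.pow_card`, `Ideal.Quotient.field`). So `τ ^ f` is in the inertia: `hin`.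
* `frob_order`: `orderOf τ ∣ f` by `frob_pow`; let `k = orderOf τ > 0`: `x - x ^ (q ^ k) ∈ Q` for all `x`, so the polynomial `X ^ (q ^ k) - X` has at least `N Q = q ^ f` roots in the field `𝓞 M ⧸ Q`, so `q ^ f ≤ q ^ k` (see `locc_card` in nuX/GL/LocC.lean: from `∀ x, x - x ^ q ∈ w.asIdeal` it deduces `absNorm ≤ q`), so `f ≤ k` (`1 < q`), and `k ∣ f` gives `k = f`.
* `card_stab`: `Ideal.card_stabilizer_eq_card_inertia_mul_finrank (G := G) p Q.asIdeal` (Mathlib/NumberTheory/RamificationInertia/Galois.lean), the inertia has one element.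
-/

set_option autoImplicit false

namespace Pool.Agent.Lib.MP_1a91b9_nuX.PG

open NumberField IsDedekindDomain
open scoped Pointwise

section
variable {F M : Type*} [Field F] [NumberField F] [Field M] [NumberField M] [Algebra F M]
  [IsGalois F M] (Q : HeightOneSpectrum (𝓞 M))

omit [NumberField F] [Algebra F M] [IsGalois F M] in
private theorem gala_card {q : ℕ} (hq : 1 < q) (h : ∀ x : 𝓞 M, x - x ^ q ∈ Q.asIdeal) :
    Ideal.absNorm Q.asIdeal ≤ q := by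
  classical
  have hp : Q.asIdeal.IsPrime := Q.isPrime
  have hmax : Q.asIdeal.IsMaximal := Q.isMaximal
  let _ : Field (𝓞 M ⧸ Q.asIdeal) := Ideal.Quotient.field Q.asIdeal
  have hfin : Finite (𝓞 M ⧸ Q.asIdeal) := Ideal.finiteQuotientOfFreeOfNeBot _ Q.ne_bot
  have := Fintype.ofFinite (𝓞 M ⧸ Q.asIdeal)
  have hne : (Polynomial.X ^ q - Polynomial.X : Polynomial (𝓞 M ⧸ Q.asIdeal)) ≠ 0 :=
    FiniteField.X_pow_card_sub_X_ne_zero _ hq
  have h1 : ∀ y : 𝓞 M ⧸ Q.asIdeal, y ^ q = y := by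
    intro y
    obtain ⟨x, rfl⟩ := Ideal.Quotient.mk_surjective y
    rw [← map_pow]
    exact ((Ideal.Quotient.eq).2 (h x)).symm
  have h2 : (Finset.univ : Finset (𝓞 M ⧸ Q.asIdeal)).card ≤
      (Polynomial.X ^ q - Polynomial.X : Polynomial (𝓞 M ⧸ Q.asIdeal)).natDegree := by
    apply Polynomial.card_le_degree_of_subset_roots
    intro y _
    rw [Polynomial.mem_roots hne, Polynomial.IsRoot.def, Polynomial.eval_sub,
      Polynomial.eval_pow, Polynomial.eval_X, h1, sub_self]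
  rw [FiniteField.X_pow_card_sub_X_natDegree_eq _ hq, Finset.card_univ,
    ← Nat.card_eq_fintype_card] at h2
  rw [Ideal.absNorm_apply, Submodule.cardQuot_apply]
  exact h2

omit [NumberField F] [Algebra F M] [IsGalois F M] in
private theorem gala_fermat (x : 𝓞 M) : x ^ Ideal.absNorm Q.asIdeal - x ∈ Q.asIdeal := by
  have hp : Q.asIdeal.IsPrime := Q.isPrime
  have hmax : Q.asIdeal.IsMaximal := Q.isMaximal
  let _ : Field (𝓞 M ⧸ Q.asIdeal) := Ideal.Quotient.field Q.asIdeal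
  have hfin : Finite (𝓞 M ⧸ Q.asIdeal) := Ideal.finiteQuotientOfFreeOfNeBot _ Q.ne_bot
  have := Fintype.ofFinite (𝓞 M ⧸ Q.asIdeal)
  have h1 := FiniteField.pow_card (Ideal.Quotient.mk Q.asIdeal x)
  rw [← Nat.card_eq_fintype_card, ← map_pow] at h1
  rw [Ideal.absNorm_apply, Submodule.cardQuot_apply]
  exact (Ideal.Quotient.eq).1 h1

omit [IsGalois F M] in
private theorem gala_inertia (hin : ∀ τ : Gal(M/F), (∀ x : 𝓞 M, τ • x - x ∈ Q.asIdeal) → τ = 1) :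
    Q.asIdeal.inertia Gal(M/F) = ⊥ := by
  rw [eq_bot_iff]
  intro τ hτ
  exact Subgroup.mem_bot.2 (hin τ hτ)

omit [IsGalois F M] in
private theorem gala_pow {q : ℕ} {τ : Gal(M/F)} (hτ : ∀ x : 𝓞 M, τ • x - x ^ q ∈ Q.asIdeal)
    (k : ℕ) (x : 𝓞 M) : τ ^ k • x - x ^ (q ^ k) ∈ Q.asIdeal := by
  induction k with
  | zero =>
    rw [pow_zero, one_smul, pow_zero, pow_one, sub_self]
    exact Q.asIdeal.zero_mem
  | succ k ih =>
    have h1 := hτ (τ ^ k • x)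
    have h2 : (τ ^ k • x) ^ q - (x ^ (q ^ k)) ^ q ∈ Q.asIdeal :=
      Q.asIdeal.mem_of_dvd (sub_dvd_pow_sub_pow _ _ q) ih
    have h3 : τ ^ (k + 1) • x - x ^ (q ^ (k + 1)) =
        (τ • (τ ^ k • x) - (τ ^ k • x) ^ q) + ((τ ^ k • x) ^ q - (x ^ (q ^ k)) ^ q) := by
      rw [pow_succ' τ k, mul_smul, pow_succ q k, pow_mul]
      ring
    rw [h3]
    exact Q.asIdeal.add_mem h1 h2

omit [IsGalois F M] in
private theorem gala_lt : 1 < Ideal.absNorm (Q.under (𝓞 F)).asIdeal := by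
  have h0 : Ideal.absNorm (Q.under (𝓞 F)).asIdeal ≠ 0 := fun h =>
    (Q.under (𝓞 F)).ne_bot (Ideal.absNorm_eq_zero_iff.1 h)
  have h1 : Ideal.absNorm (Q.under (𝓞 F)).asIdeal ≠ 1 := fun h =>
    (Q.under (𝓞 F)).isPrime.ne_top (Ideal.absNorm_eq_one_iff.1 h)
  omega

/-- a Frobenius automorphism exists -/
theorem exists_frob : ∃ τ : Gal(M/F), ∀ x : 𝓞 M,
    τ • x - x ^ Ideal.absNorm (Q.under (𝓞 F)).asIdeal ∈ Q.asIdeal := by
  have hp : Q.asIdeal.IsPrime := Q.isPrime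
  have hfin : Finite (𝓞 M ⧸ Q.asIdeal) := Ideal.finiteQuotientOfFreeOfNeBot _ Q.ne_bot
  obtain ⟨τ, hτ⟩ := IsArithFrobAt.exists_of_isInvariant (𝓞 F) Gal(M/F) Q.asIdeal
  refine ⟨τ, fun x => ?_⟩
  rw [Ideal.absNorm_apply, Submodule.cardQuot_apply]
  exact hτ x

theorem norm_Q : Ideal.absNorm Q.asIdeal =
    Ideal.absNorm (Q.under (𝓞 F)).asIdeal ^ Q.asIdeal.inertiaDeg (𝓞 F) := by
  have hp : Q.asIdeal.IsPrime := Q.isPrime
  have hl : Q.asIdeal.LiesOver (Q.under (𝓞 F)).asIdeal := ⟨rfl⟩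
  exact (Ideal.absNorm_pow_inertiaDeg (Q.under (𝓞 F)).asIdeal Q.asIdeal).symm

variable (hin : ∀ τ : Gal(M/F), (∀ x : 𝓞 M, τ • x - x ∈ Q.asIdeal) → τ = 1)
include hin

/-- the ramification index is `1` -/
theorem ram_one : Q.asIdeal.ramificationIdx (𝓞 F) = 1 := by
  have hp : Q.asIdeal.IsPrime := Q.isPrime
  have hfin1 : Finite (𝓞 F ⧸ Q.asIdeal.under (𝓞 F)) :=
    Ideal.finiteQuotientOfFreeOfNeBot _ (Q.under (𝓞 F)).ne_bot
  have h1 := Ideal.card_inertia_eq_ramificationIdxIn (G := Gal(M/F)) (Q.asIdeal.under (𝓞 F))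
    Q.asIdeal
  rw [Ideal.ramificationIdxIn_eq_ramificationIdx _ Q.asIdeal Gal(M/F)] at h1
  rw [← h1, gala_inertia Q hin]
  exact Subgroup.card_bot

/-- the powers of the prime ideal -/
theorem mem_pow_of_unr (x : 𝓞 F) (n : ℕ) (h : algebraMap (𝓞 F) (𝓞 M) x ∈ Q.asIdeal ^ n) :
    x ∈ (Q.under (𝓞 F)).asIdeal ^ n := by
  have hp : Q.asIdeal.IsPrime := Q.isPrime
  have hl : Q.asIdeal.LiesOver (Q.under (𝓞 F)).asIdeal := ⟨rfl⟩
  have h1 := IsDedekindDomain.HeightOneSpectrum.intValuation_liesOver (Q.under (𝓞 F)) Q x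
  rw [Ideal.ramificationIdx'_eq_ramificationIdx _ _ (Q.under (𝓞 F)).ne_bot, ram_one Q hin,
    pow_one] at h1
  rw [← HeightOneSpectrum.intValuation_le_pow_iff_mem, h1,
    HeightOneSpectrum.intValuation_le_pow_iff_mem]
  exact h

variable {τ : Gal(M/F)}
  (hτ : ∀ x : 𝓞 M, τ • x - x ^ Ideal.absNorm (Q.under (𝓞 F)).asIdeal ∈ Q.asIdeal)
include hτ

/-- the order of the Frobenius automorphism -/
theorem frob_pow : τ ^ Q.asIdeal.inertiaDeg (𝓞 F) = 1 := by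
  refine hin _ fun x => ?_
  have h1 := gala_pow Q hτ (Q.asIdeal.inertiaDeg (𝓞 F)) x
  rw [← norm_Q] at h1
  have h2 := Q.asIdeal.add_mem h1 (gala_fermat Q x)
  rw [sub_add_sub_cancel] at h2
  exact h2

theorem frob_order : orderOf τ = Q.asIdeal.inertiaDeg (𝓞 F) := by
  have hp : Q.asIdeal.IsPrime := Q.isPrime
  have h1 : orderOf τ ∣ Q.asIdeal.inertiaDeg (𝓞 F) :=
    orderOf_dvd_of_pow_eq_one (frob_pow Q hin hτ)
  have h2 : 0 < orderOf τ := orderOf_pos τ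
  have h3 : 0 < Q.asIdeal.inertiaDeg (𝓞 F) := Ideal.inertiaDeg_pos Q.asIdeal (𝓞 F)
  have hq := gala_lt (F := F) Q
  have h4 : Ideal.absNorm Q.asIdeal ≤
      Ideal.absNorm (Q.under (𝓞 F)).asIdeal ^ orderOf τ := by
    refine gala_card Q (Nat.one_lt_pow h2.ne' hq) fun x => ?_
    have h5 := gala_pow Q hτ (orderOf τ) x
    rw [pow_orderOf_eq_one, one_smul] at h5
    exact h5
  rw [norm_Q (F := F) Q] at h4
  have h5 : Q.asIdeal.inertiaDeg (𝓞 F) ≤ orderOf τ := (Nat.pow_le_pow_iff_right hq).1 h4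
  exact le_antisymm (Nat.le_of_dvd h3 h1) h5

/-- the order of the decomposition group -/
theorem card_stab : Nat.card (MulAction.stabilizer Gal(M/F) Q.asIdeal) = orderOf τ := by
  have hp : Q.asIdeal.IsPrime := Q.isPrime
  have hfin1 : Finite (𝓞 F ⧸ Q.asIdeal.under (𝓞 F)) :=
    Ideal.finiteQuotientOfFreeOfNeBot _ (Q.under (𝓞 F)).ne_bot
  rw [Ideal.card_stabilizer_eq_card_inertia_mul_finrank (G := Gal(M/F))
    (Q.asIdeal.under (𝓞 F)) Q.asIdeal, gala_inertia Q hin, Subgroup.card_bot, one_mul]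
  exact (frob_order Q hin hτ).symm

end

end Pool.Agent.Lib.MP_1a91b9_nuX.PG
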