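import Mathlib

/-!
# Norms of elements close to elements of the base field at one prime ideal

PROOFS.
* `lem_c`: `Ideal.isCoprime_iff_exists`: `c ∈ Y₂`, `d ∈ f` with `c + d = 1`; `c - 1 = -d ∈ f`; `c ≠ 0` because otherwise `1 ∈ f`. `(x - y) * c ∈ Y₁ * f * Y₂ = span {y} * f`, so `(x - y) * c = y * e` with `e ∈ f` (`Ideal.mem_span_singleton_mul`). `b = c + e`: `x * c = (x - y) * c + y * c = y * (c + e)`.
* `norm_prod`: `Algebra.algebraMap_intNorm` (the image in `M` is `Algebra.norm F z`) and `Algebra.norm_eq_prod_automorphisms`; both sides are in `𝓞 M`, compare their images in `M` (`RingOfIntegers.coe_injective` or `RingOfIntegers.ext`); `((σ • z : 𝓞 M) : M) = σ z` by `rfl`; `map_prod`.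
* `norm_one`: let `J = I.map (algebraMap (𝓞 F) (𝓞 M))`. Every `σ` maps `J` to `J` (`σ • algebraMap a = algebraMap a`), so `σ • z - 1 = σ • (z - 1) ∈ J`; a product of elements congruent to `1` modulo `J` is congruent to `1` (`Ideal.Quotient.eq`, `map_prod` in the quotient, `Finset.prod_eq_one`). So `algebraMap (intNorm z - 1) ∈ J` (`norm_prod`), and
  `J.comap (algebraMap _ _) = I`: `Ideal.comap_map_eq_self_of_faithfullyFlat` (or `Ideal.comap_map_of_...`; `𝓞 M` is free of finite rank and faithfully flat over `𝓞 F`; look for an existing use in nuT or nuG with grep `faithfullyFlat`, or use `Ideal.relNorm`/`Ideal.spanNorm` facts).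
* `norm_cong`: `S = Finset.univ.filter (fun σ => σ • Q.asIdeal = Q.asIdeal)` has `Nat.card (stabilizer)` elements (`MulAction.mem_stabilizer_iff`, `Nat.card_eq_fintype_card`, `Fintype.card_subtype`). In the quotient by `Q.asIdeal ^ n`: for `σ ∈ S`: `σ • z - a = σ • (z - a) ∈ σ • Q.asIdeal ^ n = Q.asIdeal ^ n` (`Ideal.pointwise_smul_def`, `Ideal.mem_pointwise_smul_iff_inv_smul_mem`, `smul_pow'`/`Ideal.map_pow`);
  for `σ ∉ S`: `σ • z - 1 = σ • (z - 1)`, `z - 1 ∈ (σ⁻¹ • Q.asIdeal) ^ n`, so `σ • (z - 1) ∈ Q.asIdeal ^ n`. So `∏ σ, σ • z = ∏ over S * ∏ over the complement = a ^ card S * 1` in the quotient (`Finset.prod_filter_mul_prod_filter_not`, `Finset.prod_const`); `norm_prod`.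
  (`σ • (algebraMap (𝓞 F) (𝓞 M) a) = algebraMap (𝓞 F) (𝓞 M) a`: `smul_algebraMap` or `RingOfIntegers.ext (σ.commutes _)`.)
* `exists_z`: `J = (∏ σ ∈ univ.filter (σ • Q ≠ Q), (σ⁻¹ • Q.asIdeal) ^ n) * I`. `IsCoprime (Q.asIdeal ^ n) J`: `Q.asIdeal` is maximal; two different maximal ideals are coprime (`Ideal.isCoprime_of_isMaximal` or `Ideal.isCoprime_iff_sup_eq` and maximality); `σ⁻¹ • Q.asIdeal` is maximal (it is the image under an automorphism: `Ideal.pointwise_smul_eq_comap`..., or: it is prime and not zero)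
  and different from `Q.asIdeal` (if `σ⁻¹ • Q = Q` then `σ • Q = Q`); `I` is not contained in `Q.asIdeal`, so `I ⊔ Q.asIdeal = ⊤`; `IsCoprime.prod_right`, `IsCoprime.pow`, `IsCoprime.mul_right`. Take `x ∈ Q.asIdeal ^ n`, `y ∈ J` with `x + y = 1` and `z = a * y + x`: `z - a = x (1 - a)`, `z - 1 = y (a - 1)`.
-/

set_option autoImplicit false

namespace Pool.Agent.Lib.MP_1a91b9_nuX.PG

open NumberField IsDedekindDomain
open scoped Pointwise

/-- comparison of two elements which are close at the divisors of `f` -/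
theorem lem_c {F : Type*} [Field F] [NumberField F] {x y : 𝓞 F} {Y₁ Y₂ f : Ideal (𝓞 F)}
    (hf : f ≠ ⊤) (hy : Ideal.span {y} = Y₁ * Y₂) (hc : IsCoprime Y₂ f) (hxy : x - y ∈ Y₁ * f) :
    ∃ b c : 𝓞 F, c ≠ 0 ∧ b - 1 ∈ f ∧ c - 1 ∈ f ∧ x * c = y * b := by
  obtain ⟨c, hc2, d, hd, hcd⟩ := Ideal.isCoprime_iff_exists.mp hc
  have hd' : c - 1 = -d := by linear_combination hcd
  have h1 : (x - y) * c ∈ Ideal.span {y} * f := by
    have h2 : (x - y) * c ∈ Y₁ * f * Y₂ := Ideal.mul_mem_mul hxy hc2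
    rw [hy]
    have h3 : Y₁ * f * Y₂ = Y₁ * Y₂ * f := by ring
    rw [h3] at h2
    exact h2
  obtain ⟨e, he, hye⟩ := Ideal.mem_span_singleton_mul.mp h1
  refine ⟨c + e, c, ?_, ?_, ?_, ?_⟩
  · intro h0
    refine hf ((Ideal.eq_top_iff_one f).mpr ?_)
    rw [h0, zero_add] at hcd
    rw [← hcd]
    exact hd
  · have h4 : c + e - 1 = -d + e := by linear_combination hd'
    rw [h4]
    exact f.add_mem (f.neg_mem hd) he
  · rw [hd']
    exact f.neg_mem hd
  · linear_combination -hye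

/-- the Chinese remainder theorem -/
private theorem galb_z {R : Type*} [CommRing R] (A B I : Ideal R) (h : IsCoprime A (B * I))
    (a : R) : ∃ z : R, z - a ∈ A ∧ z - 1 ∈ B ∧ z - 1 ∈ I := by
  obtain ⟨x, hx, y, hy, hxy⟩ := Ideal.isCoprime_iff_exists.mp h
  have hyB : y ∈ B := Ideal.mul_le_left hy
  have hyI : y ∈ I := Ideal.mul_le_right hy
  have h1 : a * y + x - a = (1 - a) * x := by linear_combination a * hxy
  have h2 : a * y + x - 1 = (a - 1) * y := by linear_combination hxy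
  refine ⟨a * y + x, ?_, ?_, ?_⟩
  · rw [h1]
    exact Ideal.mul_mem_left _ _ hx
  · rw [h2]
    exact Ideal.mul_mem_left _ _ hyB
  · rw [h2]
    exact Ideal.mul_mem_left _ _ hyI

/-- elements of a product of ideals -/
private theorem galb_mem_prod {R ι : Type*} [CommRing R] (s : Finset ι) (B : ι → Ideal R) {y : R}
    (h : y ∈ ∏ i ∈ s, B i) (i : ι) (hi : i ∈ s) : y ∈ B i := by
  have h1 : B i ∣ ∏ i ∈ s, B i := Finset.dvd_prod_of_mem B hi
  exact Ideal.le_of_dvd h1 h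

/-- a product of elements congruent to `a` or to `1` -/
private theorem galb_prod {R ι : Type*} [CommRing R] (J : Ideal R) (s : Finset ι) (f : ι → R)
    (P : ι → Prop) [DecidablePred P] (a : R) (h1 : ∀ i ∈ s, P i → f i - a ∈ J)
    (h2 : ∀ i ∈ s, ¬ P i → f i - 1 ∈ J) : (∏ i ∈ s, f i) - a ^ (s.filter P).card ∈ J := by
  rw [← Ideal.Quotient.eq, map_prod, ← Finset.prod_filter_mul_prod_filter_not s P, map_pow]
  have h3 : ∏ i ∈ s.filter P, Ideal.Quotient.mk J (f i) =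
      Ideal.Quotient.mk J a ^ (s.filter P).card := by
    refine Finset.prod_eq_pow_card fun i hi => ?_
    rw [Finset.mem_filter] at hi
    exact Ideal.Quotient.eq.mpr (h1 i hi.1 hi.2)
  have h4 : ∏ i ∈ s.filter (fun i => ¬ P i), Ideal.Quotient.mk J (f i) = 1 := by
    refine Finset.prod_eq_one fun i hi => ?_
    rw [Finset.mem_filter] at hi
    have h5 := Ideal.Quotient.eq.mpr (h2 i hi.1 hi.2)
    rw [map_one] at h5
    exact h5
  rw [h3, h4, mul_one]

section
variable {F M : Type*} [Field F] [NumberField F] [Field M] [NumberField M] [Algebra F M]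
  [IsGalois F M]

/-- the norm is the product of the conjugates -/
theorem norm_prod (z : 𝓞 M) : algebraMap (𝓞 F) (𝓞 M) (Algebra.intNorm (𝓞 F) (𝓞 M) z) =
    ∏ σ : Gal(M/F), σ • z := by
  refine RingOfIntegers.coe_injective (K := M) ?_
  rw [map_prod, ← IsScalarTower.algebraMap_apply (𝓞 F) (𝓞 M) M,
    IsScalarTower.algebraMap_apply (𝓞 F) F M, Algebra.algebraMap_intNorm (K := F) (L := M),
    Algebra.norm_eq_prod_automorphisms]
  exact Finset.prod_congr rfl fun σ _ => rfl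

/-- elements of the base ring are fixed -/
private theorem galb_fix (σ : Gal(M/F)) (a : 𝓞 F) :
    σ • algebraMap (𝓞 F) (𝓞 M) a = algebraMap (𝓞 F) (𝓞 M) a := by
  refine RingOfIntegers.coe_injective (K := M) ?_
  exact σ.commutes (a : F)

/-- the norm of an element congruent to `1` -/
theorem norm_one {I : Ideal (𝓞 F)} {z : 𝓞 M} (h : z - 1 ∈ I.map (algebraMap (𝓞 F) (𝓞 M))) :
    Algebra.intNorm (𝓞 F) (𝓞 M) z - 1 ∈ I := by
  have h1 : ∀ (σ : Gal(M/F)) (x : 𝓞 M), x ∈ I.map (algebraMap (𝓞 F) (𝓞 M)) →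
      σ • x ∈ I.map (algebraMap (𝓞 F) (𝓞 M)) := by
    intro σ x hx
    have h2 : I.map (algebraMap (𝓞 F) (𝓞 M)) ≤ (I.map (algebraMap (𝓞 F) (𝓞 M))).comap
        (MulSemiringAction.toRingHom Gal(M/F) (𝓞 M) σ) := by
      rw [Ideal.map_le_iff_le_comap]
      intro a ha
      show σ • algebraMap (𝓞 F) (𝓞 M) a ∈ I.map (algebraMap (𝓞 F) (𝓞 M))
      rw [galb_fix]
      exact Ideal.mem_map_of_mem _ ha
    exact h2 hx
  have h3 : (∏ σ : Gal(M/F), σ • z) -
      1 ^ ((Finset.univ : Finset Gal(M/F)).filter fun _ => True).card ∈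
      I.map (algebraMap (𝓞 F) (𝓞 M)) := by
    refine galb_prod _ _ _ _ 1 (fun σ _ _ => ?_) fun σ _ h => absurd trivial h
    have h4 := h1 σ _ h
    rw [smul_sub, smul_one] at h4
    exact h4
  rw [one_pow, ← norm_prod, ← map_one (algebraMap (𝓞 F) (𝓞 M)), ← map_sub] at h3
  have h5 : Algebra.intNorm (𝓞 F) (𝓞 M) z - 1 ∈
      (I.map (algebraMap (𝓞 F) (𝓞 M))).comap (algebraMap (𝓞 F) (𝓞 M)) := h3
  rw [Ideal.comap_map_eq_self_of_faithfullyFlat] at h5
  exact h5

variable (Q : HeightOneSpectrum (𝓞 M))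

/-- the norm of an element which is close to `a` at `Q` and close to `1` at the other conjugates of `Q` -/
theorem norm_cong (a : 𝓞 F) (z : 𝓞 M) (n : ℕ)
    (h1 : z - algebraMap (𝓞 F) (𝓞 M) a ∈ Q.asIdeal ^ n)
    (h2 : ∀ σ : Gal(M/F), σ • Q.asIdeal ≠ Q.asIdeal → z - 1 ∈ (σ⁻¹ • Q.asIdeal) ^ n) :
    algebraMap (𝓞 F) (𝓞 M) (Algebra.intNorm (𝓞 F) (𝓞 M) z -
      a ^ Nat.card (MulAction.stabilizer Gal(M/F) Q.asIdeal)) ∈ Q.asIdeal ^ n := by
  classical
  have hcard : Nat.card (MulAction.stabilizer Gal(M/F) Q.asIdeal) =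
      ((Finset.univ : Finset Gal(M/F)).filter fun σ => σ • Q.asIdeal = Q.asIdeal).card := by
    rw [Nat.subtype_card]
    intro σ
    rw [Finset.mem_filter, MulAction.mem_stabilizer_iff]
    exact ⟨fun h => h.2, fun h => ⟨Finset.mem_univ _, h⟩⟩
  rw [map_sub, map_pow, norm_prod, hcard]
  refine galb_prod _ _ _ _ _ (fun σ _ hσ => ?_) fun σ _ hσ => ?_
  · have h3 := Ideal.smul_mem_pointwise_smul σ _ _ h1
    rw [smul_pow', hσ, smul_sub, galb_fix] at h3
    exact h3
  · have h3 := Ideal.smul_mem_pointwise_smul σ _ _ (h2 σ hσ)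
    rw [smul_pow', smul_inv_smul, smul_sub, smul_one] at h3
    exact h3

/-- such elements exist -/
theorem exists_z (a : 𝓞 M) (n : ℕ) (I : Ideal (𝓞 M)) (hI : ¬ I ≤ Q.asIdeal) :
    ∃ z : 𝓞 M, z - a ∈ Q.asIdeal ^ n ∧
      (∀ σ : Gal(M/F), σ • Q.asIdeal ≠ Q.asIdeal → z - 1 ∈ (σ⁻¹ • Q.asIdeal) ^ n) ∧
      z - 1 ∈ I := by
  classical
  have hmax : Q.asIdeal.IsMaximal := Q.isMaximal
  have hcop : IsCoprime (Q.asIdeal ^ n)
      ((∏ σ ∈ (Finset.univ : Finset Gal(M/F)).filter (fun σ => σ • Q.asIdeal ≠ Q.asIdeal),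
        (σ⁻¹ • Q.asIdeal) ^ n) * I) := by
    refine IsCoprime.mul_right (IsCoprime.prod_right fun σ hσ => ?_) (IsCoprime.pow_left ?_)
    · rw [Finset.mem_filter] at hσ
      refine IsCoprime.pow ?_
      rw [Ideal.isCoprime_iff_sup_eq]
      have hp : (σ⁻¹ • Q.asIdeal).IsPrime := by
        have := Q.isPrime
        infer_instance
      have hne : σ⁻¹ • Q.asIdeal ≠ ⊥ := by
        intro h0
        refine Q.ne_bot ?_
        have h1 : σ • (σ⁻¹ • Q.asIdeal) = σ • (⊥ : Ideal (𝓞 M)) := by rw [h0]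
        rw [smul_inv_smul, Ideal.smul_bot] at h1
        exact h1
      refine Ideal.IsMaximal.coprime_of_ne hmax (hp.isMaximal hne) fun h0 => hσ.2 ?_
      have h1 : σ • Q.asIdeal = σ • (σ⁻¹ • Q.asIdeal) := by rw [← h0]
      rw [smul_inv_smul] at h1
      exact h1
    · rw [Ideal.isCoprime_iff_sup_eq]
      by_contra h0
      exact hI (le_trans le_sup_right (hmax.eq_of_le h0 le_sup_left).ge)
  obtain ⟨z, hz1, hz2, hz3⟩ := galb_z _ _ _ hcop a
  refine ⟨z, hz1, fun σ hσ => ?_, hz3⟩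
  exact galb_mem_prod _ _ hz2 σ (Finset.mem_filter.mpr ⟨Finset.mem_univ σ, hσ⟩)

end

end Pool.Agent.Lib.MP_1a91b9_nuX.PG
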