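import Pool.Agent.Lib.MP_1a91b9_nuX.PG.Defs
import Pool.Agent.Lib.MP_1a91b9_nuX.AN.Psi

/-!
# Imprimitive Hecke characters

`IDat c F ps`: `ps` is a Hecke character of `F` of the type of the curve, which is zero at all the places above `c : 𝓞 K`. The
character `psi F` of the curve over `F` satisfies `IDat HC.f F (psi F)`; for a multiple `c` of `HC.f` the character
`psi F` made zero above `c` satisfies `IDat c F`. The same element `c` is used for all the fields.
-/

set_option autoImplicit false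

namespace Pool.Agent.Lib.MP_1a91b9_nuX.PG

open NumberField IsDedekindDomain WeierstrassCurve Pool.Agent.Lib.MP_1a91b9_nuT
  Pool.Agent.Lib.MP_1a91b9_nt Pool.Agent.Lib.MP_1a91b9_nuG
open Pool.Agent.Lib.MP_1a91b9_nuT.S4 (nK Lf)

variable [CD] [HC]

/-- a Hecke character of `F` which is zero at all the places above `c` -/
structure IDat (c : 𝓞 K) (F : Type*) [Field F] [NumberField F] [Algebra K F]
    (ps : Ideal (𝓞 F) → 𝓞 K) : Prop where
  ne : c ≠ 0
  dvd : (HC.f : 𝓞 K) ∣ c
  one : ps 1 = 1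
  mul : ∀ I J : Ideal (𝓞 F), ps (I * J) = ps I * ps J
  span : ∀ I : Ideal (𝓞 F), IsCoprime I (Ideal.span {up c F}) →
    Ideal.span {ps I} = Ideal.relNorm (𝓞 K) I
  zero : ∀ I : Ideal (𝓞 F), ¬ IsCoprime I (Ideal.span {up c F}) → ps I = 0
  ray : ∀ a : 𝓞 F, a - 1 ∈ Ideal.span {up c F} → ps (Ideal.span {a}) = nK a

/-- the character over a larger field -/
noncomputable def pu (F F' : Type*) [Field F] [NumberField F] [Field F'] [NumberField F']
    [Algebra F F'] (ps : Ideal (𝓞 F) → 𝓞 K) (I : Ideal (𝓞 F')) : 𝓞 K :=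
  ps (Ideal.relNorm (𝓞 F) I)

/-- the L-series of the conjugate character has an entire continuation which is not zero at `1` -/
def LG {F : Type*} [Field F] [NumberField F] (ps : Ideal (𝓞 F) → 𝓞 K) : Prop :=
  ∃ L : ℂ → ℂ, Differentiable ℂ L ∧ (∀ s : ℂ, 2 < s.re → L s = Lf (bC ps) s) ∧ L 1 ≠ 0

end Pool.Agent.Lib.MP_1a91b9_nuX.PG
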