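import Pool.Agent.Lib.MP_1a91b9_nuX.HD
import Pool.Agent.Lib.MP_1a91b9_nuT.Nrm

/-!
# Multiplicative functions on ideals with given values at the prime ideals

PROOFS. `A = 𝓞 M` (or `𝓞 F`) is a Dedekind domain, `Ideal A` is a unique factorization monoid; the prime elements are the nonzero prime ideals (`Ideal.prime_iff_isPrime`, `Ideal.prime_of_isPrime`).
* `ideal_ind`: `UniqueFactorizationMonoid.induction_on_prime J` (cases `0`, unit, `p * a` with `Prime p`); a unit ideal is `1` (`Ideal.isUnit_iff`, `Ideal.one_eq_top`); note that for `Q * J` the hypothesis `J ≠ ⊥` is available; `0 = ⊥` is `Ideal.zero_eq_bot`.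
* `psI_one`: `normalizedFactors_one`, `Multiset.map_zero`, `Multiset.prod_zero`; `(1 : Ideal _) ≠ ⊥`. `psI_mul`: if `I = ⊥` or `J = ⊥` both sides are `0` (`Ideal.mul_eq_bot`); otherwise `normalizedFactors_mul`, `Multiset.map_add`, `Multiset.prod_add`.
* `psI_prime`: `normalizedFactors_irreducible` and `normalize_eq`: the multiset is `{w.asIdeal}`; `gI g w.asIdeal = g w` (`dif_pos ⟨w.isPrime, w.ne_bot⟩`). `psI_pow`: induction with `psI_mul`, `psI_one`.
* `psI_congr`: `I = ⊥`: both are `0`. Otherwise `Multiset.map_congr`: a member `J` of `normalizedFactors I` is a prime ideal with `J ∣ I` (`prime_of_normalized_factor`, `dvd_of_mem_normalizedFactors`), so `I ≤ J` (`Ideal.dvd_iff_le`) and both values are equal.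
* `psI_zero`: `I = ⊥`: `psI_bot`. Otherwise `w.asIdeal ∣ I` (`Ideal.dvd_iff_le`), `I = w.asIdeal * J`, `psI_mul`, `psI_prime`, `zero_mul`.
* `psI_of`: `I = ⊥`: `psI_bot`, `h0`. Otherwise `ideal_ind`: `psI_mul`, `psI_prime`, `hm`.
* `psI_span`: `ideal_ind` with `p I := (∀ w, I ≤ w.asIdeal → ...) → span {psI g I} = relNorm I`: `1`: `span {1} = ⊤ = 1` and `map_one (Ideal.relNorm (𝓞 K))`; `Q * J`: `psI_mul`, `psI_prime`, `Ideal.span_singleton_mul_span_singleton`, `map_mul`; `Q * J ≤ Q` (`Ideal.mul_le_right`) and `Q * J ≤ J ≤ w` (`Ideal.mul_le_left`).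
-/

set_option autoImplicit false

namespace Pool.Agent.Lib.MP_1a91b9_nuX.PG

open NumberField IsDedekindDomain Pool.Agent.Lib.MP_1a91b9_nuT UniqueFactorizationMonoid

/-- induction over the nonzero ideals -/
theorem ideal_ind {M : Type*} [Field M] [NumberField M] {p : Ideal (𝓞 M) → Prop} (h1 : p 1)
    (hm : ∀ (Q : HeightOneSpectrum (𝓞 M)) (J : Ideal (𝓞 M)), J ≠ ⊥ → p J → p (Q.asIdeal * J))
    (J : Ideal (𝓞 M)) (hJ : J ≠ ⊥) : p J := by
  revert hJ
  refine UniqueFactorizationMonoid.induction_on_prime (P := fun J : Ideal (𝓞 M) => J ≠ ⊥ → p J) J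
    ?_ ?_ ?_
  · intro h
    exact absurd Ideal.zero_eq_bot h
  · intro x hx _
    have h2 : x = 1 := by
      rw [Ideal.isUnit_iff.1 hx, Ideal.one_eq_top]
    rw [h2]
    exact h1
  · intro a q ha hq ih _
    have ha' : a ≠ ⊥ := ha
    exact hm ⟨q, Ideal.isPrime_of_prime hq, hq.ne_zero⟩ a ha' (ih ha')

variable [CD]

section
variable {F : Type*} [Field F] [NumberField F] (g g' : HeightOneSpectrum (𝓞 F) → 𝓞 K)

open Classical in
/-- the values at the prime ideals -/
noncomputable def gI (I : Ideal (𝓞 F)) : 𝓞 K :=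
  if h : I.IsPrime ∧ I ≠ ⊥ then g ⟨I, h.1, h.2⟩ else 1

open Classical in
/-- the multiplicative function with the value `g w` at the prime ideal `w` -/
noncomputable def psI (I : Ideal (𝓞 F)) : 𝓞 K :=
  if I = ⊥ then 0 else ((normalizedFactors I).map (gI g)).prod

theorem psI_bot : psI g (⊥ : Ideal (𝓞 F)) = 0 := by
  unfold psI
  rw [if_pos rfl]

private theorem psi_of_ne {I : Ideal (𝓞 F)} (hI : I ≠ ⊥) :
    psI g I = ((normalizedFactors I).map (gI g)).prod := by
  unfold psI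
  rw [if_neg hI]

theorem psI_one : psI g (1 : Ideal (𝓞 F)) = 1 := by
  rw [psi_of_ne g (I := 1) (fun h => one_ne_zero h), normalizedFactors_one, Multiset.map_zero,
    Multiset.prod_zero]

theorem psI_mul (I J : Ideal (𝓞 F)) : psI g (I * J) = psI g I * psI g J := by
  by_cases hI : I = ⊥
  · rw [hI, Ideal.bot_mul, psI_bot, zero_mul]
  by_cases hJ : J = ⊥
  · rw [hJ, Ideal.mul_bot, psI_bot, mul_zero]
  have hIJ : I * J ≠ ⊥ := by
    intro h
    rcases Ideal.mul_eq_bot.1 h with h | h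
    · exact hI h
    · exact hJ h
  rw [psi_of_ne g hIJ, psi_of_ne g hI, psi_of_ne g hJ, normalizedFactors_mul hI hJ,
    Multiset.map_add, Multiset.prod_add]

theorem psI_prime (w : HeightOneSpectrum (𝓞 F)) : psI g w.asIdeal = g w := by
  rw [psi_of_ne g w.ne_bot, normalizedFactors_irreducible w.irreducible, normalize_eq,
    Multiset.map_singleton, Multiset.prod_singleton]
  unfold gI
  rw [dif_pos ⟨w.isPrime, w.ne_bot⟩]

theorem psI_pow (I : Ideal (𝓞 F)) (n : ℕ) : psI g (I ^ n) = psI g I ^ n := by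
  induction n with
  | zero => rw [pow_zero, pow_zero, psI_one]
  | succ n ih => rw [pow_succ, pow_succ, psI_mul, ih]

variable {g g'} in
theorem psI_congr (I : Ideal (𝓞 F))
    (h : ∀ w : HeightOneSpectrum (𝓞 F), I ≤ w.asIdeal → g w = g' w) : psI g I = psI g' I := by
  by_cases hI : I = ⊥
  · rw [hI, psI_bot, psI_bot]
  rw [psi_of_ne g hI, psi_of_ne g' hI]
  congr 1
  refine Multiset.map_congr rfl fun J hJ => ?_
  unfold gI
  by_cases hp : J.IsPrime ∧ J ≠ ⊥
  · rw [dif_pos hp, dif_pos hp]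
    exact h ⟨J, hp.1, hp.2⟩ (Ideal.dvd_iff_le.1 (dvd_of_mem_normalizedFactors hJ))
  · rw [dif_neg hp, dif_neg hp]

variable {g} in
theorem psI_zero {I : Ideal (𝓞 F)} {w : HeightOneSpectrum (𝓞 F)} (hI : I ≤ w.asIdeal)
    (hw : g w = 0) : psI g I = 0 := by
  obtain ⟨J, hJ⟩ := Ideal.dvd_iff_le.2 hI
  rw [hJ, psI_mul, psI_prime, hw, zero_mul]

/-- a multiplicative function is determined by its values at the prime ideals -/
theorem psI_of {p : Ideal (𝓞 F) → 𝓞 K} (h0 : p ⊥ = 0) (h1 : p 1 = 1)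
    (hm : ∀ I J, p (I * J) = p I * p J) (I : Ideal (𝓞 F)) : psI (fun w => p w.asIdeal) I = p I := by
  by_cases hI : I = ⊥
  · rw [hI, psI_bot, h0]
  refine ideal_ind (p := fun I => psI (fun w => p w.asIdeal) I = p I) ?_ ?_ I hI
  · rw [psI_one, h1]
  · intro Q J _ ih
    beta_reduce at ih ⊢
    rw [psI_mul, psI_prime, ih, hm]

end

/-- the ideal generated by the value -/
theorem psI_span {F : Type*} [Field F] [NumberField F] [Algebra K F]
    {g : HeightOneSpectrum (𝓞 F) → 𝓞 K} (I : Ideal (𝓞 F))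
    (h : ∀ w : HeightOneSpectrum (𝓞 F), I ≤ w.asIdeal →
      Ideal.span {g w} = Ideal.relNorm (𝓞 K) w.asIdeal) (hI : I ≠ ⊥) :
    Ideal.span {psI g I} = Ideal.relNorm (𝓞 K) I := by
  revert h
  refine ideal_ind (p := fun I : Ideal (𝓞 F) => (∀ w : HeightOneSpectrum (𝓞 F), I ≤ w.asIdeal →
      Ideal.span {g w} = Ideal.relNorm (𝓞 K) w.asIdeal) →
      Ideal.span {psI g I} = Ideal.relNorm (𝓞 K) I) ?_ ?_ I hI
  · intro _
    rw [psI_one, map_one, Ideal.span_singleton_one, Ideal.one_eq_top]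
  · intro Q J _ ih h
    rw [psI_mul, psI_prime, map_mul, ← ih fun w hw => h w (Ideal.mul_le_right.trans hw),
      ← h Q Ideal.mul_le_left, Ideal.span_singleton_mul_span_singleton]

end Pool.Agent.Lib.MP_1a91b9_nuX.PG
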