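import Pool.Agent.Lib.MP_1a91b9_nuX.PG.AutU
import Pool.Agent.Lib.MP_1a91b9_nuX.PG.Frw
import Pool.Agent.Lib.MP_1a91b9_nuX.PG.PsI
import Pool.Agent.Lib.MP_1a91b9_nuT.S4.NormPsi
import Pool.Agent.Lib.MP_1a91b9_nuT.S4.PsiProps

/-!
# The ray property for a form which becomes isomorphic to the curve over a field of division points

`AbD F D g`: the automorphisms over `F` which act trivially on the points killed by `g` have the same action in the coordinates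
`cx D`, `cy D` as in the coordinates of the curve (`D` is an isomorphism over the field `F(E[g])`).

PROOFS. `psi F I = ps (Ideal.relNorm (𝓞 K) I)`.
* `ini_ideal`: `ideal_ind` (PG/PsI.lean) with the statement of the conclusion as predicate (the hypothesis `hI` included: `(∀ w, I ≤ w.asIdeal → c ∉ ...) → ∃ σ φ ζ, ...`).
  `I = 1`: `σ = 1`, `φ = AddMonoidHom.id _` (`trp_id`), `ζ = 1`: `psI_one`, `psi_one`, `sm_one`, `gk_one`.
  `I = w * J`: `c ∉ (w.under (𝓞 K)).asIdeal` (`Ideal.mul_le_right`) and the hypothesis for `J` (`w * J ≤ J`). `σ₂, φ₂, ζ₂` for `J`. `HC.f ∉ (w.under (𝓞 K)).asIdeal` (`hc`, `Ideal.mem_of_dvd`-like: `Ideal.mul_mem_right`). `V` above `w` (`exists_abv (Ω := Kb) w`), `σ₁` with `IsFr V (N w) σ₁` (`exists_fr hV`, `Kb` is algebraic over `F`: `Algebra.IsAlgebraic.tower_top (K := K) F`),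
  `φ₁` its transport (`trp_exists hD σ₁`), `ζ₁` from `trp_unit hD`: `φ₁ T = sm ζ₁ (ga σ₁ T)`. `hp w _ V hV σ₁ _ φ₁ _ T _ : φ₁ T = sm (p w) T` for `T` in `Ta V`. `ga σ₁ T = sm (psi F w.asIdeal) T` for `T` in `Ta V`: `frv_psi hf V hV σ₁ _ (ga σ₁) (Trp 1 σ₁ (ga σ₁)) T _` (`Trp 1 σ₁ (ga σ₁)`: `cx 1 T = xc T`, `cy 1 T = yc T`, `xc_gk`, `yc_gk`, `gk_ne`; see the proof of `frv_psi` in PG/Frw.lean).
  So `sm (p w) T = sm (ζ₁ * psi F w) T` for `T` in `Tr V` (`tr_ta`), `p w = ζ₁ * psi F w.asIdeal` (`eq_of_tr (abv_res hV)`). A point `T` with `sm g T = 0` is `Ta V`: `V g = 1` because `g ∣ c`, `c ∉ w.under` (`val_one_iff (abv_res hV)`).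
  `σ = σ₁ * σ₂`, `φ = φ₁.comp φ₂` (`trp_comp`), `ζ = ζ₁ * ζ₂`: `psI_mul`, `psI_prime`, `psi_mul`; `ga (σ₁ * σ₂) T = ga σ₁ (sm (psi J) T) = sm (psi J) (ga σ₁ T) = sm (psi J) (sm (psi w) T)` (`gk_mul`, `gk_sm`); `φ₁ (φ₂ T) = sm ζ₁ (ga σ₁ (sm ζ₂ (ga σ₂ T))) = sm (ζ₁ ζ₂) (ga (σ₁ * σ₂) T)`.
* `ini_ray`: `I = span {a}`; `a ≠ 0` and every `w` with `a ∈ w.asIdeal` has `c ∉ (w.under (𝓞 K)).asIdeal` (otherwise `1 = a - (a - 1)` is in `w.asIdeal`; if `a = 0`: `1 ∈ span {c}`, so `c` is a unit in `𝓞 F`, `c ∈ w.asIdeal` is impossible for all `w`... simpler: `a = 0` gives `algebraMap c ∣ 1`; `nK_congr c 0 1`: `c ∣ nK 0 - nK 1 = -1`, so `c`, hence `HC.f`, is a unit: contradiction with `HDat.not_isUnit HC.hd`).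
  `psi F (span {a}) = nK a`: `psi` unfolds to `ps (Ideal.relNorm (𝓞 K) (span {a})) = ps (span {nK a})` (`relNorm_span`, nuT/S4/NormPsi.lean), `c ∣ nK a - 1` (`nK_congr c a 1`, `nK_one`; see `psi_span` in AN/Psi.lean), so `HC.f ∣ nK a - 1` and `HC.hd.ray (nK a)`.
  `σ, φ, ζ` from `ini_ideal`; for `T` with `sm g T = 0`: `ga σ T = sm (nK a) T = T` since `g ∣ nK a - 1` (`sm_sub`, `sm_one`, `sm_mul`). So `Trp D σ (ga σ)` by `hA σ`, and `φ = ga σ` (`trp_unique`), `sm ζ (ga σ T) = ga σ T` for all `T`. Then `ζ = 1`: `V` any valuation ring above a place of `K` (`exists_abv` for a place `P` of `K`, e.g. take `w` any place of `F` or `P` from `Ideal.exists_maximal`);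
  `eq_of_tr`: `sm ζ T = sm 1 T` for all `T` (`ga σ` is surjective: `T = ga σ (ga σ⁻¹ T)`). So `psI p (span {a}) = 1 * psi F (span {a}) = nK a`.
-/

set_option autoImplicit false

namespace Pool.Agent.Lib.MP_1a91b9_nuX.PG

open NumberField IsDedekindDomain WeierstrassCurve Pool.Agent.Lib.MP_1a91b9_nuT
open Pool.Agent.Lib.MP_1a91b9_nuX.DB Pool.Agent.Lib.MP_1a91b9_nuX.GL
open Pool.Agent.Lib.MP_1a91b9_nuT.S4 (nK)

universe u

/-- the isomorphism `D` is defined over the field generated over `F` by the points killed by `g` -/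
def AbD [CD] [DecidableEq Kb] (F : Type u) [Field F] [NumberField F] [Algebra K F]
    [Algebra F Kb] [IsScalarTower K F Kb] (D : VariableChange Kb) (g : 𝓞 K) : Prop :=
  ∀ σ : Kb ≃ₐ[F] Kb, (∀ T : Pt Kb, sm Kb g T = 0 → ga σ T = T) → Trp D σ (ga σ)

section
variable [CD] [HC] [DecidableEq Kb]

omit [HC] in
private theorem ini_trp {F : Type u} [Field F] [NumberField F] [Algebra K F]
    [Algebra F Kb] [IsScalarTower K F Kb] (σ : Kb ≃ₐ[F] Kb) :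
    Trp (1 : VariableChange Kb) σ (ga σ) := by
  have hx : ∀ X : Pt Kb, cx (1 : VariableChange Kb) X = xc X := by
    intro X
    show (xc X - 0) / ((1 : Kbˣ) : Kb) ^ 2 = xc X
    rw [Units.val_one, one_pow, div_one, sub_zero]
  have hy : ∀ X : Pt Kb, cy (1 : VariableChange Kb) X = yc X := by
    intro X
    show (yc X - 0 * (xc X - 0) - 0) / ((1 : Kbˣ) : Kb) ^ 3 = yc X
    rw [Units.val_one, one_pow, div_one, sub_zero, zero_mul, sub_zero]
  intro X hX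
  refine ⟨fun h => hX ((gk_ne σ).1 h), ?_, ?_⟩
  · rw [hx, hx, xc_gk]
  · rw [hy, hy, yc_gk]

end

variable [CD] [HC] [DecidableEq Kb] {F : Type u} [Field F] [NumberField F] [Algebra K F]
  [Algebra F Kb] [IsScalarTower K F Kb] {W : WeierstrassCurve F} {D : VariableChange Kb}
  (hD : D • EF Kb = W.map (algebraMap F Kb)) {c g : 𝓞 K} (hc : (HC.f : 𝓞 K) ∣ c) (hg : g ∣ c)
  {p : HeightOneSpectrum (𝓞 F) → 𝓞 K}
  (hp : ∀ w : HeightOneSpectrum (𝓞 F), c ∉ (w.under (𝓞 K)).asIdeal → FrV D w (p w))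
include hD hc hg hp

/-- an automorphism which acts like the product of the Frobenius automorphisms at the prime divisors of `I` -/
theorem ini_ideal {I : Ideal (𝓞 F)} (hI0 : I ≠ ⊥)
    (hI : ∀ w : HeightOneSpectrum (𝓞 F), I ≤ w.asIdeal → c ∉ (w.under (𝓞 K)).asIdeal) :
    ∃ (σ : Kb ≃ₐ[F] Kb) (φ : Pt Kb →+ Pt Kb) (ζ : (𝓞 K)ˣ), Trp D σ φ ∧
      psI p I = (ζ : 𝓞 K) * psi F I ∧
      (∀ T : Pt Kb, sm Kb g T = 0 → ga σ T = sm Kb (psi F I) T) ∧
      ∀ T : Pt Kb, φ T = sm Kb (ζ : 𝓞 K) (ga σ T) := by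
  have hFK : Algebra.IsAlgebraic F Kb := Algebra.IsAlgebraic.tower_top (K := K) F
  revert hI
  refine ideal_ind (p := fun I : Ideal (𝓞 F) => (∀ w : HeightOneSpectrum (𝓞 F), I ≤ w.asIdeal →
      c ∉ (w.under (𝓞 K)).asIdeal) →
      ∃ (σ : Kb ≃ₐ[F] Kb) (φ : Pt Kb →+ Pt Kb) (ζ : (𝓞 K)ˣ), Trp D σ φ ∧
        psI p I = (ζ : 𝓞 K) * psi F I ∧
        (∀ T : Pt Kb, sm Kb g T = 0 → ga σ T = sm Kb (psi F I) T) ∧
        ∀ T : Pt Kb, φ T = sm Kb (ζ : 𝓞 K) (ga σ T)) ?_ ?_ I hI0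
  · intro _
    refine ⟨1, AddMonoidHom.id _, 1, trp_id (D := D), ?_, ?_, ?_⟩
    · rw [psI_one, psi_one, Units.val_one, one_mul]
    · intro T _
      rw [psi_one, sm_one, gk_one]
    · intro T
      rw [Units.val_one, sm_one, gk_one]
      rfl
  · intro w J hJ ih hI
    obtain ⟨σ₂, φ₂, ζ₂, ht2, hpsi2, hg2, hφ2⟩ := ih fun v hv => hI v (Ideal.mul_le_right.trans hv)
    have hcw : c ∉ (w.under (𝓞 K)).asIdeal := hI w Ideal.mul_le_left
    have hfw : HC.f ∉ (w.under (𝓞 K)).asIdeal := by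
      intro h
      obtain ⟨e, he⟩ := hc
      apply hcw
      rw [he]
      exact Ideal.mul_mem_right _ _ h
    have hgw : g ∉ (w.under (𝓞 K)).asIdeal := by
      intro h
      obtain ⟨e, he⟩ := hg
      apply hcw
      rw [he]
      exact Ideal.mul_mem_right _ _ h
    obtain ⟨V, hV⟩ := exists_abv (Ω := Kb) w
    obtain ⟨σ₁, hσ₁⟩ := exists_fr hV
    obtain ⟨φ₁, hφ₁⟩ := trp_exists hD σ₁
    obtain ⟨ζ₁, hζ₁⟩ := trp_unit hD hφ₁
    have hVP : Abv (w.under (𝓞 K)) V := abv_res hV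
    have e1 : ∀ T, Ta V.valuation T → φ₁ T = sm Kb (p w) T :=
      fun T hT => hp w hcw V hV σ₁ hσ₁ φ₁ hφ₁ T hT
    have e2 : ∀ T, Ta V.valuation T → ga σ₁ T = sm Kb (psi F w.asIdeal) T :=
      fun T hT => frv_psi hfw V hV σ₁ hσ₁ (ga σ₁) (ini_trp σ₁) T hT
    have e3 : p w = ζ₁ * psi F w.asIdeal := by
      refine eq_of_tr hVP fun T hT => ?_
      rw [← e1 T (tr_ta hT), hζ₁, e2 T (tr_ta hT), ← sm_mul]
    have hTa : ∀ T, sm Kb g T = 0 → Ta V.valuation T :=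
      fun T hT => ⟨g, (val_one_iff hVP g).2 hgw, hT⟩
    have hc1 : Trp D (fun x => σ₁ (σ₂ x)) (φ₁.comp φ₂) := trp_comp hφ₁ ht2
    have hc2 : Trp D (σ₁ * σ₂ : Kb ≃ₐ[F] Kb) (φ₁.comp φ₂) := hc1
    refine ⟨σ₁ * σ₂, φ₁.comp φ₂, ζ₁ * ζ₂, hc2, ?_, ?_, ?_⟩
    · rw [psI_mul, psI_prime, psi_mul, hpsi2, e3, Units.val_mul]
      ring
    · intro T hT
      rw [gk_mul, hg2 T hT, gk_sm, e2 T (hTa T hT), ← sm_mul, psi_mul, mul_comm]
    · intro T
      show φ₁ (φ₂ T) = _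
      rw [hφ2, hζ₁, gk_sm, ← gk_mul, ← sm_mul, Units.val_mul]

/-- **The ray property.** -/
theorem ini_ray (hA : AbD F D g) (a : 𝓞 F)
    (ha : a - 1 ∈ Ideal.span {algebraMap (𝓞 K) (𝓞 F) c}) : psI p (Ideal.span {a}) = nK a := by
  have hdvd : algebraMap (𝓞 K) (𝓞 F) c ∣ a - 1 := Ideal.mem_span_singleton.1 ha
  have hn : c ∣ nK a - 1 := by
    have h1 := S4.nK_congr c a 1 hdvd
    rwa [S4.nK_one] at h1
  have ha0 : a ≠ 0 := by
    rintro rfl
    have h1 : (nK (0 : 𝓞 F) : 𝓞 K) = 0 := by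
      apply RingOfIntegers.ext
      rw [S4.nK_coe]
      show Algebra.norm K (algebraMap (𝓞 F) F 0) = algebraMap (𝓞 K) K 0
      rw [map_zero (algebraMap (𝓞 F) F), Algebra.norm_zero, map_zero]
    rw [h1, zero_sub] at hn
    exact f_not_isUnit (isUnit_of_dvd_one (hc.trans ((dvd_neg).1 hn)))
  have hI0 : Ideal.span {a} ≠ ⊥ := by
    rw [Ne, Ideal.span_singleton_eq_bot]
    exact ha0
  have hI : ∀ w : HeightOneSpectrum (𝓞 F), Ideal.span {a} ≤ w.asIdeal →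
      c ∉ (w.under (𝓞 K)).asIdeal := by
    intro w hw hcw
    have h1 : a ∈ w.asIdeal := hw (Ideal.mem_span_singleton_self a)
    have h2 : algebraMap (𝓞 K) (𝓞 F) c ∈ w.asIdeal := hcw
    have h3 : a - 1 ∈ w.asIdeal := Ideal.mem_of_dvd _ hdvd h2
    apply w.isPrime.ne_top
    rw [Ideal.eq_top_iff_one]
    have h4 := Ideal.sub_mem _ h1 h3
    rwa [sub_sub_cancel] at h4
  obtain ⟨σ, φ, ζ, ht, hpsi, hgT, hφ⟩ := ini_ideal hD hc hg hp hI0 hI
  have hray : psi F (Ideal.span {a}) = nK a := by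
    rw [psi, S4.relNorm_span]
    exact HC.hd.ray (nK a) (hc.trans hn)
  have hfix : ∀ T : Pt Kb, sm Kb g T = 0 → ga σ T = T := by
    intro T hT
    obtain ⟨e, he⟩ := hg.trans hn
    have h1 : nK a = 1 + e * g := by linear_combination he
    rw [hgT T hT, hray, h1, sm_add, sm_one, sm_mul, hT, map_zero, add_zero]
  have hφσ : φ = ga σ := trp_unique ht (hA σ hfix)
  have hζ : ∀ T : Pt Kb, sm Kb (ζ : 𝓞 K) T = T := by
    intro T
    have h1 := hφ (ga σ⁻¹ T)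
    rw [hφσ, ← gk_mul, mul_inv_cancel, gk_one] at h1
    exact h1.symm
  have hζ1 : (ζ : 𝓞 K) = 1 := by
    by_contra hne
    have h1 : HC.f * ((ζ : 𝓞 K) - 1) ≠ 0 := mul_ne_zero HC.hd.ne (sub_ne_zero.2 hne)
    obtain ⟨R, hR⟩ := exists_ord h1
    have h2 : sm Kb ((ζ : 𝓞 K) - 1) R = 0 := by
      rw [sm_sub, hζ, sm_one, sub_self]
    obtain ⟨e, he⟩ := (hR _).1 h2
    apply f_not_isUnit
    have h3 : ((ζ : 𝓞 K) - 1) * (HC.f * e - 1) = 0 := by linear_combination -he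
    rcases mul_eq_zero.1 h3 with h4 | h4
    · exact absurd (sub_eq_zero.1 h4) hne
    · exact IsUnit.of_mul_eq_one e (sub_eq_zero.1 h4)
  rw [hpsi, hray, hζ1, one_mul]

end Pool.Agent.Lib.MP_1a91b9_nuX.PG
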