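import Pool.Agent.Lib.MP_1a91b9_nuX.PG.FixC
import Pool.Agent.Lib.MP_1a91b9_nuX.PG.CntW
import Pool.Agent.Lib.MP_1a91b9_nuX.GL.InrC

/-!
# The number of points at an inert place (general version)

PROOFS.
* `phi_sqW`: `σ₂ : Kb ≃ₐ[F] Kb`, `σ₂ x = σ (σ x)` (`AlgEquiv.ofRingEquiv (f := σ.toRingEquiv.trans σ.toRingEquiv) hσL`, as in `phi_sq` of GL/InrC.lean but over `F`), `IsFr V (Ideal.absNorm w.asIdeal) σ₂` (copy `hfr` of that proof: rewrite `hq2`), `Trp D σ₂ (φ.comp φ)` by `trp_comp hφ hφ`; `hfr V hV σ₂ _ (φ.comp φ) _ T hT : φ (φ T) = sm Kb ψ T`.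
* `inr_coreW`: copy the proof of `inr_core` (GL/InrC.lean) with `D.map (algebraMap L Kb)` replaced by `D`, `psi L w.asIdeal` by `ψ`, `W'` by `W`, `hDW'` by `hD`. `hG : GoodC V.valuation D := goodC_of hD hvV hW`; `φ` from `trp_exists hD σ`; `hsemi = fun a T => trp_semi hD hφ hσ' a T`; `hPh` from `phi_ph hD hφ hσ' hPV hvV hG hσ` (`Trp` unfolds to the hypothesis `hφ` of `phi_ph`);
  `hsq = phi_sqW`; `psi_facts hf` is replaced by: `psw_facts hψ : absNorm (span {ψ}) = absNorm w.asIdeal ∧ ψ ∈ (w.under (𝓞 K)).asIdeal` (PG/CntW.lean) and `rel_w w` (PG/FrlA.lean: `absNorm w.asIdeal = absNorm (w.under (𝓞 K)).asIdeal ^ f`); `fix_card' hPV hPh.ta hsemi hsq hΨ` (no condition on `rt`).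
  `cnt_w hV hD hf` is replaced by `cnt_wW (md_up hD) hψ hfr hV hWF` where `hWF : GM.GoodW (w.valuation F) (W.map (algebraMap N F)) := GM.good_map (GM.val_under w) hW` (look at the exact explicit arguments of `cnt_wW` in PG/CntW.lean; here `W` is `W.map (algebraMap N F)`, and `D • EF Kb` is the same).
-/

set_option autoImplicit false

namespace Pool.Agent.Lib.MP_1a91b9_nuX.PG

open NumberField IsDedekindDomain WeierstrassCurve Pool.Agent.Lib.MP_1a91b9_nuT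
open Pool.Agent.Lib.MP_1a91b9_nuX.DB Pool.Agent.Lib.MP_1a91b9_nuX.GL

universe u

private theorem inrw_pow_sub {F Γ : Type*} [Field F] [LinearOrderedCommGroupWithZero Γ]
    (v : Valuation F Γ) {a b : F} (ha : v a ≤ 1) (hb : v b ≤ 1) (h : v (a - b) < 1) (n : ℕ) :
    v (a ^ n - b ^ n) < 1 := by
  induction n with
  | zero =>
    rw [pow_zero, pow_zero, sub_self, map_zero]
    exact zero_lt_one
  | succ n ih =>
    have e : a ^ (n + 1) - b ^ (n + 1) = a ^ n * (a - b) + (a ^ n - b ^ n) * b := by ring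
    rw [e]
    refine (v.map_add _ _).trans_lt (max_lt ?_ ?_)
    · rw [map_mul, map_pow, mul_comm]
      exact mul_lt_one_of_lt_of_le h (pow_le_one' ha n)
    · rw [map_mul]
      exact mul_lt_one_of_lt_of_le ih hb

variable [CD] [DecidableEq Kb] {N F : Type u} [Field N] [NumberField N] [Field F] [NumberField F]
  [Algebra K F] [Algebra N F] [Algebra F Kb] [Algebra N Kb] [IsScalarTower K F Kb]
  [IsScalarTower N F Kb] {W : WeierstrassCurve N} {D : VariableChange Kb}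
  (hD : D • EF Kb = W.map (algebraMap N Kb)) {w : HeightOneSpectrum (𝓞 F)}
  {V : ValuationSubring Kb} (hV : Abv w V)
  {q : ℕ} (hq : Ideal.absNorm (w.under (𝓞 N)).asIdeal = q) (hq2 : Ideal.absNorm w.asIdeal = q ^ 2)
  {σ : Kb ≃ₐ[N] Kb} (hσ : IsFr V q σ)
  (hσ' : ∀ a : 𝓞 K, σ (algebraMap K Kb (a : K)) = algebraMap K Kb ((cj a : 𝓞 K) : K))
  (hσL : ∀ x : F, σ (σ (algebraMap F Kb x)) = algebraMap F Kb x)
  {ψ : 𝓞 K} (hψ : Ideal.span {ψ} = Ideal.relNorm (𝓞 K) w.asIdeal) (hfr : FrV D w ψ)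

include hV hq2 hσ hσL hfr in
theorem phi_sqW {φ : Pt Kb →+ Pt Kb} (hφ : Trp D σ φ) {T : Pt Kb}
    (hT : Ta V.valuation T) : φ (φ T) = sm Kb ψ T := by
  let τ : Kb ≃ₐ[F] Kb := AlgEquiv.ofRingEquiv (f := σ.toRingEquiv.trans σ.toRingEquiv) hσL
  have hτ : ∀ x, τ x = σ (σ x) := fun x => rfl
  have hfr2 : IsFr V (Ideal.absNorm w.asIdeal) τ := by
    rw [hq2]
    intro x hx
    have hx' : V.valuation (x ^ q) ≤ 1 := by
      rw [map_pow]
      exact pow_le_one' hx q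
    have e : τ x - x ^ (q ^ 2) = (σ (σ x) - (σ x) ^ q) + ((σ x) ^ q - (x ^ q) ^ q) := by
      rw [hτ, sq q, pow_mul]
      ring
    rw [e]
    exact (V.valuation.map_add _ _).trans_lt (max_lt (hσ _ (fr_le hσ hx))
      (inrw_pow_sub _ (fr_le hσ hx) hx' (hσ x hx) q))
  have hT1 : Trp D (fun x => σ (σ x)) (φ.comp φ) := trp_comp hφ hφ
  have hT2 : Trp D τ (φ.comp φ) := hT1
  exact hfr V hV τ hfr2 (φ.comp φ) hT2 T hT

include hD hV hq hq2 hσ hσ' hσL hψ hfr in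
theorem inr_coreW (hW : GM.GoodW ((w.under (𝓞 N)).valuation N) W) :
    (Sp q (rdW V (W.map (algebraMap N Kb)))).ncard = q ∧ ψ = -(q : 𝓞 K) := by
  classical
  have hPV : Abv (w.under (𝓞 K)) V := abv_res hV
  have hvV : Abv (w.under (𝓞 N)) V := abv_res hV
  have hG : GoodC V.valuation D := goodC_of hD hvV hW
  obtain ⟨φ, hφ⟩ := trp_exists hD σ
  have hsemi : ∀ (a : 𝓞 K) (T : Pt Kb), φ (sm Kb a T) = sm Kb (cj a) (φ T) :=
    fun a T => trp_semi hD hφ hσ' a T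
  have hPh : Ph V D q φ := by
    rw [← hq] at hσ ⊢
    exact phi_ph hD hφ hσ' hPV hvV hG hσ
  have hsq : ∀ T : Pt Kb, Ta V.valuation T → φ (φ T) = sm Kb ψ T :=
    fun T hT => phi_sqW hV hq2 hσ hσL hfr hφ hT
  obtain ⟨hf1, hf2⟩ := psw_facts hψ
  rw [hq2] at hf1
  obtain ⟨-, hf3, -⟩ := rel_w w
  have hΨ : V.valuation (algebraMap K Kb ((1 - ψ : 𝓞 K) : K)) = 1 := by
    rw [val_one_iff hPV]
    intro h
    apply (w.under (𝓞 K)).isPrime.ne_top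
    rw [Ideal.eq_top_iff_one]
    have h2 := Ideal.add_mem _ h hf2
    rwa [sub_add_cancel] at h2
  obtain ⟨hAf, hBf, hAB, hA2⟩ := fix_card' hPV hPh.ta hsemi hsq hΨ
  have hWF : GM.GoodW (w.valuation F) (W.map (algebraMap N F)) := GM.good_map (GM.val_under w) hW
  obtain ⟨-, honto⟩ := cnt_wW (md_up hD) hψ hfr hV hWF
  rw [hq2] at honto
  -- the residue field
  obtain ⟨p, hp, hpV, -⟩ := res_char hPV
  have hch : CharP (RF V) p := rd_char hp hpV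
  have : Fact p.Prime := ⟨hp⟩
  obtain ⟨n, -, hn⟩ := GL.norm_pow hPV hp hpV
  obtain ⟨m, -, hm⟩ : ∃ m ≤ n * w.asIdeal.inertiaDeg (𝓞 K), q = p ^ m := by
    rw [← Nat.dvd_prime_pow hp, pow_mul, ← hn, ← hf3, hq2]
    exact Dvd.intro_left _ (by rw [sq])
  have hExp : ExpChar (RF V) p := ExpChar.prime hp
  have hfrob : ∃ ρ : RF V →+* RF V, ∀ z, ρ z = z ^ q :=
    ⟨iterateFrobenius (RF V) p m, fun z => by rw [iterateFrobenius_def, hm]⟩
  obtain ⟨ρ, hρ⟩ := hfrob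
  have ha1 : (rdW V (D • EF Kb)).a₁ ^ q = (rdW V (D • EF Kb)).a₁ := by
    rw [hD, ← hq]
    exact rd_fix hvV hW.toIntW.a1
  have ha3 : (rdW V (D • EF Kb)).a₃ ^ q = (rdW V (D • EF Kb)).a₃ := by
    rw [hD, ← hq]
    exact rd_fix hvV hW.toIntW.a3
  have hTa : ∀ T : Pt Kb, sm Kb (1 - ψ) T = 0 → Ta V.valuation T :=
    fun T hT => ⟨_, hΨ, hT⟩
  -- the fixed points
  have hSp : rdp V D '' ({T : Pt Kb | Ta V.valuation T ∧ φ T = T} \ {0}) =
      Sp q (rdW V (D • EF Kb)) := by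
    ext z
    constructor
    · rintro ⟨T, ⟨⟨hT, hTe⟩, hT0⟩, rfl⟩
      exact ph_sp hPV hG hPh hT hT0 hTe
    · intro hz
      obtain ⟨hz1, hz2, hz3⟩ := hz
      obtain ⟨T, hT0, hTk, hTz⟩ := honto z ⟨by rw [sq, pow_mul, hz1, hz1],
        by rw [sq, pow_mul, hz2, hz2], hz3⟩
      refine ⟨T, ⟨⟨hTa T hTk, ?_⟩, hT0⟩, hTz⟩
      refine rdp_inj hPV hG (hPh.ta _ (hTa T hTk)) (hTa T hTk) (fun h => hT0 (hPh.inj _ h)) hT0 ?_
      rw [rdp_phi hPV hG hPh (hTa T hTk) hT0, hTz, hz1, hz2]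
  have hSm : rdp V D '' ({T : Pt Kb | Ta V.valuation T ∧ φ T = -T} \ {0}) =
      Sm q (rdW V (D • EF Kb)) := by
    ext z
    constructor
    · rintro ⟨T, ⟨⟨hT, hTe⟩, hT0⟩, rfl⟩
      exact ph_sm hPV hG hPh hT hT0 hTe
    · intro hz
      obtain ⟨hz1, hz2, hz3⟩ := hz
      have hz4 : z.2 ^ (q ^ 2) = z.2 := by
        rw [sq, pow_mul, hz2, ← hρ, map_sub, map_sub, map_neg, map_mul, hρ, hρ, hρ, hρ, ha1, ha3,
          hz1, hz2]
        ring
      obtain ⟨T, hT0, hTk, hTz⟩ := honto z ⟨by rw [sq, pow_mul, hz1, hz1], hz4, hz3⟩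
      refine ⟨T, ⟨⟨hTa T hTk, ?_⟩, hT0⟩, hTz⟩
      refine rdp_inj hPV hG (hPh.ta _ (hTa T hTk)) (ta_neg (hTa T hTk))
        (fun h => hT0 (hPh.inj _ h)) (neg_ne_zero.2 hT0) ?_
      rw [rdp_phi hPV hG hPh (hTa T hTk) hT0, rdp_neg hPV hG (hTa T hTk) hT0, hTz, hz1, hz2]
  have hinj : ∀ S : Set (Pt Kb), (∀ T ∈ S, Ta V.valuation T ∧ T ≠ 0) →
      Set.InjOn (rdp V D) S := by
    intro S hS T hT T' hT' h
    exact rdp_inj hPV hG (hS T hT).1 (hS T' hT').1 (hS T hT).2 (hS T' hT').2 h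
  have hc1 : (Sp q (rdW V (D • EF Kb))).ncard + 1 =
      {T : Pt Kb | Ta V.valuation T ∧ φ T = T}.ncard := by
    rw [← hSp, (hinj _ fun T hT => ⟨hT.1.1, hT.2⟩).ncard_image]
    exact Set.ncard_sdiff_singleton_add_one ⟨ta_zero, map_zero φ⟩ hAf
  have hc2 : (Sm q (rdW V (D • EF Kb))).ncard + 1 =
      {T : Pt Kb | Ta V.valuation T ∧ φ T = -T}.ncard := by
    rw [← hSm, (hinj _ fun T hT => ⟨hT.1.1, hT.2⟩).ncard_image]
    exact Set.ncard_sdiff_singleton_add_one ⟨ta_zero, by rw [map_zero, neg_zero]⟩ hBf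
  obtain ⟨-, -, hc3⟩ := card_two hvV W hW.toIntW
  rw [hq, ← hD] at hc3
  have hSpq : (Sp q (rdW V (D • EF Kb))).ncard = q := by omega
  refine ⟨by rw [← hD]; exact hSpq, ?_⟩
  rw [← hc1, hSpq] at hA2
  have e1 := mul_cj (1 - ψ)
  have e2 := mul_cj ψ
  rw [← hA2, map_sub, map_one] at e1
  rw [hf1] at e2
  push_cast at e1 e2
  have e3 : (ψ + (q : 𝓞 K)) * (cj ψ + (q : 𝓞 K)) = 0 := by
    linear_combination (1 + (q : 𝓞 K)) * e2 - (q : 𝓞 K) * e1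
  rcases mul_eq_zero.1 e3 with h | h
  · exact eq_neg_of_add_eq_zero_left h
  · have h2 := congrArg cj (eq_neg_of_add_eq_zero_left h)
    rw [cj_cj, map_neg, map_natCast] at h2
    exact h2

end Pool.Agent.Lib.MP_1a91b9_nuX.PG
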