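import Pool.Agent.Lib.MP_1a91b9_nuX.PG.TrpB
import Pool.Agent.Lib.MP_1a91b9_nuX.GL.TorC

/-!
# The field of the division points of a form of the curve

PROOFS. `Kb` is algebraic over `F` (`Algebra.IsAlgebraic.tower_top (K := K) F`), algebraically closed, characteristic zero: `IsGalois F Kb`, `Normal F Kb` (see `absf_gal`, `absL_galois` in GL/AbsF.lean, AbsL.lean).
* `exists_M`: `S = (fun T => cx D T) '' A ∪ (fun T => cy D T) '' A`, `A = {T : Pt Kb | sm Kb β T = 0}`, finite (`tors_card hβ`); `M = IntermediateField.adjoin F S`. Finite dimensional: `IntermediateField.finiteDimensional_adjoin` (elements are integral) with the finite set. Normal: `IntermediateField.normal_iff_forall_map_le` (for all `σ : Kb →ₐ[F] Kb`, `M.map σ ≤ M`) or `normal_iff_forall_map_le'`: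
  for `σ : Kb ≃ₐ[F] Kb` with transport `φ` (`trp_exists hD σ`): `σ (cx D T) = cx D (φ T)` for `T ≠ 0` and `sm β (φ T) = φ (sm β T) = 0` (`trp_lin hD`), so `σ` maps `S` to `S` up to the values at `T = 0` (`cx D 0`, `cy D 0`: to avoid them take `A = {T | sm Kb β T = 0 ∧ T ≠ 0}`). Galois: `IsGalois.mk` (separable in characteristic zero).
  (An algebra homomorphism `Kb →ₐ[F] Kb` is bijective since `Kb` is algebraic: `Algebra.IsAlgebraic.algHom_bijective`, `AlgEquiv.ofBijective`.)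
  The equivalence. `→`: the set of the `x` with `σ x = τ x` is an intermediate field (or use `IntermediateField.adjoin_le_iff` for the equalizer `AlgHom.equalizer`; or `IntermediateField.adjoin_induction`), it contains `cx D T`, `cy D T` because `σ (cx D T) = cx D (φ T) = cx D (ρ T) = τ (cx D T)`. `←`: `T = 0` trivial; `T ≠ 0`: `cx D (φ T) = σ (cx D T) = τ (cx D T) = cx D (ρ T)`, same for `cy`: `cxy_ext`.
* `exists_c`: `M` from `exists_M`, the type `↥M` (`NumberField`: `NumberField.of_module_finite F M` or `FiniteDimensional.trans`), algebra `M → Kb` the inclusion. `R₀` with `Ord β R₀` (`exists_ord hβ`, GL/TrA.lean). For `τ : Gal(M/F)` choose `s τ : Kb ≃ₐ[F] Kb` extending `τ` (`AlgEquiv.restrictNormalHom_surjective` or `AlgEquiv.liftNormal`; `AlgEquiv.liftNormal_commutes`), `p τ` its transport, `a τ : 𝓞 K` with `p τ R₀ = sm Kb (a τ) R₀`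
  (`cases_Kb hβ`: `p τ R₀` is killed by `β`: `trp_lin`). Key: if `σ` extends `τ`, `Trp D σ φ` and `φ R₀ = sm b R₀` then `β ∣ b - a τ`: by `exists_M` `φ R₀ = p τ R₀`, `Ord.sm_eq_iff` (nuX/DB/Tor2.lean: `sm c R = sm d R ↔ β ∣ c - d`). `c τ = mk (a τ)`. `map_one`: the identity extends `1` (`trp_id`), `R₀ = sm 1 R₀`. `map_mul`: `s τ * s τ'` extends `τ * τ'`, its transport is `(p τ).comp (p τ')` (`trp_comp`),
  and `p τ (sm (a τ') R₀) = sm (a τ') (sm (a τ) R₀) = sm (a τ * a τ') R₀`. Injective: `c τ = c τ'` gives `sm (a τ) R₀ = sm (a τ') R₀`, so `p τ = p τ'` on all points killed by `β` (they are `sm b R₀`, `cases_Kb`, `trp_lin`), so `s τ = s τ'` on `M`, so `τ = τ'`. The last property for `R` with `Ord β R`: `R = sm b R₀`, so `φ R = sm b (φ R₀) = sm b (sm (a₀) R₀) = sm a₀ R` with `a₀` as in the key, so `sm a R = sm a₀ R`, `β ∣ a - a₀`.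
-/

set_option autoImplicit false

namespace Pool.Agent.Lib.MP_1a91b9_nuX.PG

open NumberField IsDedekindDomain WeierstrassCurve Pool.Agent.Lib.MP_1a91b9_nuT
open Pool.Agent.Lib.MP_1a91b9_nuX.DB Pool.Agent.Lib.MP_1a91b9_nuX.GL

universe u

private theorem mexta_alg [CD] {F : Type u} [Field F] [NumberField F] [Algebra K F]
    [Algebra F Kb] [IsScalarTower K F Kb] : Algebra.IsAlgebraic F Kb :=
  Algebra.IsAlgebraic.tower_top (K := K) F

private theorem mexta_gal [CD] {F : Type u} [Field F] [NumberField F] [Algebra K F]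
    [Algebra F Kb] [IsScalarTower K F Kb] : IsGalois F Kb := by
  have h0 : Algebra.IsAlgebraic F Kb := mexta_alg
  have h1 : IsAlgClosure F Kb := ⟨inferInstance, inferInstance⟩
  have h2 : Normal F Kb := IsAlgClosure.normal F Kb
  exact ⟨⟩

variable [CD] [DecidableEq Kb] {F : Type u} [Field F] [NumberField F] [Algebra K F]
  [Algebra F Kb] [IsScalarTower K F Kb] {W : WeierstrassCurve F} {D : VariableChange Kb}
  (hD : D • EF Kb = W.map (algebraMap F Kb))

/-- the points killed by `β` which are not zero -/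
private def mextaA (β : 𝓞 K) : Set (Pt Kb) := {T | sm Kb β T = 0 ∧ T ≠ 0}

/-- their coordinates -/
private def mextaS (D : VariableChange Kb) (β : 𝓞 K) : Set Kb :=
  (fun T => cx D T) '' mextaA β ∪ (fun T => cy D T) '' mextaA β

private theorem mexta_fin {β : 𝓞 K} (hβ : β ≠ 0) : (mextaS D β).Finite := by
  have h1 : (mextaA β).Finite := (tors_card hβ).1.subset fun T hT => hT.1
  exact (h1.image _).union (h1.image _)

include hD

private theorem mexta_map {β : 𝓞 K} {σ : Kb ≃ₐ[F] Kb} {φ : Pt Kb →+ Pt Kb} (h : Trp D σ φ)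
    {T : Pt Kb} (hT : T ∈ mextaA β) : φ T ∈ mextaA β :=
  ⟨by rw [← trp_lin hD h, hT.1, map_zero], (h T hT.2).1⟩

private theorem mexta_image {β : 𝓞 K} (σ : Kb ≃ₐ[F] Kb) :
    (fun x => σ x) '' mextaS D β ⊆ mextaS D β := by
  obtain ⟨φ, hφ⟩ := trp_exists hD σ
  rintro _ ⟨x, hx, rfl⟩
  rcases hx with ⟨T, hT, rfl⟩ | ⟨T, hT, rfl⟩
  · exact Or.inl ⟨φ T, mexta_map hD hφ hT, (hφ T hT.2).2.1⟩
  · exact Or.inr ⟨φ T, mexta_map hD hφ hT, (hφ T hT.2).2.2⟩

/-- the field generated by the coordinates of the points killed by `β` -/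
theorem exists_M {β : 𝓞 K} (hβ : β ≠ 0) : ∃ M : IntermediateField F Kb, FiniteDimensional F M ∧
    IsGalois F M ∧ ∀ (σ τ : Kb ≃ₐ[F] Kb) (φ ρ : Pt Kb →+ Pt Kb), Trp D σ φ → Trp D τ ρ →
      ((∀ T : Pt Kb, sm Kb β T = 0 → φ T = ρ T) ↔ ∀ x : M, σ (x : Kb) = τ (x : Kb)) := by
  have hgal : IsGalois F Kb := mexta_gal
  have halg : Algebra.IsAlgebraic F Kb := mexta_alg
  have hfin : Finite (mextaS D β) := (mexta_fin (D := D) hβ).to_subtype
  have hfd : FiniteDimensional F (IntermediateField.adjoin F (mextaS D β)) :=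
    IntermediateField.finiteDimensional_adjoin fun x _ => (halg.isAlgebraic x).isIntegral
  have hn : Normal F (IntermediateField.adjoin F (mextaS D β)) := by
    rw [IntermediateField.normal_iff_forall_map_le']
    intro σ
    rw [IntermediateField.adjoin_map]
    exact IntermediateField.adjoin.mono F _ _ (mexta_image hD σ)
  refine ⟨IntermediateField.adjoin F (mextaS D β), hfd, { }, fun σ τ φ ρ hφ hρ => ⟨fun h x => ?_,
    fun h T hT => ?_⟩⟩
  · refine IntermediateField.adjoin_induction F (p := fun x _ => σ x = τ x) ?_ ?_ ?_ ?_ ?_ x.2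
    · rintro _ (⟨T, hT, rfl⟩ | ⟨T, hT, rfl⟩)
      · show σ (cx D T) = τ (cx D T)
        rw [← (hφ T hT.2).2.1, ← (hρ T hT.2).2.1, h T hT.1]
      · show σ (cy D T) = τ (cy D T)
        rw [← (hφ T hT.2).2.2, ← (hρ T hT.2).2.2, h T hT.1]
    · intro a
      rw [σ.commutes, τ.commutes]
    · intro a b _ _ ha hb
      rw [map_add, map_add, ha, hb]
    · intro a _ ha
      rw [map_inv₀, map_inv₀, ha]
    · intro a b _ _ ha hb
      rw [map_mul, map_mul, ha, hb]
  · by_cases h0 : T = 0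
    · rw [h0, map_zero, map_zero]
    · refine cxy_ext (D := D) (hφ T h0).1 (hρ T h0).1 ?_ ?_
      · rw [(hφ T h0).2.1, (hρ T h0).2.1]
        exact h ⟨cx D T, IntermediateField.subset_adjoin F _ (Or.inl ⟨T, ⟨hT, h0⟩, rfl⟩)⟩
      · rw [(hφ T h0).2.2, (hρ T h0).2.2]
        exact h ⟨cy D T, IntermediateField.subset_adjoin F _ (Or.inr ⟨T, ⟨hT, h0⟩, rfl⟩)⟩

/-- the representation of the Galois group on the points killed by `β` -/
theorem exists_c {β : 𝓞 K} (hβ : β ≠ 0) : ∃ (M : Type) (_ : Field M) (_ : NumberField M)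
    (_ : Algebra F M) (_ : Algebra M Kb) (_ : IsScalarTower F M Kb)
    (c : Gal(M/F) →* (𝓞 K ⧸ Ideal.span {β})), IsGalois F M ∧ Function.Injective c ∧
      ∀ (τ : Gal(M/F)) (σ : Kb ≃ₐ[F] Kb), (∀ x : M, σ (algebraMap M Kb x) = algebraMap M Kb (τ x)) →
        ∀ φ : Pt Kb →+ Pt Kb, Trp D σ φ → ∀ (R : Pt Kb) (a : 𝓞 K), Ord β R → φ R = sm Kb a R →
          c τ = Ideal.Quotient.mk (Ideal.span {β}) a := by
  have hgal : IsGalois F Kb := mexta_gal
  obtain ⟨M, hfd, hMG, hM⟩ := exists_M hD hβ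
  have hnf : NumberField M := NumberField.of_module_finite F M
  obtain ⟨R₀, hR₀⟩ := exists_ord hβ
  have hk : sm Kb β R₀ = 0 := (hR₀ β).2 dvd_rfl
  have hcomm : ∀ (a b : 𝓞 K) (T : Pt Kb), sm Kb a (sm Kb b T) = sm Kb b (sm Kb a T) :=
    fun a b T => by rw [← sm_mul, mul_comm, sm_mul]
  have hs : ∀ τ : Gal(M/F), ∃ s : Kb ≃ₐ[F] Kb, ∀ x : M, s (x : Kb) = (τ x : M) :=
    fun τ => ⟨τ.liftNormal Kb, fun x => τ.liftNormal_commutes Kb x⟩
  choose s hs using hs
  choose p hp using fun τ => trp_exists hD (s τ)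
  have ha : ∀ τ, ∃ a : 𝓞 K, p τ R₀ = sm Kb a R₀ := fun τ =>
    cases_Kb hβ hR₀ (by rw [← trp_lin hD (hp τ), hk, map_zero])
  choose a ha using ha
  have key : ∀ (τ : Gal(M/F)) (σ : Kb ≃ₐ[F] Kb) (φ : Pt Kb →+ Pt Kb) (b : 𝓞 K),
      (∀ x : M, σ (x : Kb) = (τ x : M)) → Trp D σ φ → φ R₀ = sm Kb b R₀ → β ∣ b - a τ := by
    intro τ σ φ b h1 h2 h3
    have h4 := (hM σ (s τ) φ (p τ) h2 (hp τ)).2 (fun x => by rw [h1, hs]) R₀ hk
    rw [h3, ha] at h4
    exact (hR₀.sm_eq_iff b (a τ)).1 h4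
  have hmk : ∀ x y : 𝓞 K, β ∣ x - y →
      Ideal.Quotient.mk (Ideal.span {β}) x = Ideal.Quotient.mk (Ideal.span {β}) y := by
    intro x y h
    rw [Ideal.Quotient.eq, Ideal.mem_span_singleton]
    exact h
  have hmk' : ∀ x y : 𝓞 K,
      Ideal.Quotient.mk (Ideal.span {β}) x = Ideal.Quotient.mk (Ideal.span {β}) y → β ∣ x - y := by
    intro x y h
    rw [Ideal.Quotient.eq, Ideal.mem_span_singleton] at h
    exact h
  refine ⟨M, inferInstance, hnf, inferInstance, inferInstance, inferInstance,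
    { toFun := fun τ => Ideal.Quotient.mk (Ideal.span {β}) (a τ)
      map_one' := ?_
      map_mul' := ?_ }, hMG, ?_, ?_⟩
  · have h1 := key 1 (AlgEquiv.refl : Kb ≃ₐ[F] Kb) (AddMonoidHom.id _) 1 (fun x => rfl) trp_id
      (by rw [sm_one]; rfl)
    rw [← hmk _ _ h1, map_one]
  · intro τ τ'
    have h0 : Trp D (fun x => s τ (s τ' x)) ((p τ).comp (p τ')) := trp_comp (hp τ) (hp τ')
    have h1 := key (τ * τ') ((s τ').trans (s τ)) ((p τ).comp (p τ')) (a τ * a τ') (fun x => by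
        rw [AlgEquiv.trans_apply, hs, hs]
        rfl) h0
      (by rw [AddMonoidHom.comp_apply, ha τ', trp_lin hD (hp τ), ha τ, hcomm, sm_mul])
    rw [← hmk _ _ h1, map_mul]
  · intro τ τ' h
    have h1 : β ∣ a τ - a τ' := hmk' _ _ h
    have h2 : sm Kb (a τ) R₀ = sm Kb (a τ') R₀ := (hR₀.sm_eq_iff _ _).2 h1
    have h3 : ∀ x : M, s τ (x : Kb) = s τ' (x : Kb) :=
      (hM (s τ) (s τ') (p τ) (p τ') (hp τ) (hp τ')).1 fun T hT => by
        obtain ⟨b, rfl⟩ := cases_Kb hβ hR₀ hT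
        rw [trp_lin hD (hp τ), trp_lin hD (hp τ'), ha, ha, h2]
    refine AlgEquiv.ext fun x => ?_
    have h4 := h3 x
    rw [hs, hs] at h4
    exact Subtype.ext h4
  · intro τ σ hσ φ hφ R b hR hRb
    obtain ⟨d, rfl⟩ := cases_Kb hβ hR₀ ((hR β).2 dvd_rfl)
    obtain ⟨e, he⟩ := cases_Kb hβ hR₀ (Q := φ R₀) (by rw [← trp_lin hD hφ, hk, map_zero])
    have h1 := key τ σ φ e hσ hφ he
    have h2 : sm Kb b (sm Kb d R₀) = sm Kb e (sm Kb d R₀) := by
      rw [← hRb, trp_lin hD hφ, he, hcomm]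
    have h3 : β ∣ b - e := (hR.sm_eq_iff _ _).1 h2
    refine (hmk _ _ ?_).symm
    have h4 : b - a τ = (b - e) + (e - a τ) := by ring
    rw [h4]
    exact dvd_add h3 h1

end Pool.Agent.Lib.MP_1a91b9_nuX.PG
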