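import Pool.Agent.Lib.MP_1a91b9_nuX.PG.PsI
import Pool.Agent.Lib.MP_1a91b9_nuX.PG.GalA

/-!
# The values of the character at the norms of ideals from the field of division points

PROOFS. `have := h.gal`. Write `w = Q.under (𝓞 F)`, `f = Q.asIdeal.inertiaDeg (𝓞 F)`.
* `rep_prime`: `hin := h.inert Q hG hβ`; `τ, hτ` from `exists_frob Q`; `frob_pow Q hin hτ : τ ^ f = 1`. `c τ = mk (g w)` (`h.frob`), so `mk (g w ^ f) = c (τ ^ f) = 1` (`map_pow`, `map_one`), so `β ∣ g w ^ f - 1` (`Ideal.Quotient.eq`, `Ideal.mem_span_singleton`). `Ideal.relNorm (𝓞 F) Q.asIdeal = w.asIdeal ^ f` (`Ideal.relNorm_eq_pow_of_isMaximal Q.asIdeal w.asIdeal`, with `w.asIdeal.IsMaximal`, `Q.asIdeal.LiesOver w.asIdeal := ⟨rfl⟩`,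
  see `psi_facts` in nuX/GL/CntD.lean), `psI_pow`, `psI_prime`.
* `rep_ideal`: `ideal_ind` (with `p J := (∀ Q, J ≤ Q.asIdeal → ...) → β ∣ psI g (relNorm J) - 1`): `1`: `map_one`, `psI_one`, `sub_self`; `Q * J`: `map_mul`, `psI_mul`, `a * b - 1 = a (b - 1) + (a - 1)`.
* `rep_stab`: `card_stab Q hin hτ : Nat.card stabilizer = orderOf τ`; `τ ^ n = 1` because `c (τ ^ n) = mk (g w ^ n) = 1 = c 1` and `h.inj`; `orderOf_dvd_of_pow_eq_one`.
-/

set_option autoImplicit false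

namespace Pool.Agent.Lib.MP_1a91b9_nuX.PG

open NumberField IsDedekindDomain Pool.Agent.Lib.MP_1a91b9_nuT
open scoped Pointwise

variable [CD]

/-- a faithful representation `c` of the Galois group of `M` over `F` in the ring `𝓞 K` modulo `β` such that the
places `w` with `G w` and prime to `β` are unramified in `M` and their Frobenius automorphisms are mapped to `g w` -/
structure Rep {F : Type*} [Field F] [NumberField F] [Algebra K F] (β : 𝓞 K)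
    (G : HeightOneSpectrum (𝓞 F) → Prop) (g : HeightOneSpectrum (𝓞 F) → 𝓞 K)
    (M : Type*) [Field M] [NumberField M] [Algebra F M]
    (c : Gal(M/F) →* (𝓞 K ⧸ Ideal.span {β})) : Prop where
  gal : IsGalois F M
  inj : Function.Injective c
  inert : ∀ Q : HeightOneSpectrum (𝓞 M), G (Q.under (𝓞 F)) →
    β ∉ ((Q.under (𝓞 F)).under (𝓞 K)).asIdeal →
    ∀ τ : Gal(M/F), (∀ x : 𝓞 M, τ • x - x ∈ Q.asIdeal) → τ = 1
  frob : ∀ Q : HeightOneSpectrum (𝓞 M), G (Q.under (𝓞 F)) →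
    β ∉ ((Q.under (𝓞 F)).under (𝓞 K)).asIdeal →
    ∀ τ : Gal(M/F), (∀ x : 𝓞 M,
      τ • x - x ^ Ideal.absNorm (Q.under (𝓞 F)).asIdeal ∈ Q.asIdeal) →
    c τ = Ideal.Quotient.mk (Ideal.span {β}) (g (Q.under (𝓞 F)))

section
variable {F : Type*} [Field F] [NumberField F] [Algebra K F] {β : 𝓞 K}
  {G : HeightOneSpectrum (𝓞 F) → Prop} {g : HeightOneSpectrum (𝓞 F) → 𝓞 K}
  {M : Type*} [Field M] [NumberField M] [Algebra F M]
  {c : Gal(M/F) →* (𝓞 K ⧸ Ideal.span {β})}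

/-- the value at the norm of a prime ideal is `1` modulo `β` -/
theorem rep_prime (h : Rep β G g M c) (Q : HeightOneSpectrum (𝓞 M)) (hG : G (Q.under (𝓞 F)))
    (hβ : β ∉ ((Q.under (𝓞 F)).under (𝓞 K)).asIdeal) :
    β ∣ psI g (Ideal.relNorm (𝓞 F) Q.asIdeal) - 1 := by
  have := h.gal
  have hin := h.inert Q hG hβ
  obtain ⟨τ, hτ⟩ := exists_frob (F := F) Q
  have hp := frob_pow Q hin hτ
  have hc := h.frob Q hG hβ τ hτ
  have h0 : (Q.under (𝓞 F)).asIdeal.IsMaximal := (Q.under (𝓞 F)).isMaximal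
  have h1 : Q.asIdeal.LiesOver (Q.under (𝓞 F)).asIdeal := ⟨rfl⟩
  have hm : Q.asIdeal.IsMaximal := Q.isMaximal
  have hrel : Ideal.relNorm (𝓞 F) Q.asIdeal =
      (Q.under (𝓞 F)).asIdeal ^ Q.asIdeal.inertiaDeg (𝓞 F) :=
    Ideal.relNorm_eq_pow_of_isMaximal Q.asIdeal (Q.under (𝓞 F)).asIdeal
  rw [hrel, psI_pow, psI_prime]
  have h2 : Ideal.Quotient.mk (Ideal.span {β})
      (g (Q.under (𝓞 F)) ^ Q.asIdeal.inertiaDeg (𝓞 F) - 1) = 0 := by
    rw [map_sub, map_pow, ← hc, ← map_pow, hp, map_one, map_one, sub_self]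
  exact Ideal.mem_span_singleton.1 (Ideal.Quotient.eq_zero_iff_mem.1 h2)

/-- the value at the norm of an ideal is `1` modulo `β` -/
theorem rep_ideal (h : Rep β G g M c) (J : Ideal (𝓞 M)) (hJ : J ≠ ⊥)
    (hG : ∀ Q : HeightOneSpectrum (𝓞 M), J ≤ Q.asIdeal → G (Q.under (𝓞 F)) ∧
      β ∉ ((Q.under (𝓞 F)).under (𝓞 K)).asIdeal) :
    β ∣ psI g (Ideal.relNorm (𝓞 F) J) - 1 := by
  revert hG
  refine ideal_ind (p := fun J : Ideal (𝓞 M) => (∀ Q : HeightOneSpectrum (𝓞 M), J ≤ Q.asIdeal →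
      G (Q.under (𝓞 F)) ∧ β ∉ ((Q.under (𝓞 F)).under (𝓞 K)).asIdeal) →
    β ∣ psI g (Ideal.relNorm (𝓞 F) J) - 1) ?_ ?_ J hJ
  · intro _
    rw [map_one, psI_one, sub_self]
    exact dvd_zero β
  · intro Q J hJ ih hG
    have h1 := ih fun Q' hQ' => hG Q' (le_trans Ideal.mul_le_right hQ')
    have h2 := hG Q Ideal.mul_le_left
    have h3 := rep_prime h Q h2.1 h2.2
    rw [map_mul, psI_mul]
    have h4 : psI g (Ideal.relNorm (𝓞 F) Q.asIdeal) * psI g (Ideal.relNorm (𝓞 F) J) - 1 =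
        psI g (Ideal.relNorm (𝓞 F) Q.asIdeal) * (psI g (Ideal.relNorm (𝓞 F) J) - 1) +
          (psI g (Ideal.relNorm (𝓞 F) Q.asIdeal) - 1) := by ring
    rw [h4]
    exact dvd_add (h1.mul_left _) h3

/-- the order of the decomposition group divides `n` if `g w ^ n` is `1` modulo `β` -/
theorem rep_stab (h : Rep β G g M c) (Q : HeightOneSpectrum (𝓞 M)) (hG : G (Q.under (𝓞 F)))
    (hβ : β ∉ ((Q.under (𝓞 F)).under (𝓞 K)).asIdeal) {n : ℕ}
    (hn : β ∣ g (Q.under (𝓞 F)) ^ n - 1) :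
    Nat.card (MulAction.stabilizer Gal(M/F) Q.asIdeal) ∣ n := by
  have := h.gal
  have hin := h.inert Q hG hβ
  obtain ⟨τ, hτ⟩ := exists_frob (F := F) Q
  have hc := h.frob Q hG hβ τ hτ
  rw [card_stab Q hin hτ]
  refine orderOf_dvd_of_pow_eq_one (h.inj ?_)
  have h2 : Ideal.Quotient.mk (Ideal.span {β}) (g (Q.under (𝓞 F)) ^ n - 1) = 0 :=
    Ideal.Quotient.eq_zero_iff_mem.2 (Ideal.mem_span_singleton.2 hn)
  rw [map_sub, map_one, sub_eq_zero] at h2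
  rw [map_pow, map_one, hc, ← map_pow, h2]

end

end Pool.Agent.Lib.MP_1a91b9_nuX.PG
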