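import Pool.Agent.Lib.MP_1a91b9_nuX.PG.MExtA
import Pool.Agent.Lib.MP_1a91b9_nuX.PG.RepN
import Pool.Agent.Lib.MP_1a91b9_nuX.PG.Frw
import Pool.Agent.Lib.MP_1a91b9_nuX.GL.AbsL

/-!
# The ramification and the Frobenius automorphisms in the field of the division points

PROOF. `M, c` and the properties from `exists_c hD hβ`. Let `Q` be a place of `M`, `w = Q.under (𝓞 F)` good, `β ∉ (w.under (𝓞 K)).asIdeal`, `V` above `Q` (`exists_abv (Ω := Kb) Q`), `Abv w V` (`abv_res`, GL/AbsU.lean). `R` with `Ord β R` (`exists_ord hβ`): `sm β R = 0` and `V β = 1` (`val_one_iff (abv_res hw)`), so `Ta V.valuation R`.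
* `inert`: `τ` with `∀ x, τ • x - x ∈ Q.asIdeal`: `in_lift` (GL/AbsL.lean, `k = F`): `σ : Kb ≃ₐ[F] Kb` with `IsFr V 1 σ` and `σ (algebraMap M Kb x) = algebraMap M Kb (τ x)`; `φ` its transport (`trp_exists`); `trp_in hD hw hg hσ hφ : φ R = R = sm 1 R`, so `c τ = mk 1 = 1 = c 1` and `τ = 1` by injectivity.
* `frob`: `τ` with `∀ x, τ • x - x ^ q ∈ Q.asIdeal`, `q = N w`. `σ₀` with `IsFr V q σ₀` (`exists_fr hw`, GL/AbsF.lean; `Kb` is algebraic over `F`), `τ₀` its restriction to `M` (`AlgEquiv.restrictNormalHom M σ₀`, `AlgEquiv.restrictNormal_commutes`): `τ₀ • x - x ^ q ∈ Q.asIdeal` for `x : 𝓞 M` (the value of `algebraMap M Kb (x : M)` is at most one, and `V < 1` on `algebraMap M Kb (x : M)` means `x ∈ Q.asIdeal`: `abv_lt`, `HeightOneSpectrum.valuation_lt_one_iff_mem`).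
  So `(τ₀⁻¹ * τ) • x - x ∈ Q.asIdeal`: `τ • x - τ₀ • x ∈ Q` and `τ₀⁻¹` maps `Q.asIdeal` to itself (`τ₀` does: `x ∈ Q → τ₀ • x ∈ Q` as `x ^ q ∈ Q`; it has finite order, so `τ₀⁻¹` is a power of `τ₀`; or `Abv` and `fr_val`). By `inert`, `τ₀⁻¹ * τ = 1`, `τ = τ₀`. `φ₀` the transport of `σ₀`; `hg w _ V hw σ₀ _ φ₀ _ R _ : φ₀ R = sm (g w) R`, so `c τ₀ = mk (g w)`.
-/

set_option autoImplicit false

namespace Pool.Agent.Lib.MP_1a91b9_nuX.PG

open NumberField IsDedekindDomain WeierstrassCurve Pool.Agent.Lib.MP_1a91b9_nuT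
open Pool.Agent.Lib.MP_1a91b9_nuX.DB Pool.Agent.Lib.MP_1a91b9_nuX.GL

universe u

variable [CD] [DecidableEq Kb] {F : Type u} [Field F] [NumberField F] [Algebra K F]
  [Algebra F Kb] [IsScalarTower K F Kb] {W : WeierstrassCurve F} {D : VariableChange Kb}
  (hD : D • EF Kb = W.map (algebraMap F Kb))
include hD

/-- the representations on the division points -/
theorem exists_rep {g : HeightOneSpectrum (𝓞 F) → 𝓞 K}
    (hg : ∀ w : HeightOneSpectrum (𝓞 F),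
      (∃ C : VariableChange F, GM.GoodW (w.valuation F) (C • W)) → FrV D w (g w))
    {β : 𝓞 K} (hβ : β ≠ 0) : ∃ (M : Type) (_ : Field M) (_ : NumberField M)
      (_ : Algebra F M) (c : Gal(M/F) →* (𝓞 K ⧸ Ideal.span {β})),
      Rep β (fun w => ∃ C : VariableChange F, GM.GoodW (w.valuation F) (C • W)) g M c := by
  obtain ⟨M, iF, iN, iFM, iMK, iT, c, hgal, hinj, hc⟩ := exists_c hD hβ
  have halg : Algebra.IsAlgebraic F Kb := Algebra.IsAlgebraic.tower_top (K := K) F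
  -- a point of exact order `β` is prime to the place
  have hta : ∀ Q : HeightOneSpectrum (𝓞 M), β ∉ ((Q.under (𝓞 F)).under (𝓞 K)).asIdeal →
      ∀ V : ValuationSubring Kb, Abv Q V → ∀ R : Pt Kb, Ord β R → Ta V.valuation R := by
    intro Q hQ V hV R hR
    have hw : Abv (Q.under (𝓞 F)) V := abv_res hV
    have hP : Abv ((Q.under (𝓞 F)).under (𝓞 K)) V := abv_res hw
    exact ⟨β, (val_one_iff hP β).mpr hQ, (hR β).mpr dvd_rfl⟩
  have hin : ∀ Q : HeightOneSpectrum (𝓞 M),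
      (∃ C : VariableChange F, GM.GoodW ((Q.under (𝓞 F)).valuation F) (C • W)) →
      β ∉ ((Q.under (𝓞 F)).under (𝓞 K)).asIdeal →
      ∀ τ : Gal(M/F), (∀ x : 𝓞 M, τ • x - x ∈ Q.asIdeal) → τ = 1 := by
    intro Q hG hQ τ hτ
    obtain ⟨V, hV⟩ := exists_abv (Ω := Kb) Q
    have hw : Abv (Q.under (𝓞 F)) V := abv_res hV
    obtain ⟨R, hR⟩ := exists_ord hβ
    obtain ⟨σ, hσ, hσM⟩ := in_lift hV hτ
    obtain ⟨φ, hφ⟩ := trp_exists hD σ
    have h1 : φ R = R := trp_in hD hw hG hσ hφ (hta Q hQ V hV R hR)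
    have h2 := hc τ σ hσM φ hφ R 1 hR (by rw [h1, sm_one])
    refine hinj ?_
    rw [h2, map_one, map_one]
  refine ⟨M, iF, iN, iFM, c, ⟨hgal, hinj, hin, ?_⟩⟩
  intro Q hG hQ τ hτ
  obtain ⟨V, hV⟩ := exists_abv (Ω := Kb) Q
  have hw : Abv (Q.under (𝓞 F)) V := abv_res hV
  obtain ⟨R, hR⟩ := exists_ord hβ
  have hTa := hta Q hQ V hV R hR
  obtain ⟨σ₀, hσ₀⟩ := exists_fr hw
  obtain ⟨τ₀, hτ₀⟩ : ∃ τ₀ : Gal(M/F), ∀ x : M,
      σ₀ (algebraMap M Kb x) = algebraMap M Kb (τ₀ x) :=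
    ⟨AlgEquiv.restrictNormal σ₀ M, fun x => (AlgEquiv.restrictNormal_commutes σ₀ M x).symm⟩
  have h1 : ∀ x : 𝓞 M, τ₀ • x - x ^ Ideal.absNorm (Q.under (𝓞 F)).asIdeal ∈ Q.asIdeal := by
    intro x
    rw [← GM.val_lt_mem (w := Q), ← abv_lt hV]
    have h2 : algebraMap M Kb
        ((τ₀ • x - x ^ Ideal.absNorm (Q.under (𝓞 F)).asIdeal : 𝓞 M) : M) =
        σ₀ (algebraMap M Kb (x : M)) -
          (algebraMap M Kb (x : M)) ^ Ideal.absNorm (Q.under (𝓞 F)).asIdeal := by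
      rw [hτ₀, ← map_pow, ← map_sub]
      rfl
    rw [h2]
    exact hσ₀ _ ((hV _).mpr (Q.valuation_le_one x))
  have h3 : τ₀⁻¹ * τ = 1 := by
    refine hin Q hG hQ _ fun x => ?_
    have h4 : τ₀ • ((τ₀⁻¹ * τ) • x - x) = τ • x - τ₀ • x := by
      rw [smul_sub, mul_smul, smul_inv_smul]
    have h5 : τ • x - τ₀ • x ∈ Q.asIdeal := by
      have h6 := Q.asIdeal.sub_mem (hτ x) (h1 x)
      rw [sub_sub_sub_cancel_right] at h6
      exact h6
    have h7 := h1 ((τ₀⁻¹ * τ) • x - x)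
    rw [h4] at h7
    have h8 := Q.asIdeal.sub_mem h5 h7
    rw [sub_sub_cancel] at h8
    exact Q.isPrime.mem_of_pow_mem _ h8
  have h9 : τ = τ₀ := by
    have h10 := inv_mul_eq_one.mp h3
    exact h10.symm
  obtain ⟨φ₀, hφ₀⟩ := trp_exists hD σ₀
  rw [h9]
  exact hc τ₀ σ₀ hτ₀ φ₀ hφ₀ R (g (Q.under (𝓞 F))) hR
    (hg (Q.under (𝓞 F)) hG V hw σ₀ hσ₀ φ₀ hφ₀ R hTa)

end Pool.Agent.Lib.MP_1a91b9_nuX.PG
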