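import Pool.Agent.Lib.MP_1a91b9_nuX.PG.StepR

/-!
# The ray property for the modulus of the places of bad reduction

PROOFS.
* `split_w`: `w.asIdeal` is prime in the unique factorization monoid `Ideal (𝓞 F)`; `f ≠ 0` has finite multiplicity: `FiniteMultiplicity.exists_eq_pow_mul_and_not_dvd` (or strong induction on `Ideal.absNorm f`: if `f = w * f₁` and `f₁ ≤ w` continue); `k ≠ 0` because `w.asIdeal ∣ f` (`Ideal.dvd_iff_le`).
* `ray_all`: strong induction on `Ideal.absNorm f`. If there is `w₀` with `G w₀` and `f ≤ w₀.asIdeal`: `split_w`: `f = w₀.asIdeal ^ k * f'`. `hbad'` : for `¬ G w`: `f ≤ w.asIdeal` is prime so `w₀.asIdeal ≤ w.asIdeal` (then `w₀ = w` by maximality, impossible because `G w₀`) or `f' ≤ w.asIdeal` (`Ideal.IsPrime.mul_le`, `Ideal.IsPrime.pow_le_iff`, or `Prime.dvd_mul`). `ray_step` gives the ray property for `f'`.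
  `Ideal.absNorm f' < Ideal.absNorm f` (`map_mul`, `map_pow`, `1 < absNorm w₀.asIdeal`, `absNorm f' ≠ 0`). Otherwise `m = f`: `f ≤ w.asIdeal → ¬ G w` by assumption, and conversely `hbad`.
-/

set_option autoImplicit false

namespace Pool.Agent.Lib.MP_1a91b9_nuX.PG

open NumberField IsDedekindDomain Pool.Agent.Lib.MP_1a91b9_nuT
open Pool.Agent.Lib.MP_1a91b9_nuT.S4 (nK)

variable [CD] {F : Type*} [Field F] [NumberField F] [Algebra K F]

/-- a modulus is the product of a power of a prime divisor and an ideal which is not divisible by it -/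
theorem split_w {f : Ideal (𝓞 F)} (hf : f ≠ ⊥) {w : HeightOneSpectrum (𝓞 F)} (hw : f ≤ w.asIdeal) :
    ∃ (k : ℕ) (f' : Ideal (𝓞 F)), k ≠ 0 ∧ f = w.asIdeal ^ k * f' ∧ f' ≠ ⊥ ∧ ¬ f' ≤ w.asIdeal := by
  have hpr : Prime w.asIdeal := w.prime
  have hf0 : f ≠ 0 := hf
  have hfin : FiniteMultiplicity w.asIdeal f :=
    FiniteMultiplicity.of_prime_left hpr hf0
  obtain ⟨f', h1, h2⟩ := hfin.exists_eq_pow_mul_and_not_dvd
  refine ⟨multiplicity w.asIdeal f, f', ?_, h1, ?_, ?_⟩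
  · intro h0
    rw [h0, pow_zero, one_mul] at h1
    exact h2 (h1 ▸ Ideal.dvd_iff_le.2 hw)
  · rintro rfl
    rw [Ideal.mul_bot] at h1
    exact hf h1
  · intro h
    exact h2 (Ideal.dvd_iff_le.2 h)

/-- **The ray property for the modulus of the places of bad reduction.** -/
theorem ray_all {G : HeightOneSpectrum (𝓞 F) → Prop} {g : HeightOneSpectrum (𝓞 F) → 𝓞 K}
    (hg : ∀ w, G w → Ideal.span {g w} = Ideal.relNorm (𝓞 K) w.asIdeal)
    (hrep : ∀ β : 𝓞 K, β ≠ 0 → ∃ (M : Type) (_ : Field M) (_ : NumberField M)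
      (_ : Algebra F M) (c : Gal(M/F) →* (𝓞 K ⧸ Ideal.span {β})), Rep β G g M c)
    {f : Ideal (𝓞 F)} (hf : f ≠ ⊥) (hbad : ∀ w, ¬ G w → f ≤ w.asIdeal)
    (hray : ∀ a : 𝓞 F, a - 1 ∈ f → psI g (Ideal.span {a}) = nK a) :
    ∃ m : Ideal (𝓞 F), m ≠ ⊥ ∧ (∀ w : HeightOneSpectrum (𝓞 F), m ≤ w.asIdeal ↔ ¬ G w) ∧
      ∀ a : 𝓞 F, a - 1 ∈ m → psI g (Ideal.span {a}) = nK a := by
  suffices H : ∀ (n : ℕ) (f : Ideal (𝓞 F)), Ideal.absNorm f = n → f ≠ ⊥ →
      (∀ w, ¬ G w → f ≤ w.asIdeal) →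
      (∀ a : 𝓞 F, a - 1 ∈ f → psI g (Ideal.span {a}) = nK a) →
      ∃ m : Ideal (𝓞 F), m ≠ ⊥ ∧ (∀ w : HeightOneSpectrum (𝓞 F), m ≤ w.asIdeal ↔ ¬ G w) ∧
        ∀ a : 𝓞 F, a - 1 ∈ m → psI g (Ideal.span {a}) = nK a from
    H _ f rfl hf hbad hray
  intro n
  induction n using Nat.strong_induction_on with
  | _ n ih =>
    intro f hn hf hbad hray
    by_cases hex : ∃ w₀ : HeightOneSpectrum (𝓞 F), G w₀ ∧ f ≤ w₀.asIdeal
    · obtain ⟨w₀, h0, hfw⟩ := hex
      obtain ⟨k, f', hk, rfl, hf', hcop⟩ := split_w hf hfw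
      have hbad' : ∀ w, ¬ G w → f' ≤ w.asIdeal := by
        intro w hw
        have h1 := hbad w hw
        rcases w.isPrime.mul_le.1 h1 with h2 | h2
        · exfalso
          have h3 : w₀.asIdeal ≤ w.asIdeal := w.isPrime.le_of_pow_le h2
          have h4 : w₀.asIdeal = w.asIdeal :=
            (w₀.isMaximal).eq_of_le w.isPrime.ne_top h3
          have h5 : w₀ = w := HeightOneSpectrum.ext h4
          exact hw (h5 ▸ h0)
        · exact h2
      have hray' : ∀ a : 𝓞 F, a - 1 ∈ f' → psI g (Ideal.span {a}) = nK a :=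
        fun a ha => ray_step hg h0 hf' hbad' hrep hcop hk hray a ha
      have hlt : Ideal.absNorm f' < n := by
        rw [← hn, map_mul, map_pow]
        have h1 : 0 < Ideal.absNorm f' :=
          Nat.pos_of_ne_zero (fun h => hf' (Ideal.absNorm_eq_zero_iff.1 h))
        have h2 : 1 < Ideal.absNorm w₀.asIdeal := by
          have h3 : Ideal.absNorm w₀.asIdeal ≠ 0 :=
            fun h => w₀.ne_bot (Ideal.absNorm_eq_zero_iff.1 h)
          have h4 : Ideal.absNorm w₀.asIdeal ≠ 1 :=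
            fun h => w₀.isPrime.ne_top (Ideal.absNorm_eq_one_iff.1 h)
          omega
        have h3 : 1 < Ideal.absNorm w₀.asIdeal ^ k := Nat.one_lt_pow hk h2
        nlinarith
      exact ih _ hlt f' rfl hf' hbad' hray'
    · refine ⟨f, hf, fun w => ⟨fun h hG => hex ⟨w, hG, h⟩, hbad w⟩, hray⟩

end Pool.Agent.Lib.MP_1a91b9_nuX.PG
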