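import Pool.Agent.Lib.MP_1a91b9_nuX.PG.Defs
import Pool.Agent.Lib.MP_1a91b9_nuX.PG.EulW
import Pool.Agent.Lib.MP_1a91b9_nuX.PG.MExtB
import Pool.Agent.Lib.MP_1a91b9_nuX.PG.RayI
import Pool.Agent.Lib.MP_1a91b9_nuX.PG.Ini

/-!
# The primitive Hecke character of the curve over a field which contains `K`
-/

set_option autoImplicit false

namespace Pool.Agent.Lib.MP_1a91b9_nuX.PG

open NumberField IsDedekindDomain WeierstrassCurve Pool.Agent.Lib.MP_1a91b9_nuT
  Pool.Agent.Lib.MP_1a91b9_nt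
open Pool.Agent.Lib.MP_1a91b9_nuX.DB Pool.Agent.Lib.MP_1a91b9_nuX.GL
open Pool.Agent.Lib.MP_1a91b9_nuT.S4 (nK)

variable [CD]

universe u

section
variable [DecidableEq Kb] {F : Type u} [Field F] [NumberField F] [Algebra K F] [Algebra F Kb]
  [IsScalarTower K F Kb] {W : WeierstrassCurve F} {D : VariableChange Kb}
  (hD : D • EF Kb = W.map (algebraMap F Kb))
include hD

/-- the values of the character at all the places -/
theorem exists_vals (hE : GL.EllK) : ∃ g : HeightOneSpectrum (𝓞 F) → 𝓞 K,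
    (∀ w, Gd W w → Ideal.span {g w} = Ideal.relNorm (𝓞 K) w.asIdeal ∧ FrV D w (g w)) ∧
    ∀ w, ¬ Gd W w → g w = 0 := by
  classical
  refine ⟨fun w => if h : Gd W w then (exists_frv hD hE h).choose else 0, fun w h => ?_,
    fun w h => ?_⟩
  · dsimp only
    rw [dif_pos h]
    exact (exists_frv hD hE h).choose_spec
  · dsimp only
    rw [dif_neg h]

/-- the character from the values and the ray property for some modulus -/
theorem fdat_core {g : HeightOneSpectrum (𝓞 F) → 𝓞 K}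
    (hg1 : ∀ w, Gd W w → Ideal.span {g w} = Ideal.relNorm (𝓞 K) w.asIdeal ∧ FrV D w (g w))
    (hg2 : ∀ w, ¬ Gd W w → g w = 0) {f : Ideal (𝓞 F)} (hf : f ≠ ⊥)
    (hfb : ∀ w : HeightOneSpectrum (𝓞 F), ¬ Gd W w → f ≤ w.asIdeal)
    (hray : ∀ a : 𝓞 F, a - 1 ∈ f → psI g (Ideal.span {a}) = nK a) :
    ∃ m : Ideal (𝓞 F), FDat F W m (psI g) := by
  obtain ⟨m, hm0, hm, hmr⟩ := ray_all (G := fun w => Gd W w) (g := g) (fun w h => (hg1 w h).1)
    (fun β hβ => exists_rep hD (fun w h => (hg1 w h).2) hβ) hf hfb hray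
  refine ⟨m, hm0, hm, psI_one g, psI_mul g, fun I hI => ?_, fun I hI => ?_, hmr, fun w => ?_⟩
  · by_cases hI0 : I = ⊥
    · rw [hI0, psI_bot, Ideal.relNorm_bot]
      exact Ideal.span_singleton_eq_bot.2 rfl
    · refine psI_span I (fun w hw => (hg1 w ?_).1) hI0
      by_contra hgw
      have h1 := (hm w).2 hgw
      rw [Ideal.isCoprime_iff_sup_eq] at hI
      have h2 : I ⊔ m ≤ w.asIdeal := sup_le hw h1
      rw [hI, top_le_iff] at h2
      exact w.isPrime.ne_top h2
  · rw [Ideal.isCoprime_iff_sup_eq] at hI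
    obtain ⟨P, hP, hle⟩ := Ideal.exists_le_maximal _ hI
    have hP0 : P ≠ ⊥ := by
      rintro rfl
      have h3 : m ≤ ⊥ := le_sup_right.trans hle
      exact hm0 (le_bot_iff.1 h3)
    obtain ⟨w, hw⟩ : ∃ w : HeightOneSpectrum (𝓞 F), w.asIdeal = P := ⟨⟨P, hP.isPrime, hP0⟩, rfl⟩
    rw [← hw] at hle
    exact psI_zero (le_sup_left.trans hle) (hg2 w ((hm w).1 (le_sup_right.trans hle)))
  · rw [psI_prime]
    by_cases h : Gd W w
    · exact loc_goodW hD (hg1 w h).1 (hg1 w h).2 h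
    · rw [hg2 w h, loc_badW hD h, Polynomial.map_one]
      simp

end

variable [HC]

/-- the curve over `Kb` -/
theorem map_E_Kb {F : Type u} [Field F] [NumberField F] [Algebra K F] [Algebra F Kb]
    [IsScalarTower K F Kb] : (1 : VariableChange Kb) • EF Kb = (E F).map (algebraMap F Kb) := by
  rw [one_smul, ← EF_eq F, WeierstrassCurve.map_map, ← IsScalarTower.algebraMap_eq]

/-- the primitive character, with the action of the Frobenius automorphisms -/
theorem exists_all [DecidableEq Kb] (hE : GL.EllK) (F : Type u) [Field F] [NumberField F]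
    [Algebra K F] [Algebra F Kb] [IsScalarTower K F Kb] :
    ∃ (m : Ideal (𝓞 F)) (ps : Ideal (𝓞 F) → 𝓞 K), FDat F (E F) m ps ∧ Cmp ps ∧
      (∀ w, Gd (E F) w → Ideal.span {ps w.asIdeal} = Ideal.relNorm (𝓞 K) w.asIdeal ∧
        FrV (1 : VariableChange Kb) w (ps w.asIdeal)) ∧
      ∀ w : HeightOneSpectrum (𝓞 F), ¬ Gd (E F) w → ps w.asIdeal = 0 := by
  have hD := map_E_Kb (F := F)
  obtain ⟨g, hg1, hg2⟩ := exists_vals hD hE
  have hgf : ∀ w : HeightOneSpectrum (𝓞 F), HC.f ∉ (w.under (𝓞 K)).asIdeal → Gd (E F) w :=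
    fun w hw => good_w hw
  have hfv : ∀ w : HeightOneSpectrum (𝓞 F), HC.f ∉ (w.under (𝓞 K)).asIdeal →
      FrV (1 : VariableChange Kb) w (g w) := fun w hw => (hg1 w (hgf w hw)).2
  obtain ⟨m, hm⟩ := fdat_core hD hg1 hg2 (f := Ideal.span {algebraMap (𝓞 K) (𝓞 F) HC.f}) (by
      rw [Ne, Ideal.span_singleton_eq_bot]
      intro h
      exact HC.hd.ne ((FaithfulSMul.algebraMap_injective (𝓞 K) (𝓞 F)) (by rw [map_zero]; exact h)))
    (fun w hw => by
      rw [Ideal.span_singleton_le_iff_mem]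
      by_contra h
      exact hw (hgf w h))
    (fun a ha => ini_ray hD (c := HC.f) (g := 1) dvd_rfl (one_dvd _) hfv (by
      intro σ _ T hT
      have hu : (((1 : VariableChange Kb).u : Kbˣ) : Kb) = 1 := rfl
      have hr : (1 : VariableChange Kb).r = 0 := rfl
      have hs : (1 : VariableChange Kb).s = 0 := rfl
      have ht : (1 : VariableChange Kb).t = 0 := rfl
      refine ⟨fun h => hT ((gk_ne σ).1 h), ?_, ?_⟩
      · unfold cx
        rw [xc_gk, hu, hr, one_pow, div_one, div_one, sub_zero, sub_zero]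
      · unfold cy
        rw [xc_gk, yc_gk, hu, hr, hs, ht, one_pow, div_one, div_one, zero_mul, zero_mul,
          sub_zero, sub_zero, sub_zero, sub_zero]) a ha)
  refine ⟨m, psI g, hm, fun w hw => ?_, fun w hw => ?_, fun w hw => ?_⟩
  · rw [psI_prime]
    exact frv_unique hD (hfv w hw) (frv_psi hw)
  · rw [psI_prime]
    exact hg1 w hw
  · rw [psI_prime]
    exact hg2 w hw

/-- the primitive character exists -/
theorem exists_fdat (hE : GL.EllK) (F : Type u) [Field F] [NumberField F] [Algebra K F] :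
    ∃ (m : Ideal (𝓞 F)) (ps : Ideal (𝓞 F) → 𝓞 K), FDat F (E F) m ps ∧ Cmp ps := by
  classical
  have halg : Algebra.IsAlgebraic K F := Algebra.IsAlgebraic.of_finite K F
  let i : F →ₐ[K] Kb := IsAlgClosed.lift
  let _ : Algebra F Kb := i.toRingHom.toAlgebra
  have ht : IsScalarTower K F Kb := IsScalarTower.of_algebraMap_eq fun x => (i.commutes x).symm
  obtain ⟨m, ps, h1, h2, -⟩ := exists_all hE F
  exact ⟨m, ps, h1, h2⟩

/-- the primitive character over `F = N K` and the curves over `N` which become isomorphic to the curve over `F` -/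
theorem exists_fdatN (hE : GL.EllK) {N F : Type u} [Field N] [NumberField N] [Field F] [NumberField F]
    [Algebra N F] [Algebra K F] (h2 : Module.finrank N F = 2)
    (hn : ∀ x : N, algebraMap N F x ≠ algebraMap K F (ta : K)) (W : WeierstrassCurve N)
    (hW : ∃ C : VariableChange F, C • W.map (algebraMap N F) = E F) :
    ∃ (m : Ideal (𝓞 F)) (ps : Ideal (𝓞 F) → 𝓞 K), FDat F (E F) m ps ∧ Cmp ps ∧ EulD W ps := by
  classical
  have halg : Algebra.IsAlgebraic K F := Algebra.IsAlgebraic.of_finite K F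
  let i : F →ₐ[K] Kb := IsAlgClosed.lift
  let _ : Algebra F Kb := i.toRingHom.toAlgebra
  have ht : IsScalarTower K F Kb := IsScalarTower.of_algebraMap_eq fun x => (i.commutes x).symm
  let _ : Algebra N Kb := (i.toRingHom.comp (algebraMap N F)).toAlgebra
  have ht' : IsScalarTower N F Kb := IsScalarTower.of_algebraMap_eq fun x => rfl
  have hfin : Module.Finite N F := Module.finite_of_finrank_pos (by rw [h2]; exact two_pos)
  have hKb : Algebra.IsAlgebraic F Kb := Algebra.IsAlgebraic.tower_top (K := K) F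
  have hNF : Algebra.IsAlgebraic N F := Algebra.IsAlgebraic.of_finite N F
  have hNKb : Algebra.IsAlgebraic N Kb := Algebra.IsAlgebraic.trans N F Kb
  obtain ⟨m, ps, h1, h3, h4, h5⟩ := exists_all hE F
  refine ⟨m, ps, h1, h3, ?_⟩
  obtain ⟨C, hC⟩ := hW
  have hC' : C⁻¹ • E F = W.map (algebraMap N F) := by rw [← hC, inv_smul_smul]
  obtain ⟨D, hDe⟩ : ∃ D : VariableChange Kb, D = C⁻¹.map (algebraMap F Kb) * 1 := ⟨_, rfl⟩
  have hD1 : D • EF Kb = (W.map (algebraMap N F)).map (algebraMap F Kb) := by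
    rw [hDe, md_chg (map_E_Kb (F := F)) C⁻¹, hC']
  have hD : D • EF Kb = W.map (algebraMap N Kb) := by
    rw [hD1, WeierstrassCurve.map_map, ← IsScalarTower.algebraMap_eq]
  have hGd : ∀ w : HeightOneSpectrum (𝓞 F), Gd (W.map (algebraMap N F)) w ↔ Gd (E F) w := by
    intro w
    constructor
    · rintro ⟨C₁, h⟩
      refine ⟨C₁ * C⁻¹, ?_⟩
      rw [mul_smul, hC']
      exact h
    · rintro ⟨C₁, h⟩
      refine ⟨C₁ * C, ?_⟩
      rw [mul_smul, hC]
      exact h
  refine eulD_of hD h2 hn (fun w hw => ?_) (fun w hw => h5 w fun h => hw ((hGd w).2 h))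
  obtain ⟨g1, g2⟩ := h4 w ((hGd w).1 hw)
  refine ⟨g1, fun V hV σ hσ φ hφ T hT => g2 V hV σ hσ φ ?_ T hT⟩
  rw [hDe] at hφ
  exact (trp_chg C⁻¹ σ).2 hφ

end Pool.Agent.Lib.MP_1a91b9_nuX.PG
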