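import Pool.Agent.Lib.MP_1a91b9_nuX.PG.TrpB
import Pool.Agent.Lib.MP_1a91b9_nuX.GL.Crit

/-!
# A semilinear inertia automorphism at a place of good reduction acts as `± 1`

`N` does not contain `K`, `F = N K`; `τ` is an automorphism over `N` which acts trivially on the residue field of `V` and by
conjugation on `K`; `W` is a curve over `N`, and over `F` it has good reduction at `w`.

PROOFS.
* `ram_sq`: `τ₂ : Kb ≃ₐ[F] Kb` with `τ₂ x = τ (τ x)` (`AlgEquiv.ofRingEquiv (f := τ.toRingEquiv.trans τ.toRingEquiv) hsq`, see `phi_sq` in GL/InrC.lean). `IsFr V 1 τ₂`: `τ (τ x) - x ^ 1 = (τ (τ x) - τ x) + (τ x - x)`, `hτ` for `τ x` and `x` (`fr_le`).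
  `Trp D τ₂ (φ.comp φ)`: `trp_comp hφ hφ`. `md_up hD : D • EF Kb = (W.map (algebraMap N F)).map (algebraMap F Kb)`, so `trp_in (md_up hD) hV hg : (φ.comp φ) T = T`.
* `ram_aff`: `C` from `hg`, `D' = C.map (algebraMap F Kb) * D`; `GoodC V.valuation D'` by `goodC_of (md_chg (md_up hD) C) hV hC`. Put `u, r` = the images in `Kb` of `C.u`, `C.r`. For every point `P`: `cx D' P = (cx D P - r) / u ^ 2` (unfold as in the proof of `trp_chg`, PG/TrpA.lean), so `cx D P = u ^ 2 * cx D' P + r`.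
  `cx D' (φ T) = (τ (cx D T) - r) / u ^ 2 = (τ u / u) ^ 2 * τ (cx D' T) + (τ r - r) / u ^ 2`. `a = (τ u / u) ^ 2`, `b = (τ r - r) / u ^ 2`. `V a = 1`: `fr_val (abv_res hV : Abv (w.under (𝓞 N)) V) hτ u : V (τ u) = V u` (GL/AbsV.lean).
  `V (cx D' (φ T) - (a cx D' T + b)) = V (a (τ (cx D' T) - cx D' T)) < 1` by `hτ` (with `x ^ 1 = x`) because `V (cx D' T) ≤ 1` (`tr_not_kr hG hT h0`, `not_krc`). `V b ≤ 1`: take one `Tr` point `T ≠ 0` (`exists_prime (abv_res hV : Abv (w.under (𝓞 K)) V) 5`, `exists_pt_prime`): `b = cx D' (φ T) - a cx D' T - small`, both integral (`φ T` is `Tr` by `tr_hom`, not zero by `hφ`).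
* `ram_pm`: `D', a, b` from `ram_aff`. FIRST CLAIM: for every prime `l` with `V l = 1` there is `T ≠ 0` with `l • T = 0` and `cx D' (φ T) = cx D' T`: `R ≠ 0`, `l • R = 0` (`exists_pt_prime`), `S = R + φ R`, `φ S = φ R + φ (φ R) = S` (`ram_sq`, `R` is `Tr` hence `Ta`: `tr_ta`). If `S ≠ 0` take `T = S`, otherwise `φ R = -R`, take `T = R` (`cx_neg`).
  Two primes `l ≠ l'` (`exists_prime` for `5` and for `l + 1`) with points `T`, `T'`: `V ((1 - a) cx D' T - b) < 1`, `V ((1 - a) cx D' T' - b) < 1`, so `V ((1 - a) (cx D' T - cx D' T')) < 1`. `V (cx D' T - cx D' T') = 1`: `krc_unit hG` (GL/ChgA.lean: the value is `max 1 (V (cx D' T'))` and `V (cx D' T') ≤ 1`); `T - T'`, `T + T'` are killed by `l * l'`, they are `Tr`, and not zero (otherwise `T` would be killed by `l` and `l'`, coprime),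
  so not in `KrC` (`tr_not_kr`). So `V (1 - a) < 1`, `V b < 1`. For any `T` in `Tr`, `T ≠ 0`: `V (cx D' (φ T) - cx D' T) < 1`, `krc_of_x hG` (GL/ChgA.lean): `KrC (φ T - T)` or `KrC (φ T + T)`; these points are `Tr`, so zero (`tr_not_kr`): `φ T = T` or `φ T = -T`. For `T = 0`: `map_zero`.
-/

set_option autoImplicit false

namespace Pool.Agent.Lib.MP_1a91b9_nuX.PG

open NumberField IsDedekindDomain WeierstrassCurve Pool.Agent.Lib.MP_1a91b9_nuT
open Pool.Agent.Lib.MP_1a91b9_nuX.DB Pool.Agent.Lib.MP_1a91b9_nuX.GL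

universe u

private theorem ramn_cx [CD] {k : Type u} [Field k] [Algebra k Kb] {D : VariableChange Kb}
    (C : VariableChange k) (P : Pt Kb) :
    cx (C.map (algebraMap k Kb) * D) P =
      (cx D P - algebraMap k Kb C.r) / (algebraMap k Kb (C.u : k)) ^ 2 := by
  have hu : (D.u : Kb) ≠ 0 := D.u.ne_zero
  have hc : algebraMap k Kb (C.u : k) ≠ 0 := by
    rw [Ne, map_eq_zero]
    exact C.u.ne_zero
  have hr : (C.map (algebraMap k Kb) * D).r = algebraMap k Kb C.r * (D.u : Kb) ^ 2 + D.r := rfl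
  have hu' : ((C.map (algebraMap k Kb) * D).u : Kb) = algebraMap k Kb (C.u : k) * (D.u : Kb) :=
    rfl
  unfold cx
  rw [hr, hu']
  field_simp
  ring

private theorem ramn_cop {A : Type*} [AddCommGroup A] {l l' : ℕ} (h : Nat.Coprime l l') {T : A}
    (h1 : l • T = 0) (h2 : l' • T = 0) : T = 0 := by
  have h3 := addOrderOf_dvd_iff_nsmul_eq_zero.2 h1
  have h4 := addOrderOf_dvd_iff_nsmul_eq_zero.2 h2
  have h5 : addOrderOf T = 1 := Nat.dvd_one.1 (h ▸ Nat.dvd_gcd h3 h4)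
  exact AddMonoid.addOrderOf_eq_one_iff.1 h5

variable [CD] [DecidableEq Kb] {N F : Type u} [Field N] [NumberField N] [Field F] [NumberField F]
  [Algebra K F] [Algebra N F] [Algebra F Kb] [Algebra N Kb] [IsScalarTower K F Kb]
  [IsScalarTower N F Kb] {W : WeierstrassCurve N} {D : VariableChange Kb}
  (hD : D • EF Kb = W.map (algebraMap N Kb)) {w : HeightOneSpectrum (𝓞 F)}
  {V : ValuationSubring Kb} (hV : Abv w V)
  (hg : ∃ C : VariableChange F, GM.GoodW (w.valuation F) (C • W.map (algebraMap N F)))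
  {τ : Kb ≃ₐ[N] Kb} (hτ : IsFr V 1 τ)
  (hsq : ∀ x : F, τ (τ (algebraMap F Kb x)) = algebraMap F Kb x)
  {φ : Pt Kb →+ Pt Kb} (hφ : Trp D τ φ)
include hD hV hg hτ hφ

theorem ram_aff : ∃ (D' : VariableChange Kb) (a b : Kb), GoodC V.valuation D' ∧
    V.valuation a = 1 ∧ V.valuation b ≤ 1 ∧ ∀ T : Pt Kb, T ≠ 0 → Tr V.valuation T →
      V.valuation (cx D' (φ T) - (a * cx D' T + b)) < 1 := by
  obtain ⟨C, hC⟩ := hg
  have hD' := md_chg (md_up (F := F) hD) C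
  have hG : GoodC V.valuation (C.map (algebraMap F Kb) * D) := goodC_of hD' hV hC
  obtain ⟨u, hu⟩ : ∃ u : Kb, u = algebraMap F Kb (C.u : F) := ⟨_, rfl⟩
  obtain ⟨r, hr⟩ : ∃ r : Kb, r = algebraMap F Kb C.r := ⟨_, rfl⟩
  have hu0 : u ≠ 0 := by
    rw [hu, Ne, map_eq_zero]
    exact C.u.ne_zero
  have hcx : ∀ P : Pt Kb, cx (C.map (algebraMap F Kb) * D) P = (cx D P - r) / u ^ 2 := by
    intro P
    rw [hu, hr]
    exact ramn_cx C P
  have hcx' : ∀ P : Pt Kb, cx D P = u ^ 2 * cx (C.map (algebraMap F Kb) * D) P + r := by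
    intro P
    rw [hcx, mul_div_cancel₀ _ (pow_ne_zero 2 hu0)]
    ring
  have hP : Abv (w.under (𝓞 N)) V := abv_res hV
  have hQ : Algebra.IsAlgebraic ℚ Kb := Algebra.IsAlgebraic.trans ℚ K Kb
  have hN : Algebra.IsAlgebraic N Kb := Algebra.IsAlgebraic.tower_top (K := ℚ) N
  have hVa : V.valuation ((τ u / u) ^ 2) = 1 := by
    rw [map_pow, map_div₀, fr_val hP hτ u, div_self, one_pow]
    exact (Valuation.ne_zero_iff _).2 hu0
  have hab : ∀ T : Pt Kb, T ≠ 0 → Tr V.valuation T →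
      V.valuation (cx (C.map (algebraMap F Kb) * D) (φ T) -
        ((τ u / u) ^ 2 * cx (C.map (algebraMap F Kb) * D) T + (τ r - r) / u ^ 2)) < 1 := by
    intro T hT0 hT
    have h1 : V.valuation (cx (C.map (algebraMap F Kb) * D) T) ≤ 1 :=
      (not_krc (tr_not_kr hG hT hT0)).2
    have h2 : cx (C.map (algebraMap F Kb) * D) (φ T) -
        ((τ u / u) ^ 2 * cx (C.map (algebraMap F Kb) * D) T + (τ r - r) / u ^ 2) =
        (τ u / u) ^ 2 * (τ (cx (C.map (algebraMap F Kb) * D) T) -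
          cx (C.map (algebraMap F Kb) * D) T ^ 1) := by
      rw [hcx (φ T), (hφ T hT0).2.1, hcx' T, map_add, map_mul, map_pow]
      field_simp
      ring
    rw [h2, map_mul, hVa, one_mul]
    exact hτ _ h1
  refine ⟨C.map (algebraMap F Kb) * D, (τ u / u) ^ 2, (τ r - r) / u ^ 2, hG, hVa, ?_, hab⟩
  obtain ⟨l, hl, -, hVl⟩ := exists_prime (abv_res (k := K) hV) 5
  obtain ⟨T, hT0, hT1⟩ := exists_pt_prime hl
  have hT : Tr V.valuation T := ⟨l, hVl, hT1⟩
  have h1 := hab T hT0 hT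
  have h2 : V.valuation (cx (C.map (algebraMap F Kb) * D) T) ≤ 1 :=
    (not_krc (tr_not_kr hG hT hT0)).2
  have h3 : V.valuation (cx (C.map (algebraMap F Kb) * D) (φ T)) ≤ 1 :=
    (not_krc (tr_not_kr hG (tr_hom hT φ) (hφ T hT0).1)).2
  have h4 : (τ r - r) / u ^ 2 = (cx (C.map (algebraMap F Kb) * D) (φ T) -
      (τ u / u) ^ 2 * cx (C.map (algebraMap F Kb) * D) T) -
      (cx (C.map (algebraMap F Kb) * D) (φ T) -
        ((τ u / u) ^ 2 * cx (C.map (algebraMap F Kb) * D) T + (τ r - r) / u ^ 2)) := by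
    ring
  rw [h4]
  refine (V.valuation.map_sub _ _).trans (max_le ((V.valuation.map_sub _ _).trans
    (max_le h3 ?_)) h1.le)
  rw [map_mul, hVa, one_mul]
  exact h2

include hsq

theorem ram_sq {T : Pt Kb} (hT : Ta V.valuation T) : φ (φ T) = T := by
  let τ₂ : Kb ≃ₐ[F] Kb := AlgEquiv.ofRingEquiv (f := τ.toRingEquiv.trans τ.toRingEquiv) hsq
  have hτ₂ : ∀ x, τ₂ x = τ (τ x) := fun x => rfl
  have h1 : IsFr V 1 τ₂ := by
    intro x hx
    have e : τ₂ x - x ^ 1 = (τ (τ x) - τ x ^ 1) + (τ x - x ^ 1) := by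
      rw [hτ₂]
      ring
    rw [e]
    exact (V.valuation.map_add _ _).trans_lt (max_lt (hτ _ (fr_le hτ hx)) (hτ x hx))
  have h2' : Trp D (fun x => τ (τ x)) (φ.comp φ) := trp_comp hφ hφ
  have h2 : Trp D τ₂ (φ.comp φ) := h2'
  exact trp_in (md_up (F := F) hD) hV hg h1 h2 hT

theorem ram_pm {T : Pt Kb} (hT : Tr V.valuation T) : φ T = T ∨ φ T = -T := by
  obtain ⟨D', a, b, hG, ha, hb, hab⟩ := ram_aff hD hV hg hτ hφ
  -- first claim
  have hfirst : ∀ l : ℕ, l.Prime → V.valuation (l : Kb) = 1 →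
      ∃ T : Pt Kb, T ≠ 0 ∧ l • T = 0 ∧ cx D' (φ T) = cx D' T := by
    intro l hl hVl
    obtain ⟨R, hR0, hR1⟩ := exists_pt_prime hl
    have hR : Tr V.valuation R := ⟨l, hVl, hR1⟩
    have hφφ : φ (φ R) = R := ram_sq hD hV hg hτ hsq hφ (tr_ta hR)
    by_cases hS : R + φ R = 0
    · refine ⟨R, hR0, hR1, ?_⟩
      have h1 : φ R = -R := (neg_eq_of_add_eq_zero_right hS).symm
      rw [h1, cx_neg]
    · refine ⟨R + φ R, hS, ?_, ?_⟩
      · rw [smul_add, ← map_nsmul, hR1, map_zero, add_zero]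
      · rw [map_add, hφφ, add_comm]
  have hVc : ∀ T : Pt Kb, T ≠ 0 → Tr V.valuation T → V.valuation (cx D' T) ≤ 1 :=
    fun T h0 h => (not_krc (tr_not_kr hG h h0)).2
  obtain ⟨l, hl, -, hVl⟩ := exists_prime (abv_res (k := K) hV) 5
  obtain ⟨l', hl', hll, hVl'⟩ := exists_prime (abv_res (k := K) hV) (l + 1)
  obtain ⟨T₁, hT₁0, hT₁1, hT₁2⟩ := hfirst l hl hVl
  obtain ⟨T₂, hT₂0, hT₂1, hT₂2⟩ := hfirst l' hl' hVl'
  have hT₁ : Tr V.valuation T₁ := ⟨l, hVl, hT₁1⟩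
  have hT₂ : Tr V.valuation T₂ := ⟨l', hVl', hT₂1⟩
  have hcop : Nat.Coprime l l' := (Nat.coprime_primes hl hl').2 (by omega)
  have hne1 : T₁ - T₂ ≠ 0 := by
    intro h
    have h1 : T₁ = T₂ := sub_eq_zero.1 h
    exact hT₁0 (ramn_cop hcop hT₁1 (h1 ▸ hT₂1))
  have hne2 : T₁ + T₂ ≠ 0 := by
    intro h
    have h1 : T₁ = -T₂ := eq_neg_of_add_eq_zero_left h
    refine hT₁0 (ramn_cop hcop hT₁1 ?_)
    rw [h1, smul_neg, hT₂1, neg_zero]
  have hunit : V.valuation (cx D' T₁ - cx D' T₂) = 1 := by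
    rw [krc_unit hG (tr_not_kr hG hT₁ hT₁0) hT₂0 (tr_not_kr hG (tr_sub hT₁ hT₂) hne1)
      (tr_not_kr hG (tr_add hT₁ hT₂) hne2)]
    exact max_eq_left (hVc T₂ hT₂0 hT₂)
  have e1 := hab T₁ hT₁0 hT₁
  have e2 := hab T₂ hT₂0 hT₂
  rw [hT₁2] at e1
  rw [hT₂2] at e2
  have h1a : V.valuation (1 - a) < 1 := by
    have e3 : (1 - a) * (cx D' T₁ - cx D' T₂) = (cx D' T₁ - (a * cx D' T₁ + b)) -
        (cx D' T₂ - (a * cx D' T₂ + b)) := by ring
    have e4 : V.valuation ((1 - a) * (cx D' T₁ - cx D' T₂)) < 1 := by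
      rw [e3]
      exact (V.valuation.map_sub _ _).trans_lt (max_lt e1 e2)
    rwa [map_mul, hunit, mul_one] at e4
  have hsmall : ∀ c : Kb, V.valuation c ≤ 1 → V.valuation ((1 - a) * c) < 1 := by
    intro c hc
    rw [map_mul]
    exact mul_lt_one_of_lt_of_le h1a hc
  have hb1 : V.valuation b < 1 := by
    have e3 : b = (1 - a) * cx D' T₁ - (cx D' T₁ - (a * cx D' T₁ + b)) := by ring
    rw [e3]
    exact (V.valuation.map_sub _ _).trans_lt (max_lt (hsmall _ (hVc T₁ hT₁0 hT₁)) e1)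
  rcases eq_or_ne T 0 with h0 | h0
  · left
    rw [h0, map_zero]
  have hφT : Tr V.valuation (φ T) := tr_hom hT φ
  have hφ0 : φ T ≠ 0 := (hφ T h0).1
  have hx : V.valuation (cx D' (φ T) - cx D' T) < 1 := by
    have e3 : cx D' (φ T) - cx D' T = (cx D' (φ T) - (a * cx D' T + b)) -
        ((1 - a) * cx D' T - b) := by ring
    rw [e3]
    exact (V.valuation.map_sub _ _).trans_lt (max_lt (hab T h0 hT)
      ((V.valuation.map_sub _ _).trans_lt (max_lt (hsmall _ (hVc T h0 hT)) hb1)))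
  rcases krc_of_x hG (tr_not_kr hG hφT hφ0) (tr_not_kr hG hT h0) hx with h | h
  · left
    exact sub_eq_zero.1 (tr_kr hG (tr_sub hφT hT) h)
  · right
    exact eq_neg_of_add_eq_zero_left (tr_kr hG (tr_add hφT hT) h)

end Pool.Agent.Lib.MP_1a91b9_nuX.PG
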