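import Pool.Agent.Lib.MP_1a91b9_nuX.HD
import Pool.Agent.Lib.MP_1a91b9_nuT.Nrm

/-!
# Units of `𝓞 K` and the elements `ψ ^ 5 - 1`

PROOFS. Tools of nuT/Nrm.lean: `exists_coords (a) : ∃ m n : ℤ, a = m + n * ta`, `cj_coords`, `mul_cj : a * cj a = Ideal.absNorm (span {a})` (cast to `𝓞 K`), `cj` is a ring homomorphism, `coords_inj`.
* For a unit `u`: `u * cj u = 1` (`mul_cj`, `Ideal.absNorm (span {u}) = 1` because `span {u} = ⊤`), and `u + cj u = (t : 𝓞 K)` for an integer `t` (`u = m + n ta`, `cj u = m + n tr - n ta`, `t = 2 m + n tr`).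
* `unit_five`: `n = 1` or `n = 5` (`Nat.Prime.eq_one_or_self_of_dvd`). `n = 5`: `(u - 1) (u ^ 4 + u ^ 3 + u ^ 2 + u + 1) = 0`. If `u ≠ 1` multiply the second factor by `(cj u) ^ 2`: `u ^ 2 + u + 1 + cj u + (cj u) ^ 2 = 0`, so `t ^ 2 + t - 1 = 0` in `𝓞 K`, so in `ℤ` (cast is injective), impossible
  (`t * (t + 1)` is even: `Int.even_mul_succ_self`, or `nlinarith`/`omega` after bounding `t`).
* `unit_big`: if `u ≠ 1` then `u - 1 ≠ 0`; `N (u - 1)` as an element of `𝓞 K` is `(u - 1) (cj u - 1) = 2 - t`, so `Ideal.absNorm (span {u - 1}) = 2 - t` in `ℤ`. Also `N (u + 1) = 2 + t ≥ 0` gives `t ≥ -2`, so `Ideal.absNorm (span {u - 1}) ≤ 4`. `β ∣ u - 1` gives `absNorm (span {β}) ∣ absNorm (span {u - 1})` (`Ideal.absNorm_dvd_absNorm_of_le`,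
  `Ideal.span_singleton_le_span_singleton`), and the right side is not zero, contradiction with `4 < absNorm (span {β})`.
* `beta_big`: let `x = ψ`, `N = N ψ = x * cj x ≥ 2`, `t = x + cj x ∈ ℤ`. One way: work in `ℂ`: for `a : 𝓞 K`: `(Ideal.absNorm (span {a}) : ℝ) = ‖embK (a : K)‖ ^ 2` (see the end of the proof of `AN.normsq_psC_of` in nuX/AN/Psi.lean, `norm_K`). `‖embK (ψ ^ 5 - 1)‖ ≥ ‖embK ψ‖ ^ 5 - 1` and `r = ‖embK ψ‖` has `r ^ 2 ≥ 2`, so `r ^ 5 = r ^ 4 * r ≥ 4 * r ≥ 4 * (7 / 5)` (`r ≥ 7 / 5` because `(7/5)^2 < 2`),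
  `r ^ 5 - 1 ≥ 4.6`, its square is bigger than `4`.
* `beta_not_mem`: otherwise `1 = ψ ^ 5 - (ψ ^ 5 - 1) ∈ P.asIdeal`.
-/

set_option autoImplicit false

namespace Pool.Agent.Lib.MP_1a91b9_nuX.PG

open NumberField IsDedekindDomain Pool.Agent.Lib.MP_1a91b9_nuT

variable [CD]

private theorem unk_absNorm (u : (𝓞 K)ˣ) : Ideal.absNorm (Ideal.span {(u : 𝓞 K)}) = 1 := by
  rw [Ideal.span_singleton_eq_top.2 u.isUnit, Ideal.absNorm_top]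

private theorem unk_mul_cj (u : (𝓞 K)ˣ) : (u : 𝓞 K) * cj (u : 𝓞 K) = 1 := by
  rw [mul_cj, unk_absNorm, Nat.cast_one]

/-- a unit `u` with `u ^ n = 1`, `n` a divisor of `5`, is `1` -/
theorem unit_five (u : (𝓞 K)ˣ) {n : ℕ} (hn : n ∣ 5) (h : (u : 𝓞 K) ^ n = 1) : u = 1 := by
  rcases (Nat.Prime.eq_one_or_self_of_dvd (by norm_num) n hn) with h1 | h1
  · rw [h1, pow_one] at h
    exact Units.ext h
  · rw [h1] at h
    by_contra hu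
    have h2 : (u : 𝓞 K) - 1 ≠ 0 := by
      intro h3
      exact hu (Units.ext (sub_eq_zero.1 h3))
    have h3 : (u : 𝓞 K) ^ 4 + (u : 𝓞 K) ^ 3 + (u : 𝓞 K) ^ 2 + (u : 𝓞 K) + 1 = 0 := by
      have h4 : ((u : 𝓞 K) - 1) *
          ((u : 𝓞 K) ^ 4 + (u : 𝓞 K) ^ 3 + (u : 𝓞 K) ^ 2 + (u : 𝓞 K) + 1) = 0 := by
        linear_combination h
      exact (mul_eq_zero.1 h4).resolve_left h2
    have h4 := unk_mul_cj u
    obtain ⟨m, k, hmk⟩ := exists_coords (u : 𝓞 K)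
    have h5 : (u : 𝓞 K) + cj (u : 𝓞 K) = ((2 * m + k * CD.tr : ℤ) : 𝓞 K) := by
      rw [hmk, cj_coords]
      push_cast
      ring
    have h6 : ((2 * m + k * CD.tr : ℤ) : 𝓞 K) ^ 2 + ((2 * m + k * CD.tr : ℤ) : 𝓞 K) - 1 = 0 := by
      rw [← h5]
      generalize cj (u : 𝓞 K) = c at h4
      linear_combination c ^ 2 * h3 + (1 - (u : 𝓞 K) ^ 3 * c - (u : 𝓞 K) ^ 2 -
        (u : 𝓞 K) ^ 2 * c - (u : 𝓞 K) - (u : 𝓞 K) * c - c) * h4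
    have h7 : (2 * m + k * CD.tr) ^ 2 + (2 * m + k * CD.tr) - 1 = 0 := by
      exact_mod_cast h6
    have h8 := Int.even_mul_succ_self (2 * m + k * CD.tr)
    obtain ⟨r, hr⟩ := h8
    have h9 : r + r = 1 := by
      rw [← hr]
      linear_combination h7
    omega

private theorem unk_norm_sq (a : 𝓞 K) :
    ‖embK (a : K)‖ ^ 2 = ((Ideal.absNorm (Ideal.span {a}) : ℕ) : ℝ) := by
  rw [← normSq_emb, Complex.normSq_eq_norm_sq]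

/-- a unit which is congruent to `1` modulo an element of norm at least `5` is `1` -/
theorem unit_big {β : 𝓞 K} (hβ : 4 < Ideal.absNorm (Ideal.span {β})) (u : (𝓞 K)ˣ)
    (h : β ∣ (u : 𝓞 K) - 1) : u = 1 := by
  by_contra hu
  have h2 : (u : 𝓞 K) - 1 ≠ 0 := by
    intro h3
    exact hu (Units.ext (sub_eq_zero.1 h3))
  have h3 : Ideal.absNorm (Ideal.span {β}) ∣ Ideal.absNorm (Ideal.span {(u : 𝓞 K) - 1}) :=
    Ideal.absNorm_dvd_absNorm_of_le ((Ideal.span_singleton_le_span_singleton).2 h)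
  have h4 : Ideal.absNorm (Ideal.span {(u : 𝓞 K) - 1}) ≠ 0 := by
    rw [Ne, Ideal.absNorm_eq_zero_iff, Ideal.span_singleton_eq_bot]
    exact h2
  have h5 := Nat.le_of_dvd (Nat.pos_of_ne_zero h4) h3
  have h6 := unk_norm_sq ((u : 𝓞 K) - 1)
  have h7 : ‖embK ((u : 𝓞 K) : K)‖ = 1 := by
    have h8 := unk_norm_sq (u : 𝓞 K)
    rw [unk_absNorm, Nat.cast_one] at h8
    have h9 : 0 ≤ ‖embK ((u : 𝓞 K) : K)‖ := norm_nonneg _
    nlinarith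
  have h8 : ‖embK (((u : 𝓞 K) - 1 : 𝓞 K) : K)‖ ≤ 2 := by
    have h9 : embK (((u : 𝓞 K) - 1 : 𝓞 K) : K) = embK ((u : 𝓞 K) : K) - 1 := by
      have h10 : (((u : 𝓞 K) - 1 : 𝓞 K) : K) = ((u : 𝓞 K) : K) - 1 := by
        change algebraMap (𝓞 K) K _ = _
        rw [map_sub, map_one]
      rw [h10, map_sub, map_one]
    rw [h9]
    refine (norm_sub_le _ _).trans ?_
    rw [h7, norm_one]
    norm_num
  have h9 : 0 ≤ ‖embK (((u : 𝓞 K) - 1 : 𝓞 K) : K)‖ := norm_nonneg _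
  have h10 : ((Ideal.absNorm (Ideal.span {(u : 𝓞 K) - 1}) : ℕ) : ℝ) ≤ 4 := by
    rw [← h6]
    nlinarith
  have h11 : Ideal.absNorm (Ideal.span {(u : 𝓞 K) - 1}) ≤ 4 := by exact_mod_cast h10
  omega

theorem beta_big {ψ : 𝓞 K} (h : 2 ≤ Ideal.absNorm (Ideal.span {ψ})) :
    4 < Ideal.absNorm (Ideal.span {ψ ^ 5 - 1}) := by
  have h1 := unk_norm_sq (ψ ^ 5 - 1)
  have h2 := unk_norm_sq ψ
  have h3 : (2 : ℝ) ≤ ‖embK (ψ : K)‖ ^ 2 := by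
    rw [h2]
    exact_mod_cast h
  have h4 : 0 ≤ ‖embK (ψ : K)‖ := norm_nonneg _
  have h5 : 7 / 5 ≤ ‖embK (ψ : K)‖ := by
    by_contra h6
    push Not at h6
    nlinarith
  have h6 : embK ((ψ ^ 5 - 1 : 𝓞 K) : K) = embK (ψ : K) ^ 5 - 1 := by
    have h10 : ((ψ ^ 5 - 1 : 𝓞 K) : K) = (ψ : K) ^ 5 - 1 := by
      change algebraMap (𝓞 K) K _ = _
      rw [map_sub, map_one, map_pow]
    rw [h10, map_sub, map_one, map_pow]
  have h7 : ‖embK (ψ : K)‖ ^ 5 - 1 ≤ ‖embK ((ψ ^ 5 - 1 : 𝓞 K) : K)‖ := by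
    rw [h6]
    have h8 := norm_sub_norm_le (embK (ψ : K) ^ 5) 1
    rw [norm_pow, norm_one] at h8
    exact h8
  have h8 : (28 / 5 : ℝ) ≤ ‖embK (ψ : K)‖ ^ 5 := by
    have h9 : ‖embK (ψ : K)‖ ^ 5 = ‖embK (ψ : K)‖ ^ 2 * ‖embK (ψ : K)‖ ^ 2 * ‖embK (ψ : K)‖ := by
      ring
    rw [h9]
    have h10 : (4 : ℝ) ≤ ‖embK (ψ : K)‖ ^ 2 * ‖embK (ψ : K)‖ ^ 2 := by nlinarith
    nlinarith
  have h9 : (4 : ℝ) < ‖embK ((ψ ^ 5 - 1 : 𝓞 K) : K)‖ ^ 2 := by nlinarith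
  rw [h1] at h9
  exact_mod_cast h9

theorem beta_not_mem {P : HeightOneSpectrum (𝓞 K)} {ψ : 𝓞 K} (h : ψ ∈ P.asIdeal) :
    ψ ^ 5 - 1 ∉ P.asIdeal := by
  intro h1
  have h2 : ψ ^ 5 ∈ P.asIdeal := Ideal.pow_mem_of_mem _ h 5 (by norm_num)
  have h3 : (1 : 𝓞 K) ∈ P.asIdeal := by
    have h4 := P.asIdeal.sub_mem h2 h1
    rwa [sub_sub_cancel] at h4
  exact P.isPrime.ne_top ((Ideal.eq_top_iff_one _).2 h3)

end Pool.Agent.Lib.MP_1a91b9_nuX.PG
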