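import Pool.Agent.Lib.MP_1a91b9_nuX.PG.RepN
import Pool.Agent.Lib.MP_1a91b9_nuX.PG.GalB
import Pool.Agent.Lib.MP_1a91b9_nuX.PG.UnK
import Pool.Agent.Lib.MP_1a91b9_nuT.S4.NormPsi
import Pool.Agent.Lib.MP_1a91b9_nuT.S4.PsiProps

/-!
# Removal of a place of good reduction from the modulus

PROOFS. `nK z = Algebra.intNorm (𝓞 K) (𝓞 F) z` (nuT/S4/NormPsi.lean; there: `relNorm_span : Ideal.relNorm (𝓞 K) (span {z}) = span {nK z}`, `intNorm_eq`, `nK_congr (c : 𝓞 K) (r t : 𝓞 F) (h : algebraMap _ _ c ∣ r - t) : c ∣ nK r - nK t`, `nK_mul`, `nK_one`, `nK_zero`; look at the exact forms).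
* `ray_norm`. `have := hR.gal`. `Q : HeightOneSpectrum (𝓞 M)` with `Q.under (𝓞 F) = w₀` (`CF.exists_over`, see its use in nuX/LF/EulN.lean, or `Ideal.exists_ideal_over_prime...`); `subst`. `hin := hR.inert Q h0 hβw`. `d = Nat.card (stabilizer Gal(M/F) Q.asIdeal)`: `d ∣ 5` (`rep_stab hR Q h0 hβw hβ`).
  `I = (f' * span {algebraMap (𝓞 K) (𝓞 F) β}).map (algebraMap (𝓞 F) (𝓞 M))`; `¬ I ≤ Q.asIdeal`: otherwise (`Ideal.map_le_iff_le_comap`, `Ideal.IsPrime.mul_le`) `f' ≤ w₀.asIdeal` or `β ∈ (w₀.under (𝓞 K)).asIdeal`. `z` from `exists_z Q (algebraMap a) n I`. `y = Algebra.intNorm (𝓞 F) (𝓞 M) z`.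
  `y - a ^ d ∈ w₀.asIdeal ^ n`: `norm_cong`, `mem_pow_of_unr Q hin`. `y - 1 ∈ f' * span {β}` (`norm_one`), so `y - 1 ∈ f'` and `β ∣ nK y - 1` (`nK_congr`, `nK_one`). `nK y ≠ 0` (otherwise `β ∣ 1`, `absNorm (span {β}) = 1`), so `y ≠ 0`.
  `span {y} = Ideal.relNorm (𝓞 F) (span {z})` (`Ideal.relNorm_singleton`). `rep_ideal hR (span {z})`: if `z ∈ Q'` then `G (Q'.under (𝓞 F))` (otherwise `f' ≤ Q'.under`, `z - 1 ∈ f'.map ≤ Q'`, so `1 ∈ Q'`), in the same way `β ∉ ...`; `z ≠ 0` since `y ≠ 0`. So `β ∣ psI g (span {y}) - 1`.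
  `psI_span (span {y})`: for `w` with `y ∈ w.asIdeal`: `G w` (otherwise `f' ≤ w.asIdeal`, `y - 1 ∈ w`), `hg`. So `span {psI g (span {y})} = relNorm (span {y}) = span {nK y}`: there is a unit `u` with `nK y * u = psI g (span {y})` (`Ideal.span_singleton_eq_span_singleton`). Then `β ∣ nK y * (u - 1)` and `β` is prime to `nK y` (`β ∣ nK y - 1`), so `β ∣ u - 1`, `u = 1` (`unit_big hβ4`).
* `ray_step`. If `a = 0` then `f' = ⊤`... both sides are zero: `psI_bot`, `nK 0 = 0` (no hypothesis needed). Let `a ≠ 0`. `β = g w₀ ^ 5 - 1`. `span {g w₀} = relNorm w₀ = P ^ f`, `P = w₀.under (𝓞 K)`, `f ≠ 0` (as in `psi_facts` of nuX/GL/CntD.lean): `absNorm (span {g w₀}) = absNorm w₀.asIdeal ≥ 2` (`Ideal.absNorm_relNorm`; not `0`, not `1` since `w₀.asIdeal` is a nonzero prime ideal), `g w₀ ∈ P`: `beta_big`, `beta_not_mem`; `β ≠ 0` (its norm is not zero).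
  `M, c, hR` from `hrep β`. `v`: `span {a} = w₀.asIdeal ^ v * J` with `¬ J ≤ w₀.asIdeal` (take the largest `v` with `w₀.asIdeal ^ v ∣ span {a}`: `multiplicity`/`Associates.count`, or strong induction; `FiniteMultiplicity.exists_eq_pow_mul_and_not_dvd`). `ray_norm ... (n := 5 * v + k)`: `d, y`. `d ≤ 5`, so `y - a ^ d ∈ w₀.asIdeal ^ (v * d + k)` (`Ideal.pow_le_pow_right`).
  `lem_c` for `x = y`, `y = a ^ d`, `Y₁ = w₀.asIdeal ^ (v * d)`, `Y₂ = J ^ d`, `f = w₀.asIdeal ^ k * f'`: `f ≠ ⊤` (it is in `w₀.asIdeal`, `k ≠ 0`); `IsCoprime (J ^ d) f`: `J` is prime to `w₀.asIdeal` (maximal, `¬ J ≤ w₀`), and `J`, `f'` are coprime because `a ∈ J` and `a - 1 ∈ f'`;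
  `y - a ^ d ∈ w₀.asIdeal ^ (v * d + k) ⊓ f' = w₀.asIdeal ^ (v * d + k) * f'` (`Ideal.inf_eq_mul_of_isCoprime`; `a ^ d - 1 ∈ f'`, `y - 1 ∈ f'`; `w₀.asIdeal` and `f'` are coprime by `hcop`). So `b, c'` with `y * c' = a ^ d * b`, `b - 1, c' - 1 ∈ f`, `c' ≠ 0`.
  Apply `psI g (span ·)` (`psI_mul`, `Ideal.span_singleton_mul_span_singleton`, `psI_pow`, `Ideal.span_singleton_pow`) and `nK`: `nK y * nK c' = psI(a) ^ d * nK b`, and `nK y * nK c' = nK (a) ^ d * nK b`; `nK b ≠ 0` (`b ≠ 0` since `y * c' ≠ 0`), so `psI(a) ^ d = nK(a) ^ d`.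
  `span {psI(a)} = span {nK a}` (`psI_span`: the primes `w ∋ a` satisfy `G w`, since otherwise `f' ≤ w`), so `psI(a) = nK a * u`; `u ^ d = 1` (`nK a ≠ 0`), `u = 1` (`unit_five`).
-/

set_option autoImplicit false

namespace Pool.Agent.Lib.MP_1a91b9_nuX.PG

open NumberField IsDedekindDomain Pool.Agent.Lib.MP_1a91b9_nuT
open Pool.Agent.Lib.MP_1a91b9_nuT.S4 (nK nK_mul nK_one)
open scoped Pointwise

section
variable {F : Type*} [Field F] [NumberField F]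

/-- a place of `M` above the place `w` of `F` -/
private theorem stepr_over {M : Type*} [Field M] [NumberField M] [Algebra F M]
    (w : HeightOneSpectrum (𝓞 F)) : ∃ Q : HeightOneSpectrum (𝓞 M), Q.under (𝓞 F) = w := by
  have hm : w.asIdeal.IsMaximal := w.isMaximal
  obtain ⟨P, hPm, hPl⟩ := Ideal.exists_maximal_ideal_liesOver_of_isIntegral (S := 𝓞 M) w.asIdeal
  have hne : P ≠ ⊥ := Ideal.ne_bot_of_liesOver_of_ne_bot w.ne_bot P
  exact ⟨⟨P, hPm.isPrime, hne⟩, HeightOneSpectrum.ext hPl.over.symm⟩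

private theorem stepr_cop (w : HeightOneSpectrum (𝓞 F)) {J : Ideal (𝓞 F)}
    (hJ : ¬ J ≤ w.asIdeal) : IsCoprime J w.asIdeal := by
  have hm : w.asIdeal.IsMaximal := w.isMaximal
  refine Ideal.isCoprime_iff_sup_eq.2 (hm.out.2 _ (lt_of_le_of_ne le_sup_right fun h => hJ ?_))
  rw [h]
  exact le_sup_left

omit [NumberField F] in
private theorem stepr_one (w : HeightOneSpectrum (𝓞 F)) {x : 𝓞 F} (h : x ∈ w.asIdeal)
    (h' : x - 1 ∈ w.asIdeal) : False := by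
  have h1 := Ideal.sub_mem _ h h'
  rw [sub_sub_cancel] at h1
  exact w.isPrime.ne_top ((Ideal.eq_top_iff_one _).2 h1)

private theorem stepr_dec {a : 𝓞 F} (ha : a ≠ 0) (w : HeightOneSpectrum (𝓞 F)) :
    ∃ (v : ℕ) (J : Ideal (𝓞 F)), Ideal.span {a} = w.asIdeal ^ v * J ∧ ¬ J ≤ w.asIdeal := by
  have h1 : Ideal.span {a} ≠ 0 := by
    rw [Ideal.zero_eq_bot, Ne, Ideal.span_singleton_eq_bot]
    exact ha
  have h2 : ¬ IsUnit w.asIdeal := by
    rw [Ideal.isUnit_iff]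
    exact w.isPrime.ne_top
  obtain ⟨v, J, hJ1, hJ2⟩ := WfDvdMonoid.max_power_factor' h1 h2
  refine ⟨v, J, hJ2, fun h => hJ1 ?_⟩
  rw [Ideal.dvd_iff_le]
  exact h

variable [CD] [Algebra K F]

omit [NumberField F] in
private theorem stepr_mem (w : HeightOneSpectrum (𝓞 F)) (β : 𝓞 K) :
    β ∈ (w.under (𝓞 K)).asIdeal ↔ algebraMap (𝓞 K) (𝓞 F) β ∈ w.asIdeal := Iff.rfl

private theorem stepr_ne {x : 𝓞 F} (hx : x ≠ 0) : nK x ≠ 0 := by
  intro h
  have h1 := Pool.Agent.Lib.MP_1a91b9_nuT.S4.relNorm_span x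
  rw [h, Set.singleton_zero, Ideal.span_zero, Ideal.relNorm_eq_bot_iff,
    Ideal.span_singleton_eq_bot] at h1
  exact hx h1

private theorem stepr_pow (x : 𝓞 F) (n : ℕ) : nK (x ^ n) = nK x ^ n := by
  induction n with
  | zero => rw [pow_zero, pow_zero, nK_one]
  | succ n ih => rw [pow_succ, pow_succ, nK_mul, ih]

private theorem stepr_zero : nK (0 : 𝓞 F) = 0 := by
  have h1 := Pool.Agent.Lib.MP_1a91b9_nuT.S4.relNorm_span (0 : 𝓞 F)
  rw [Set.singleton_zero, Ideal.span_zero, Ideal.relNorm_bot] at h1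
  exact Ideal.span_singleton_eq_bot.1 h1.symm

/-- the value at a principal ideal is the norm up to a unit -/
private theorem stepr_assoc {G : HeightOneSpectrum (𝓞 F) → Prop}
    {g : HeightOneSpectrum (𝓞 F) → 𝓞 K}
    (hg : ∀ w, G w → Ideal.span {g w} = Ideal.relNorm (𝓞 K) w.asIdeal)
    {f' : Ideal (𝓞 F)} (hbad : ∀ w, ¬ G w → f' ≤ w.asIdeal) {a : 𝓞 F} (ha : a - 1 ∈ f')
    (ha0 : a ≠ 0) : ∃ u : (𝓞 K)ˣ, nK a * u = psI g (Ideal.span {a}) := by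
  have h1 : Ideal.span {psI g (Ideal.span {a})} = Ideal.relNorm (𝓞 K) (Ideal.span {a}) := by
    refine psI_span _ (fun w hw => hg w ?_) ?_
    · by_contra hGw
      exact stepr_one w ((Ideal.span_singleton_le_iff_mem _).1 hw) (hbad w hGw ha)
    · rw [Ne, Ideal.span_singleton_eq_bot]
      exact ha0
  rw [Pool.Agent.Lib.MP_1a91b9_nuT.S4.relNorm_span] at h1
  obtain ⟨u, hu⟩ := Ideal.span_singleton_eq_span_singleton.1 h1.symm
  exact ⟨u, hu⟩

/-- facts on the value at a place -/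
private theorem stepr_val {w : HeightOneSpectrum (𝓞 F)} {x : 𝓞 K}
    (h : Ideal.span {x} = Ideal.relNorm (𝓞 K) w.asIdeal) :
    2 ≤ Ideal.absNorm (Ideal.span {x}) ∧ x ∈ (w.under (𝓞 K)).asIdeal := by
  have h0 : (w.under (𝓞 K)).asIdeal.IsMaximal := (w.under (𝓞 K)).isMaximal
  have h1 : w.asIdeal.LiesOver (w.under (𝓞 K)).asIdeal := ⟨rfl⟩
  have hm : w.asIdeal.IsMaximal := w.isMaximal
  have hp : w.asIdeal.IsPrime := w.isPrime
  have hrel : Ideal.relNorm (𝓞 K) w.asIdeal =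
      (w.under (𝓞 K)).asIdeal ^ w.asIdeal.inertiaDeg (𝓞 K) :=
    Ideal.relNorm_eq_pow_of_isMaximal w.asIdeal (w.under (𝓞 K)).asIdeal
  constructor
  · rw [h, Ideal.absNorm_relNorm]
    have h2 : Ideal.absNorm w.asIdeal ≠ 0 := by
      rw [Ne, Ideal.absNorm_eq_zero_iff]
      exact w.ne_bot
    have h3 : Ideal.absNorm w.asIdeal ≠ 1 := by
      rw [Ne, Ideal.absNorm_eq_one_iff]
      exact hp.ne_top
    omega
  · have h2 := Ideal.mem_span_singleton_self x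
    rw [h, hrel] at h2
    exact Ideal.pow_le_self (Ideal.inertiaDeg_pos w.asIdeal (𝓞 K)).ne' h2

end

variable [CD] {F : Type*} [Field F] [NumberField F] [Algebra K F]
  {G : HeightOneSpectrum (𝓞 F) → Prop} {g : HeightOneSpectrum (𝓞 F) → 𝓞 K}
  (hg : ∀ w, G w → Ideal.span {g w} = Ideal.relNorm (𝓞 K) w.asIdeal)
  {w₀ : HeightOneSpectrum (𝓞 F)} (h0 : G w₀) {f' : Ideal (𝓞 F)} (hf' : f' ≠ ⊥)
  (hbad : ∀ w, ¬ G w → f' ≤ w.asIdeal)
include hg h0 hf' hbad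

/-- the value of the character at a norm which is close to a power of `a` -/
theorem ray_norm {β : 𝓞 K} (hβ : β ∣ g w₀ ^ 5 - 1) (hβ4 : 4 < Ideal.absNorm (Ideal.span {β}))
    (hβw : β ∉ (w₀.under (𝓞 K)).asIdeal)
    {M : Type*} [Field M] [NumberField M] [Algebra F M]
    {c : Gal(M/F) →* (𝓞 K ⧸ Ideal.span {β})} (hR : Rep β G g M c)
    (hcop : ¬ f' ≤ w₀.asIdeal) {a : 𝓞 F} (ha : a - 1 ∈ f') (n : ℕ) :
    ∃ (d : ℕ) (y : 𝓞 F), d ∣ 5 ∧ y ≠ 0 ∧ psI g (Ideal.span {y}) = nK y ∧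
      y - a ^ d ∈ w₀.asIdeal ^ n ∧ y - 1 ∈ f' := by
  classical
  have hgal := hR.gal
  obtain ⟨Q, rfl⟩ := stepr_over (M := M) w₀
  have hin := hR.inert Q h0 hβw
  have hd := rep_stab hR Q h0 hβw hβ
  have hβu : ¬ IsUnit β := by
    intro h
    rw [Ideal.span_singleton_eq_top.2 h, Ideal.absNorm_top] at hβ4
    omega
  have hI : ¬ (f' * Ideal.span {algebraMap (𝓞 K) (𝓞 F) β}).map (algebraMap (𝓞 F) (𝓞 M)) ≤
      Q.asIdeal := by
    intro h
    rw [Ideal.map_le_iff_le_comap] at h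
    have h' : f' * Ideal.span {algebraMap (𝓞 K) (𝓞 F) β} ≤ (Q.under (𝓞 F)).asIdeal := h
    rcases ((Q.under (𝓞 F)).isPrime.mul_le).1 h' with h1 | h1
    · exact hcop h1
    · exact hβw ((stepr_mem _ _).2 ((Ideal.span_singleton_le_iff_mem _).1 h1))
  obtain ⟨z, hz1, hz2, hz3⟩ := exists_z (F := F) Q (algebraMap (𝓞 F) (𝓞 M) a) n _ hI
  obtain ⟨y, hy⟩ : ∃ y, y = Algebra.intNorm (𝓞 F) (𝓞 M) z := ⟨_, rfl⟩
  have hy1 : y - a ^ Nat.card (MulAction.stabilizer Gal(M/F) Q.asIdeal) ∈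
      (Q.under (𝓞 F)).asIdeal ^ n := by
    rw [hy]
    exact mem_pow_of_unr Q hin _ n (norm_cong Q a z n hz1 hz2)
  have hy2 : y - 1 ∈ f' * Ideal.span {algebraMap (𝓞 K) (𝓞 F) β} := by
    rw [hy]
    exact norm_one hz3
  have hy3 : y - 1 ∈ f' := Ideal.mul_le_left hy2
  have hy4 : algebraMap (𝓞 K) (𝓞 F) β ∣ y - 1 :=
    Ideal.mem_span_singleton.1 (Ideal.mul_le_right hy2)
  have hy5 : β ∣ nK y - 1 := by
    have h1 := Pool.Agent.Lib.MP_1a91b9_nuT.S4.nK_congr β y 1 hy4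
    rwa [nK_one] at h1
  have hy0 : y ≠ 0 := by
    intro h
    rw [h, stepr_zero, zero_sub, dvd_neg] at hy5
    exact hβu (isUnit_of_dvd_one hy5)
  have hz0 : Ideal.span {z} ≠ ⊥ := by
    rw [Ne, Ideal.span_singleton_eq_bot]
    intro h
    refine hy0 ?_
    rw [hy, h]
    exact Algebra.intNorm_zero (𝓞 F) (𝓞 M)
  have hspan : Ideal.relNorm (𝓞 F) (Ideal.span {z}) = Ideal.span {y} := by
    rw [hy]
    exact Ideal.relNorm_singleton (𝓞 F) z
  have hrep := rep_ideal hR (Ideal.span {z}) hz0 (by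
    intro Q' hQ'
    have hzQ : z ∈ Q'.asIdeal := (Ideal.span_singleton_le_iff_mem _).1 hQ'
    have hnot : ¬ f' * Ideal.span {algebraMap (𝓞 K) (𝓞 F) β} ≤ (Q'.under (𝓞 F)).asIdeal := by
      intro h
      have h1 : (f' * Ideal.span {algebraMap (𝓞 K) (𝓞 F) β}).map (algebraMap (𝓞 F) (𝓞 M)) ≤
          Q'.asIdeal := by
        rw [Ideal.map_le_iff_le_comap]
        exact h
      exact stepr_one Q' hzQ (h1 hz3)
    constructor
    · by_contra hG'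
      exact hnot (Ideal.mul_le_left.trans (hbad _ hG'))
    · intro hb
      exact hnot (Ideal.mul_le_right.trans
        ((Ideal.span_singleton_le_iff_mem _).2 ((stepr_mem _ _).1 hb))))
  rw [hspan] at hrep
  obtain ⟨u, hu⟩ := stepr_assoc hg hbad hy3 hy0
  have hu1 : β ∣ (u : 𝓞 K) - 1 := by
    have h1 : (u : 𝓞 K) - 1 = (psI g (Ideal.span {y}) - 1) - (u : 𝓞 K) * (nK y - 1) := by
      rw [← hu]
      ring
    rw [h1]
    exact dvd_sub hrep (Dvd.dvd.mul_left hy5 _)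
  have hu2 : u = 1 := unit_big hβ4 u hu1
  refine ⟨_, y, hd, hy0, ?_, hy1, hy3⟩
  rw [← hu, hu2, Units.val_one, mul_one]

/-- **Removal of a place of good reduction from the modulus.** -/
theorem ray_step (hrep : ∀ β : 𝓞 K, β ≠ 0 → ∃ (M : Type) (_ : Field M) (_ : NumberField M)
      (_ : Algebra F M) (c : Gal(M/F) →* (𝓞 K ⧸ Ideal.span {β})), Rep β G g M c)
    (hcop : ¬ f' ≤ w₀.asIdeal) {k : ℕ} (hk : k ≠ 0)
    (hray : ∀ a : 𝓞 F, a - 1 ∈ w₀.asIdeal ^ k * f' → psI g (Ideal.span {a}) = nK a)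
    (a : 𝓞 F) (ha : a - 1 ∈ f') : psI g (Ideal.span {a}) = nK a := by
  classical
  by_cases ha0 : a = 0
  · rw [ha0, stepr_zero, Set.singleton_zero, Ideal.span_zero]
    exact psI_bot g
  obtain ⟨hv1, hv2⟩ := stepr_val (hg w₀ h0)
  obtain ⟨β, hβ⟩ : ∃ β, β = g w₀ ^ 5 - 1 := ⟨_, rfl⟩
  have hβ4 : 4 < Ideal.absNorm (Ideal.span {β}) := by
    rw [hβ]
    exact beta_big hv1
  have hβw : β ∉ (w₀.under (𝓞 K)).asIdeal := by
    rw [hβ]
    exact beta_not_mem hv2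
  have hβ0 : β ≠ 0 := fun h => hβw (by rw [h]; exact zero_mem _)
  obtain ⟨M, i1, i2, i3, c, hR⟩ := hrep β hβ0
  obtain ⟨v, J, hJ1, hJ2⟩ := stepr_dec ha0 w₀
  obtain ⟨d, y, hd, hy0, hy1, hy2, hy3⟩ :=
    ray_norm hg h0 hf' hbad (dvd_of_eq hβ) hβ4 hβw hR hcop ha (5 * v + k)
  have hd5 : d ≤ 5 := Nat.le_of_dvd (by norm_num) hd
  have hfw : w₀.asIdeal ^ k * f' ≤ w₀.asIdeal := Ideal.mul_le_left.trans (Ideal.pow_le_self hk)
  have hf1 : w₀.asIdeal ^ k * f' ≠ ⊤ := by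
    intro h
    rw [h, top_le_iff] at hfw
    exact w₀.isPrime.ne_top hfw
  have hsp : Ideal.span {a ^ d} = w₀.asIdeal ^ (v * d) * J ^ d := by
    rw [← Ideal.span_singleton_pow, hJ1, mul_pow, ← pow_mul]
  have haJ : a ∈ J := by
    have h1 := Ideal.mem_span_singleton_self a
    rw [hJ1] at h1
    exact Ideal.mul_le_right h1
  have hcJ : IsCoprime (J ^ d) (w₀.asIdeal ^ k * f') := by
    refine IsCoprime.pow_left (IsCoprime.mul_right (stepr_cop w₀ hJ2).pow_right ?_)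
    exact Ideal.isCoprime_iff_exists.2 ⟨a, haJ, -(a - 1), neg_mem ha, by ring⟩
  have had : a ^ d - 1 ∈ f' := by
    have h1 := sub_dvd_pow_sub_pow a 1 d
    rw [one_pow] at h1
    exact Ideal.mem_of_dvd _ h1 ha
  have hya : y - a ^ d ∈ w₀.asIdeal ^ (v * d) * (w₀.asIdeal ^ k * f') := by
    have h1 : y - a ^ d ∈ w₀.asIdeal ^ (v * d + k) := by
      refine Ideal.pow_le_pow_right ?_ hy2
      nlinarith [Nat.mul_le_mul_left v hd5]
    have h2 : y - a ^ d ∈ f' := by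
      have h3 := Ideal.sub_mem _ hy3 had
      rwa [sub_sub_sub_cancel_right] at h3
    have h3 : IsCoprime (w₀.asIdeal ^ (v * d + k)) f' := (stepr_cop w₀ hcop).symm.pow_left
    rw [← mul_assoc, ← pow_add, Ideal.mul_eq_inf_of_isCoprime h3]
    exact ⟨h1, h2⟩
  obtain ⟨b, c', hc0, hb, hc1, he⟩ := lem_c hf1 hsp hcJ hya
  have hb0 : b ≠ 0 := by
    intro h
    rw [h, mul_zero] at he
    exact mul_ne_zero hy0 hc0 he
  have e1 : nK y * nK c' = psI g (Ideal.span {a}) ^ d * nK b := by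
    rw [← hy1, ← hray b hb, ← hray c' hc1, ← psI_mul, ← psI_pow, ← psI_mul,
      Ideal.span_singleton_mul_span_singleton, Ideal.span_singleton_pow,
      Ideal.span_singleton_mul_span_singleton, he]
  have e2 : nK y * nK c' = nK a ^ d * nK b := by
    rw [← nK_mul, he, nK_mul, stepr_pow]
  have e3 : psI g (Ideal.span {a}) ^ d = nK a ^ d := by
    rw [e1] at e2
    exact mul_right_cancel₀ (stepr_ne hb0) e2
  obtain ⟨u, hu⟩ := stepr_assoc hg hbad ha ha0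
  have hu1 : (u : 𝓞 K) ^ d = 1 := by
    rw [← hu, mul_pow] at e3
    exact mul_left_cancel₀ (pow_ne_zero d (stepr_ne ha0)) (e3.trans (mul_one _).symm)
  have hu2 : u = 1 := unit_five u hd hu1
  rw [← hu, hu2, Units.val_one, mul_one]

end Pool.Agent.Lib.MP_1a91b9_nuX.PG
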