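import Pool.Agent.Lib.MP_1a91b9_nuX.GL.InrA
import Pool.Agent.Lib.MP_1a91b9_nuX.GM.Form

/-!
# The action of the Galois group on the points of a form of the curve, transported to the curve

`Trp D σ φ`: `φ` is the transport of `σ` in the coordinates `cx D`, `cy D`.

PROOFS. (`Pt F`, `xc`, `yc`, `pt_ext`: nuX/DB/Defs.lean; `cx D P = (xc P - D.r) / D.u ^ 2`, `cy D P = (yc P - D.s * (xc P - D.r) - D.t) / D.u ^ 3`: GL/Env.lean.)
* `cxy_ext`: copy the proof of the private `inrc_ext` of GL/InrC.lean.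
* `trp_unique`: `AddMonoidHom.ext`; for `T = 0` both are `0`; for `T ≠ 0` `cxy_ext` (both images are nonzero, same coordinates).
* `trp_id`: trivial. `trp_comp`: apply `h'` to `T` and `h` to `ρ T ≠ 0`. `trp_inj`: contraposition. `trp_inv`: for `T ≠ 0`: `φ (ρ T) ≠ 0` has the coordinates
  `σ (τ (cx D T)) = cx D T`: `cxy_ext`.
* `trp_chg`: let `D' = C.map (algebraMap N Kb) * D`. Then for every point `P`: `cx D' P = (cx D P - c_r) / c_u ^ 2` and
  `cy D' P = (cy D P - c_s * (cx D P - c_r) - c_t) / c_u ^ 3` with `c_u, c_r, c_s, c_t` the images of the coefficients of `C`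
  (unfold the multiplication of `VariableChange`: `WeierstrassCurve.VariableChange.mul_def`: `u := C.u * C'.u, r := C.r * C'.u ^ 2 + C'.r, s := C'.u * C.s + C'.s,
  t := C.t * C'.u ^ 3 + C.r * C'.s * C'.u ^ 2 + C'.t`; then `field_simp; ring`). `σ` fixes the images (`σ.commutes`), so the coordinates
  `cx D, cy D` are transported by `σ` if and only if `cx D', cy D'` are (both directions: `cx D P = c_u ^ 2 * cx D' P + c_r`, `cy D P = c_u ^ 3 * cy D' P + c_u ^ 2 * c_s * cx D' P + c_t`).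
* `md_chg`: `mul_smul`, `hD`, `WeierstrassCurve.map_variableChange`. `md_up`: `WeierstrassCurve.map_map`, `IsScalarTower.algebraMap_eq`.
* `goodC_of`: `GM.good_map (F' := Kb) (v' := V.valuation) hV h` (see `goodC_up` in GL/CntD.lean, `goodC_map` in GL/FrA.lean); `GoodC V.valuation D` is `GM.GoodW V.valuation (D • EF Kb)`, rewrite `hD`.
* `j_intW`: there is an integer `j` with `6912 A ^ 3 = (4 A ^ 3 + 27 B ^ 2) j` (`CD.jint`), so `(EF Kb).c₄ ^ 3 = j * (EF Kb).Δ` (see `jint_val`, `crit_disc`, `crit_c4` in GL/Crit.lean and `LF.j_int` in LF/EulN.lean, with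
  `LF.crv_c₄`, `LF.crv_Δ`). By `WeierstrassCurve.variableChange_c₄`, `variableChange_Δ` (`(D • W).c₄ = D.u⁻¹ ^ 4 * W.c₄`, `(D • W).Δ = D.u⁻¹ ^ 12 * W.Δ`) the same holds for `D • EF Kb = W.map _`, so
  `algebraMap (W.c₄ ^ 3) = algebraMap (j * W.Δ)` (`WeierstrassCurve.map_c₄`, `map_Δ`), so `W.c₄ ^ 3 = j * W.Δ` and `v j ≤ 1` (as in `LF.j_int`).
-/

set_option autoImplicit false

namespace Pool.Agent.Lib.MP_1a91b9_nuX.PG

open NumberField IsDedekindDomain WeierstrassCurve Pool.Agent.Lib.MP_1a91b9_nuT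
open Pool.Agent.Lib.MP_1a91b9_nuX.DB Pool.Agent.Lib.MP_1a91b9_nuX.GL

universe u

variable [CD] [DecidableEq Kb]

/-- `φ` is the transport to the curve of the automorphism `σ` acting on the coordinates `cx D`, `cy D` -/
def Trp (D : VariableChange Kb) (σ : Kb → Kb) (φ : Pt Kb →+ Pt Kb) : Prop :=
  ∀ T : Pt Kb, T ≠ 0 → φ T ≠ 0 ∧ cx D (φ T) = σ (cx D T) ∧ cy D (φ T) = σ (cy D T)

/-- the Frobenius automorphisms at the place `w` of `F` act on the form of the curve with the coordinates `cx D`, `cy D`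
as the multiplication by `ψ` -/
def FrV {F : Type u} [Field F] [NumberField F] [Algebra F Kb] (D : VariableChange Kb)
    (w : HeightOneSpectrum (𝓞 F)) (ψ : 𝓞 K) : Prop :=
  ∀ V : ValuationSubring Kb, Abv w V → ∀ σ : Kb ≃ₐ[F] Kb, IsFr V (Ideal.absNorm w.asIdeal) σ →
    ∀ φ : Pt Kb →+ Pt Kb, Trp D σ φ → ∀ T : Pt Kb, Ta V.valuation T → φ T = sm Kb ψ T

section
variable {D : VariableChange Kb} {σ τ : Kb → Kb} {φ φ' ρ : Pt Kb →+ Pt Kb}

omit [DecidableEq Kb] in
theorem cxy_ext {P Q : Pt Kb} (hP : P ≠ 0) (hQ : Q ≠ 0)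
    (hx : cx D P = cx D Q) (hy : cy D P = cy D Q) : P = Q := by
  have hu : (D.u : Kb) ≠ 0 := D.u.ne_zero
  unfold cx at hx
  unfold cy at hy
  have h1 : xc P = xc Q := by
    have h2 := (div_left_inj' (pow_ne_zero 2 hu)).1 hx
    linear_combination h2
  rw [div_left_inj' (pow_ne_zero 3 hu), h1] at hy
  exact pt_ext hP hQ h1 (by linear_combination hy)

theorem trp_unique (h : Trp D σ φ) (h' : Trp D σ φ') : φ = φ' := by
  refine AddMonoidHom.ext fun T => ?_
  by_cases hT : T = 0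
  · rw [hT, map_zero, map_zero]
  · obtain ⟨a1, a2, a3⟩ := h T hT
    obtain ⟨b1, b2, b3⟩ := h' T hT
    exact cxy_ext a1 b1 (a2.trans b2.symm) (a3.trans b3.symm)

theorem trp_id : Trp D (fun x => x) (AddMonoidHom.id (Pt Kb)) := fun _ hT => ⟨hT, rfl, rfl⟩

theorem trp_comp (h : Trp D σ φ) (h' : Trp D τ ρ) : Trp D (fun x => σ (τ x)) (φ.comp ρ) := by
  intro T hT
  obtain ⟨b1, b2, b3⟩ := h' T hT
  obtain ⟨a1, a2, a3⟩ := h (ρ T) b1
  refine ⟨a1, ?_, ?_⟩
  · change cx D (φ (ρ T)) = σ (τ (cx D T))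
    rw [a2, b2]
  · change cy D (φ (ρ T)) = σ (τ (cy D T))
    rw [a3, b3]

theorem trp_inj (h : Trp D σ φ) {T : Pt Kb} (h0 : φ T = 0) : T = 0 := by
  by_contra hT
  exact (h T hT).1 h0

theorem trp_inv (h : Trp D σ φ) (h' : Trp D τ ρ) (hστ : ∀ x, σ (τ x) = x) (T : Pt Kb) :
    φ (ρ T) = T := by
  by_cases hT : T = 0
  · rw [hT, map_zero, map_zero]
  · obtain ⟨b1, b2, b3⟩ := h' T hT
    obtain ⟨a1, a2, a3⟩ := h (ρ T) b1
    refine cxy_ext (D := D) a1 hT ?_ ?_
    · rw [a2, b2, hστ]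
    · rw [a3, b3, hστ]

end

section
variable {N : Type u} [Field N] [NumberField N] [Algebra N Kb] {W : WeierstrassCurve N}
  {D : VariableChange Kb}

omit [DecidableEq Kb] [NumberField N] in
private theorem trpa_cx (C : VariableChange N) (P : Pt Kb) :
    cx (C.map (algebraMap N Kb) * D) P =
      (cx D P - algebraMap N Kb C.r) / (algebraMap N Kb (C.u : N)) ^ 2 := by
  have hu : (D.u : Kb) ≠ 0 := D.u.ne_zero
  have hc : algebraMap N Kb (C.u : N) ≠ 0 := by
    rw [Ne, map_eq_zero]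
    exact C.u.ne_zero
  have hr : (C.map (algebraMap N Kb) * D).r = algebraMap N Kb C.r * (D.u : Kb) ^ 2 + D.r := rfl
  have hu' : ((C.map (algebraMap N Kb) * D).u : Kb) = algebraMap N Kb (C.u : N) * (D.u : Kb) :=
    rfl
  unfold cx
  rw [hr, hu']
  field_simp
  ring

omit [DecidableEq Kb] [NumberField N] in
private theorem trpa_cy (C : VariableChange N) (P : Pt Kb) :
    cy (C.map (algebraMap N Kb) * D) P =
      (cy D P - algebraMap N Kb C.s * (cx D P - algebraMap N Kb C.r) - algebraMap N Kb C.t) /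
        (algebraMap N Kb (C.u : N)) ^ 3 := by
  have hu : (D.u : Kb) ≠ 0 := D.u.ne_zero
  have hc : algebraMap N Kb (C.u : N) ≠ 0 := by
    rw [Ne, map_eq_zero]
    exact C.u.ne_zero
  have hr : (C.map (algebraMap N Kb) * D).r = algebraMap N Kb C.r * (D.u : Kb) ^ 2 + D.r := rfl
  have hs : (C.map (algebraMap N Kb) * D).s = (D.u : Kb) * algebraMap N Kb C.s + D.s := rfl
  have ht : (C.map (algebraMap N Kb) * D).t = algebraMap N Kb C.t * (D.u : Kb) ^ 3 +
    algebraMap N Kb C.r * D.s * (D.u : Kb) ^ 2 + D.t := rfl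
  have hu' : ((C.map (algebraMap N Kb) * D).u : Kb) = algebraMap N Kb (C.u : N) * (D.u : Kb) :=
    rfl
  unfold cy cx
  rw [hr, hs, ht, hu']
  field_simp
  ring

omit [DecidableEq Kb] [NumberField N] in
private theorem trpa_cx' (C : VariableChange N) (P : Pt Kb) :
    cx D P = algebraMap N Kb (C.u : N) ^ 2 * cx (C.map (algebraMap N Kb) * D) P +
      algebraMap N Kb C.r := by
  have hc : algebraMap N Kb (C.u : N) ≠ 0 := by
    rw [Ne, map_eq_zero]
    exact C.u.ne_zero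
  rw [trpa_cx, mul_div_cancel₀ _ (pow_ne_zero 2 hc)]
  ring

omit [DecidableEq Kb] [NumberField N] in
private theorem trpa_cy' (C : VariableChange N) (P : Pt Kb) :
    cy D P = algebraMap N Kb (C.u : N) ^ 3 * cy (C.map (algebraMap N Kb) * D) P +
      algebraMap N Kb (C.u : N) ^ 2 * algebraMap N Kb C.s *
        cx (C.map (algebraMap N Kb) * D) P + algebraMap N Kb C.t := by
  have hc : algebraMap N Kb (C.u : N) ≠ 0 := by
    rw [Ne, map_eq_zero]
    exact C.u.ne_zero
  rw [trpa_cx, trpa_cy, mul_div_cancel₀ _ (pow_ne_zero 3 hc)]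
  field_simp
  ring

/-- change of the model over `N` -/
theorem trp_chg (C : VariableChange N) (σ : Kb ≃ₐ[N] Kb) {φ : Pt Kb →+ Pt Kb} :
    Trp D σ φ ↔ Trp (C.map (algebraMap N Kb) * D) σ φ := by
  constructor
  · intro h T hT
    obtain ⟨a1, a2, a3⟩ := h T hT
    refine ⟨a1, ?_, ?_⟩
    · rw [trpa_cx, trpa_cx, a2, map_div₀, map_sub, map_pow, σ.commutes, σ.commutes]
    · rw [trpa_cy, trpa_cy, a2, a3, map_div₀, map_sub, map_sub, map_mul, map_sub, map_pow,
        σ.commutes, σ.commutes, σ.commutes, σ.commutes]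
  · intro h T hT
    obtain ⟨a1, a2, a3⟩ := h T hT
    refine ⟨a1, ?_, ?_⟩
    · rw [trpa_cx' (D := D) C (φ T), trpa_cx' (D := D) C T, a2, map_add, map_mul, map_pow,
        σ.commutes, σ.commutes]
    · rw [trpa_cy' (D := D) C (φ T), trpa_cy' (D := D) C T, a2, a3, map_add, map_add, map_mul,
        map_mul, map_mul, map_pow, map_pow, σ.commutes, σ.commutes, σ.commutes]

omit [DecidableEq Kb] [NumberField N] in
theorem md_chg (hD : D • EF Kb = W.map (algebraMap N Kb)) (C : VariableChange N) :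
    (C.map (algebraMap N Kb) * D) • EF Kb = (C • W).map (algebraMap N Kb) := by
  rw [mul_smul, hD]
  exact WeierstrassCurve.map_variableChange _ _ _

omit [DecidableEq Kb] [NumberField N] in
theorem md_up {F : Type u} [Field F] [Algebra N F] [Algebra F Kb] [IsScalarTower N F Kb]
    (hD : D • EF Kb = W.map (algebraMap N Kb)) :
    D • EF Kb = (W.map (algebraMap N F)).map (algebraMap F Kb) := by
  rw [hD, WeierstrassCurve.map_map, ← IsScalarTower.algebraMap_eq]

omit [DecidableEq Kb] in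
/-- a good model over `N` is a good model over `Kb` -/
theorem goodC_of (hD : D • EF Kb = W.map (algebraMap N Kb)) {v : HeightOneSpectrum (𝓞 N)}
    {V : ValuationSubring Kb} (hV : Abv v V) (h : GM.GoodW (v.valuation N) W) :
    GoodC V.valuation D := by
  classical
  have h1 := GM.good_map (F' := Kb) (v' := V.valuation) hV h
  unfold GoodC
  rw [hD]
  exact h1

omit [DecidableEq Kb] in
private theorem trpa_disc (F : Type*) [Field F] :
    (E F).Δ = -16 * (4 * cA F ^ 3 + 27 * cB F ^ 2) := by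
  simp only [WeierstrassCurve.Δ, WeierstrassCurve.b₂, WeierstrassCurve.b₄, WeierstrassCurve.b₆,
    WeierstrassCurve.b₈, E]
  ring

omit [DecidableEq Kb] in
private theorem trpa_c4 (F : Type*) [Field F] : (E F).c₄ = -48 * cA F := by
  simp only [WeierstrassCurve.c₄, WeierstrassCurve.b₂, WeierstrassCurve.b₄, E]
  ring

omit [DecidableEq Kb] in
private theorem trpa_jint (F : Type*) [Field F] :
    ∃ m : ℤ, (E F).c₄ ^ 3 = (E F).Δ * (m : F) := by
  obtain ⟨m, hm⟩ := CD.jint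
  have h1 := congrArg (fun z : ℤ => (z : F)) hm
  have h2 : (6912 : F) * cA F ^ 3 = (4 * cA F ^ 3 + 27 * cB F ^ 2) * (m : F) := by
    push_cast at h1
    exact h1
  refine ⟨m, ?_⟩
  rw [trpa_disc, trpa_c4]
  linear_combination (-16) * h2

omit [DecidableEq Kb] in
/-- the `j`-invariant is integral -/
theorem j_intW (hD : D • EF Kb = W.map (algebraMap N Kb)) (v : HeightOneSpectrum (𝓞 N)) :
    v.valuation N (W.c₄ ^ 3) ≤ v.valuation N W.Δ := by
  obtain ⟨m, hm⟩ := trpa_jint K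
  have e1 : (EF Kb).c₄ ^ 3 = (EF Kb).Δ * (m : Kb) := by
    change ((E K).map (algebraMap K Kb)).c₄ ^ 3 = ((E K).map (algebraMap K Kb)).Δ * (m : Kb)
    rw [WeierstrassCurve.map_c₄, WeierstrassCurve.map_Δ, ← map_pow, hm, map_mul, map_intCast]
  have e2 : algebraMap N Kb W.c₄ = (D.u⁻¹ : Kbˣ) ^ 4 * (EF Kb).c₄ := by
    rw [← WeierstrassCurve.map_c₄, ← hD, WeierstrassCurve.variableChange_c₄]
  have e3 : algebraMap N Kb W.Δ = (D.u⁻¹ : Kbˣ) ^ 12 * (EF Kb).Δ := by
    rw [← WeierstrassCurve.map_Δ, ← hD, WeierstrassCurve.variableChange_Δ]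
  have e4 : W.c₄ ^ 3 = W.Δ * (m : N) := by
    apply (algebraMap N Kb).injective
    rw [map_pow, map_mul, map_intCast, e2, e3, mul_pow, e1]
    ring
  have h4 : v.valuation N (m : N) ≤ 1 := intCast_mem (v.valuation N).integer m
  rw [e4, map_mul]
  exact mul_le_of_le_one_right' h4

theorem trp_exists (hD : D • EF Kb = W.map (algebraMap N Kb)) (σ : Kb ≃ₐ[N] Kb) :
    ∃ φ : Pt Kb →+ Pt Kb, Trp D σ φ := exists_phi hD σ

theorem trp_semi (hD : D • EF Kb = W.map (algebraMap N Kb)) {σ : Kb ≃ₐ[N] Kb}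
    {φ : Pt Kb →+ Pt Kb} (h : Trp D σ φ)
    (hσ : ∀ a : 𝓞 K, σ (algebraMap K Kb (a : K)) = algebraMap K Kb ((cj a : 𝓞 K) : K))
    (a : 𝓞 K) (T : Pt Kb) : φ (sm Kb a T) = sm Kb (cj a) (φ T) := phi_semi hD h hσ a T

end

end Pool.Agent.Lib.MP_1a91b9_nuX.PG
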