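import Pool.Agent.Lib.MP_1a91b9_nuX.PG.TrpA

/-!
# The transported automorphisms over `K` are linear

PROOFS.
* `trp_lin`: the proof of `phi_semi` (GL/InrA.lean) with the `K`-linear action instead of the semilinear one: `τ = σ` fixes the elements `algebraMap K Kb x` (`IsScalarTower.algebraMap_apply K F Kb`, `σ.commutes`).
  Let `D' = D.map (σ : Kb →+* Kb)`: `D' • EF Kb = (D • EF Kb).map σ = W.map _ = D • EF Kb`; `aut_short` gives `ρ` with `ρ ^ 4 * cA Kb = cA Kb`, `ρ ^ 6 * cB Kb = cB Kb`; `ga σ S` (nuX/DB/Defs.lean; `xc_gk`, `yc_gk`, `gk_sm`, `gk_mul`, `gk_ne` in GL/Env.lean) has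
  `cx D' (ga σ S) = σ (cx D S) = cx D (φ S)` and the same for `cy`, so `xc (φ S) = ρ ^ 2 * xc (ga σ S)`, `yc (φ S) = ρ ^ 3 * yc (ga σ S)` for `S ≠ 0`. `θ = φ.comp (ga σ⁻¹)` (`ga σ⁻¹ : Pt Kb →+ Pt Kb`) satisfies the hypothesis of
  `aut_sm` (GL/SemA.lean), so `θ (sm a T) = sm a (θ T)`; `φ T = θ (ga σ T)` and `ga σ (sm a T) = sm a (ga σ T)`.
* `trp_ta`: `ta_hom hT φ (fun a T => trp_lin hD h a T)` (GL/TrA.lean).
* `trp_agree`: copy `fra_eq` of GL/FrA.lean: for `T ≠ 0`: `T`, `φ₁ T`, `φ₂ T` are `Ta` (`trp_ta`), not zero, so not in `KrC V.valuation D` (`ta_kr (abv_res hV) hG`: GL/PiC.lean with `P = w.under (𝓞 K)`);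
  `cx D (φ₁ T) = σ₁ (cx D T)` and `cx D (φ₂ T) = σ₂ (cx D T)` are congruent to `(cx D T) ^ m` (`not_krc`: `V (cx D T) ≤ 1`), the same for `cy` (`cy_le`), so `krc_of` (GL/ChgA.lean) gives `KrC V.valuation D (φ₁ T - φ₂ T)`, which is `Ta` (`ta_sub`), so `φ₁ T - φ₂ T = 0`.
* `trp_in`: `C` a good model: `D' = C.map (algebraMap F Kb) * D`, `D' • EF Kb = (C • W).map _` (`md_chg`), `GoodC V.valuation D'` (`goodC_of`), `Trp D' σ φ` (`trp_chg`), `Trp D' (1 : Kb ≃ₐ[F] Kb) (AddMonoidHom.id _)` (`trp_id`; the function `⇑(1 : Kb ≃ₐ[F] Kb)` is the identity by `rfl`),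
  `IsFr V 1 (1 : Kb ≃ₐ[F] Kb)` (`x - x ^ 1 = 0`): `trp_agree` for `D'` with `m = 1`.
-/

set_option autoImplicit false

namespace Pool.Agent.Lib.MP_1a91b9_nuX.PG

open NumberField IsDedekindDomain WeierstrassCurve Pool.Agent.Lib.MP_1a91b9_nuT
open Pool.Agent.Lib.MP_1a91b9_nuX.DB Pool.Agent.Lib.MP_1a91b9_nuX.GL

universe u

variable [CD] [DecidableEq Kb]

omit [DecidableEq Kb] in
private theorem trpb_EF : EF Kb = E Kb := by
  refine WeierstrassCurve.ext ?_ ?_ ?_ ?_ ?_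
  · exact map_zero (algebraMap K Kb)
  · exact map_zero (algebraMap K Kb)
  · exact map_zero (algebraMap K Kb)
  · exact map_intCast (algebraMap K Kb) _
  · exact map_intCast (algebraMap K Kb) _

omit [DecidableEq Kb] in
private theorem trpb_map (f : Kb →+* Kb) : (EF Kb).map f = EF Kb := by
  rw [trpb_EF]
  refine WeierstrassCurve.ext ?_ ?_ ?_ ?_ ?_
  · exact map_zero f
  · exact map_zero f
  · exact map_zero f
  · exact map_intCast f _
  · exact map_intCast f _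

omit [CD] [DecidableEq Kb] in
private theorem trpb_diff {F Ω : Type*} [Field F] [NumberField F] [Field Ω] [Algebra F Ω]
    {V : ValuationSubring Ω} {m : ℕ} {σ₁ σ₂ : Ω ≃ₐ[F] Ω}
    (h1 : IsFr V m σ₁) (h2 : IsFr V m σ₂) {c : Ω} (hc : V.valuation c ≤ 1) :
    V.valuation (σ₁ c - σ₂ c) < 1 := by
  have e : σ₁ c - σ₂ c = (σ₁ c - c ^ m) - (σ₂ c - c ^ m) := by ring
  rw [e]
  exact (V.valuation.map_sub _ _).trans_lt (max_lt (h1 c hc) (h2 c hc))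

section
variable {F : Type u} [Field F] [NumberField F] [Algebra K F] [Algebra F Kb]
  [IsScalarTower K F Kb] {W : WeierstrassCurve F} {D : VariableChange Kb}
  (hD : D • EF Kb = W.map (algebraMap F Kb))
include hD

/-- the transport of an automorphism over `K` is linear -/
theorem trp_lin {σ : Kb ≃ₐ[F] Kb} {φ : Pt Kb →+ Pt Kb} (h : Trp D σ φ) (a : 𝓞 K) (T : Pt Kb) :
    φ (sm Kb a T) = sm Kb a (φ T) := by
  obtain ⟨τ, hτ⟩ : ∃ τ : Kb ≃+* Kb, ∀ x, τ x = σ x := ⟨(σ : Kb ≃+* Kb), fun _ => rfl⟩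
  obtain ⟨D', hD'⟩ : ∃ D' : VariableChange Kb, D' = D.map (τ : Kb →+* Kb) := ⟨_, rfl⟩
  have h1 : D • EF Kb = D' • EF Kb := by
    have e1 : D' • EF Kb = (D • EF Kb).map (τ : Kb →+* Kb) := by
      rw [hD']
      conv_lhs => rw [← trpb_map (τ : Kb →+* Kb)]
      exact WeierstrassCurve.map_variableChange _ _ _
    rw [e1, hD, WeierstrassCurve.map_map]
    congr 1
    refine RingHom.ext fun x => ?_
    show algebraMap F Kb x = τ (algebraMap F Kb x)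
    rw [hτ, σ.commutes]
  obtain ⟨ρ, hρ, hA, hB, hρ2⟩ := aut_short h1
  have hu : (D'.u : Kb) = σ (D.u : Kb) := by
    rw [hD', ← hτ]
    rfl
  have hr : D'.r = σ D.r := by
    rw [hD', ← hτ]
    rfl
  have hs : D'.s = σ D.s := by
    rw [hD', ← hτ]
    rfl
  have ht : D'.t = σ D.t := by
    rw [hD', ← hτ]
    rfl
  have hR : ∀ S : Pt Kb, S ≠ 0 → xc (φ S) = ρ ^ 2 * σ (xc S) ∧ yc (φ S) = ρ ^ 3 * σ (yc S) := by
    intro S hS
    obtain ⟨-, g2, g3⟩ := h S hS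
    have k1 := hρ2 (ga σ S) (φ S) (by
      rw [g2, cx, cx, xc_gk, hu, hr, map_div₀, map_sub, map_pow]) (by
      rw [g3, cy, cy, xc_gk, yc_gk, hu, hr, hs, ht, map_div₀, map_sub, map_sub, map_mul,
        map_sub, map_pow])
    rw [xc_gk, yc_gk] at k1
    exact k1
  obtain ⟨θ, hθ⟩ : ∃ θ : Pt Kb →+ Pt Kb, ∀ S, θ S = φ (ga σ⁻¹ S) :=
    ⟨φ.comp (ga σ⁻¹), fun _ => rfl⟩
  have hinv : ∀ x : Kb, σ (σ⁻¹ x) = x := fun x => σ.apply_symm_apply x
  have hθ1 : ∀ S, S ≠ 0 → θ S ≠ 0 ∧ xc (θ S) = ρ ^ 2 * xc S ∧ yc (θ S) = ρ ^ 3 * yc S := by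
    intro S hS
    have h2 : ga σ⁻¹ S ≠ 0 := fun h2 => hS ((gk_ne σ⁻¹).1 h2)
    obtain ⟨k1, k2⟩ := hR _ h2
    rw [xc_gk, hinv] at k1
    rw [yc_gk, hinv] at k2
    rw [hθ]
    exact ⟨(h _ h2).1, k1, k2⟩
  have hθ2 : ∀ S, φ S = θ (ga σ S) := by
    intro S
    rw [hθ, ← gk_mul, inv_mul_cancel, gk_one]
  rw [hθ2, hθ2, gk_sm, aut_sm hρ hA hB hθ1]

theorem trp_ta {σ : Kb ≃ₐ[F] Kb} {φ : Pt Kb →+ Pt Kb} (h : Trp D σ φ) {V : ValuationSubring Kb}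
    {T : Pt Kb} (hT : Ta V.valuation T) : Ta V.valuation (φ T) := 
  ta_hom hT φ fun a T => trp_lin hD h a T

variable {w : HeightOneSpectrum (𝓞 F)} {V : ValuationSubring Kb} (hV : Abv w V)
include hV

/-- two automorphisms with the same action on the residue field act in the same way on the torsion prime to `V` -/
theorem trp_agree (hG : GoodC V.valuation D) {σ₁ σ₂ : Kb ≃ₐ[F] Kb} {m : ℕ} (h1 : IsFr V m σ₁)
    (h2 : IsFr V m σ₂) {φ₁ φ₂ : Pt Kb →+ Pt Kb} (hφ₁ : Trp D σ₁ φ₁) (hφ₂ : Trp D σ₂ φ₂)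
    {T : Pt Kb} (hT : Ta V.valuation T) : φ₁ T = φ₂ T := by
  rcases eq_or_ne T 0 with h0 | h0
  · rw [h0, map_zero, map_zero]
  have hk : ∀ X : Pt Kb, Ta V.valuation X → KrC V.valuation D X → X = 0 :=
    fun X hX hX' => ta_kr (abv_res (k := K) hV) hG hX hX'
  obtain ⟨f0, fx, fy⟩ := hφ₁ T h0
  obtain ⟨g0, gx, gy⟩ := hφ₂ T h0
  have hTk : ¬ KrC V.valuation D T := fun h => h0 (hk T hT h)
  have hn1 : ¬ KrC V.valuation D (φ₁ T) := fun h => f0 (hk _ (trp_ta hD hφ₁ hT) h)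
  have hn2 : ¬ KrC V.valuation D (φ₂ T) := fun h => g0 (hk _ (trp_ta hD hφ₂ hT) h)
  have h3 : KrC V.valuation D (φ₁ T - φ₂ T) := by
    refine krc_of hG hn1 hn2 ?_ ?_
    · rw [fx, gx]
      exact trpb_diff h1 h2 (not_krc hTk).2
    · rw [fy, gy]
      exact trpb_diff h1 h2 (cy_le hG hTk)
  exact sub_eq_zero.1 (hk _ (ta_sub (trp_ta hD hφ₁ hT) (trp_ta hD hφ₂ hT)) h3)

/-- the inertia acts trivially on the torsion prime to `V` at a place of good reduction -/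
theorem trp_in (hg : ∃ C : VariableChange F, GM.GoodW (w.valuation F) (C • W)) {σ : Kb ≃ₐ[F] Kb}
    (hσ : IsFr V 1 σ) {φ : Pt Kb →+ Pt Kb} (hφ : Trp D σ φ) {T : Pt Kb}
    (hT : Ta V.valuation T) : φ T = T := by
  obtain ⟨C, hC⟩ := hg
  have hD' := md_chg hD C
  have hG : GoodC V.valuation (C.map (algebraMap F Kb) * D) := goodC_of hD' hV hC
  have h1 : IsFr V 1 (1 : Kb ≃ₐ[F] Kb) := by
    intro x _
    have e : (1 : Kb ≃ₐ[F] Kb) x - x ^ 1 = 0 := by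
      rw [pow_one]
      exact sub_self x
    rw [e, map_zero]
    exact zero_lt_one
  exact trp_agree hD' hV hG hσ h1 ((trp_chg C σ).1 hφ) (φ₂ := AddMonoidHom.id (Pt Kb))
    (trp_id (D := C.map (algebraMap F Kb) * D)) hT

end

end Pool.Agent.Lib.MP_1a91b9_nuX.PG
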